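import Mathlib

/-!
# Oracle computations on a stack machine over binary trees

The data are finite binary trees.  Programs are built from a few elementary instructions by
composition, pairing, tests and loops; one instruction asks an oracle.  A configuration of the
machine consists of a stack of pending items and the current tree.  Every step costs (at least) the
sizes of the trees which it handles, so that time and space on this machine and on Turing machines
are polynomially related.
-/

namespace Pool.Agent.H69.Ora

/-! ### Data -/

/-- Finite binary trees. -/
inductive Tr : Type
  | nil : Tr
  | node : Tr → Tr → Tr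

/-- The size of a tree: the number of its nodes (leaves `nil` included). -/
def Tr.size : Tr → ℕ
  | .nil => 1
  | .node a b => a.size + b.size + 1

/-- The left subtree (`nil` for the tree `nil`). -/
def Tr.hd : Tr → Tr
  | .nil => .nil
  | .node a _ => a

/-- The right subtree (`nil` for the tree `nil`). -/
def Tr.tl : Tr → Tr
  | .nil => .nil
  | .node _ b => b

/-- The truth values as trees. -/
def bit : Bool → Tr
  | false => .nil
  | true => .node .nil .nil

/-- A binary word as a tree. -/
def ofWord : List Bool → Tr
  | [] => .nil
  | b :: w => .node (bit b) (ofWord w)

/-- The binary word which is read off from a tree along its right spine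
(`(ofWord w).word = w`). -/
def Tr.word : Tr → List Bool
  | .nil => []
  | .node .nil b => false :: b.word
  | .node (.node _ _) b => true :: b.word

/-- The truth value of a proposition as a tree. -/
noncomputable def truth (p : Prop) : Tr := by
  classical exact if p then .node .nil .nil else .nil

/-! ### Programs -/

/-- Programs; every program transforms a tree into a tree. -/
inductive Prog : Type
  /-- do nothing -/
  | id : Prog
  /-- replace the tree by `nil` -/
  | nil : Prog
  /-- replace the tree by its left subtree -/
  | hd : Prog
  /-- replace the tree by its right subtree -/
  | tl : Prog
  /-- ask the oracle whether it contains the word read off from the tree, and replace the tree by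
  the answer (on machines without oracle: call the whole program recursively) -/
  | ask : Prog
  /-- run both programs on the tree and form the node of the two results -/
  | pair : Prog → Prog → Prog
  /-- run the first program, then run the second program on its result -/
  | seq : Prog → Prog → Prog
  /-- `cond c p q`: if the result of `c` is not `nil` then run `p`, else run `q` (on the same
  tree) -/
  | cond : Prog → Prog → Prog → Prog
  /-- `loop c p`: while the result of `c` on the current tree is not `nil`, run `p` -/
  | loop : Prog → Prog → Prog

/-- The items on the stack of the machine. -/
inductive Item : Type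
  /-- run this program on the current tree -/
  | run : Prog → Item
  /-- the first component of a pair has been computed; run `q` on `x` -/
  | pairr : (q : Prog) → (x : Tr) → Item
  /-- `a` is the first component of a pair, the current tree is the second one -/
  | join : (a : Tr) → Item
  /-- the current tree is the result of a test; continue with `p` or `q` on `x` -/
  | condc : (p q : Prog) → (x : Tr) → Item
  /-- the current tree is the result of the test `c` of the loop `loop c p` on `x` -/
  | loopc : (c p : Prog) → (x : Tr) → Item

/-- Configurations: the stack and the current tree. -/
abbrev Cfg := List Item × Tr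

/-- Two kinds of machines: machines with an oracle `A` (a language), and machines without oracle on
which the instruction `ask` is a recursive call of the whole program `m`. -/
inductive Mach : Type
  | oracle : Set (List Bool) → Mach
  | recur : (m : Prog) → Mach

/-- The instruction `ask`. -/
noncomputable def Mach.ask : Mach → List Item → Tr → Cfg
  | .oracle A, K, x => (K, truth (x.word ∈ A))
  | .recur m, K, x => (.run m :: K, x)

/-- One step of the machine (a configuration with empty stack does not change any more). -/
noncomputable def next (σ : Mach) : Cfg → Cfg
  | ([], x) => ([], x)
  | (.run .id :: K, x) => (K, x)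
  | (.run .nil :: K, _) => (K, .nil)
  | (.run .hd :: K, x) => (K, x.hd)
  | (.run .tl :: K, x) => (K, x.tl)
  | (.run .ask :: K, x) => σ.ask K x
  | (.run (.pair p q) :: K, x) => (.run p :: .pairr q x :: K, x)
  | (.run (.seq p q) :: K, x) => (.run p :: .run q :: K, x)
  | (.run (.cond c p q) :: K, x) => (.run c :: .condc p q x :: K, x)
  | (.run (.loop c p) :: K, x) => (.run c :: .loopc c p x :: K, x)
  | (.pairr q x :: K, a) => (.run q :: .join a :: K, x)
  | (.join a :: K, b) => (K, .node a b)
  | (.condc _ q x :: K, .nil) => (.run q :: K, x)
  | (.condc p _ x :: K, .node _ _) => (.run p :: K, x)
  | (.loopc _ _ x :: K, .nil) => (K, x)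
  | (.loopc c p x :: K, .node _ _) => (.run p :: .run (.loop c p) :: K, x)

/-- The size of an item: one plus the size of the tree stored in it (the finitely many programs
which can occur are parts of one fixed program). -/
def Item.size : Item → ℕ
  | .run _ => 1
  | .pairr _ x => x.size + 1
  | .join a => a.size + 1
  | .condc _ _ x => x.size + 1
  | .loopc _ _ x => x.size + 1

/-- The size of a configuration. -/
def Cfg.size (c : Cfg) : ℕ := (c.1.map Item.size).sum + c.2.size

/-- The cost of the next step of the machine: one plus the sizes of the current tree and of the
uppermost item of the stack. -/
def cost : Cfg → ℕ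
  | ([], _) => 0
  | (i :: _, x) => i.size + x.size + 1

/-- `Reach σ c c' t`: the machine gets from the configuration `c` to the configuration `c'` by
steps of total cost `t`. -/
inductive Reach (σ : Mach) : Cfg → Cfg → ℕ → Prop
  | refl (c : Cfg) : Reach σ c c 0
  | step {i : Item} {K : List Item} {x : Tr} {c' : Cfg} {t : ℕ} :
      Reach σ (next σ (i :: K, x)) c' t → Reach σ (i :: K, x) c' (cost (i :: K, x) + t)

/-- `Halts σ p x y t`: started on the tree `x`, the program `p` halts with result `y` after time
`t`. -/
def Halts (σ : Mach) (p : Prog) (x y : Tr) (t : ℕ) : Prop := Reach σ ([.run p], x) ([], y) t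

/-- `Within σ s c c'`: the machine gets from the configuration `c` to the configuration `c'`
through configurations of size at most `s`. -/
inductive Within (σ : Mach) (s : ℕ) : Cfg → Cfg → Prop
  | refl (c : Cfg) : Cfg.size c ≤ s → Within σ s c c
  | step {i : Item} {K : List Item} {x : Tr} {c' : Cfg} : Cfg.size (i :: K, x) ≤ s →
      Within σ s (next σ (i :: K, x)) c' → Within σ s (i :: K, x) c'

/-! ### Complexity classes -/

/-- A language: a set of binary words. -/
abbrev Lang := Set (List Bool)

/-- `P A`: the languages which are decided in polynomial time with the oracle `A`. -/
def P (A : Lang) : Set Lang :=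
  {L | ∃ (p : Prog) (k : ℕ), ∀ w : List Bool, ∃ t ≤ (w.length + 2) ^ k,
    Halts (.oracle A) p (ofWord w) (truth (w ∈ L)) t}

/-- `NP A`: the languages `L` for which there are a relation `R` between words, decided in
polynomial time with the oracle `A`, and an exponent `k` such that `w ∈ L` iff `R w y` for some
word `y` of length at most `(|w| + 2) ^ k`. -/
def NP (A : Lang) : Set Lang :=
  {L | ∃ (R : List Bool → List Bool → Prop) (p : Prog) (k : ℕ),
    (∀ w y : List Bool, ∃ t ≤ (w.length + y.length + 2) ^ k,
      Halts (.oracle A) p (.node (ofWord w) (ofWord y)) (truth (R w y)) t) ∧
    ∀ w, w ∈ L ↔ ∃ y : List Bool, y.length ≤ (w.length + 2) ^ k ∧ R w y}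

/-- `PSPACE`: the languages which are decided in polynomial space (by machines without oracle; the
space is the largest size of a configuration, the stack with all pending recursive calls
included). -/
def PSPACE : Set Lang :=
  {L | ∃ (m : Prog) (k : ℕ), ∀ w : List Bool,
    Within (.recur m) ((w.length + 2) ^ k) ([.run m], ofWord w) ([], truth (w ∈ L))}

/-! ### Alternating computations -/

/-- A list of words as a tree. -/
def ofWords : List (List Bool) → Tr
  | [] => .nil
  | y :: ys => .node (ofWord y) (ofWords ys)

/-- A game of two players who move alternately; a move is a word of length at most `m`.  `k` moves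
are still to be made, `ys` is the list of the moves made so far (the last move first).  `Game R m k ys`
says that the player who has to move wins; at the end `R` decides whether the player who would
have to move next has won. -/
def Game (R : List (List Bool) → Prop) (m : ℕ) : ℕ → List (List Bool) → Prop
  | 0, ys => R ys
  | k + 1, ys => ∃ y : List Bool, y.length ≤ m ∧ ¬ Game R m k (y :: ys)

/-- `Alt f`: the languages which are decided by alternating computations in polynomial time with
`f n` alternating quantifiers on the inputs of length `n` (the quantifiers range over words of
polynomial length, the predicate is decided in polynomial time). -/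
def Alt (f : ℕ → ℕ) : Set Lang :=
  {L | ∃ (R : List Bool → List (List Bool) → Prop) (p : Prog) (e : ℕ),
    (∀ (w : List Bool) (ys : List (List Bool)),
      ∃ t ≤ (w.length + (ys.map (fun y => y.length + 1)).sum + 2) ^ e,
        Halts (.oracle ∅) p (.node (ofWord w) (ofWords ys)) (truth (R w ys)) t) ∧
    ∀ w, w ∈ L ↔ Game (R w) ((w.length + 2) ^ e) (f w.length) []}

/-! ### Codes of programs and of trees -/

lemma Tr.size_hd_le (x : Tr) : x.hd.size ≤ x.size := by
  cases x <;> simp only [Tr.hd, Tr.size] <;> omega

lemma Tr.size_tl_le (x : Tr) : x.tl.size ≤ x.size := by
  cases x <;> simp only [Tr.tl, Tr.size] <;> omega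

/-- The program with the code `v`: every tree is the code of a program, and every program has a
code. -/
def dec : Tr → Prog
  | .nil => .id
  | .node .nil .nil => .nil
  | .node .nil (.node .nil .nil) => .hd
  | .node .nil (.node .nil (.node _ _)) => .tl
  | .node .nil (.node (.node _ _) _) => .ask
  | .node (.node .nil .nil) a => .pair (dec a.hd) (dec a.tl)
  | .node (.node .nil (.node _ _)) a => .seq (dec a.hd) (dec a.tl)
  | .node (.node (.node _ _) .nil) a => .loop (dec a.hd) (dec a.tl)
  | .node (.node (.node _ _) (.node _ _)) a => .cond (dec a.hd) (dec a.tl.hd) (dec a.tl.tl)
termination_by v => v.size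
decreasing_by
  all_goals
    have h1 := Tr.size_hd_le a
    have h2 := Tr.size_tl_le a
    have h3 := Tr.size_hd_le a.tl
    have h4 := Tr.size_tl_le a.tl
    simp only [Tr.size]
    omega

/-- Reading a bit (from right to left) in Polish notation: `false` is a leaf, `true` forms the node
of the two uppermost trees of the stack. -/
def push : Bool → List Tr → List Tr
  | false, s => .nil :: s
  | true, a :: b :: s => .node a b :: s
  | true, s => s

/-- The tree described by a binary word in Polish notation (preorder, `true` for a node and `false`
for a leaf); every tree is described by some word. -/
def tree (w : List Bool) : Tr := (w.foldr push []).headD .nil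

/-- The self-referential universal language with exponent `c`: the word `w` describes a triple
`((v, x), r)` such that, with the oracle `B` itself, the program with code `v` accepts `(x, y)`, for
some word `y`, in some time `t` with `t ^ c ≤ |r|`. -/
def SelfUniversal (c : ℕ) (B : Lang) : Prop :=
  ∀ w : List Bool, w ∈ B ↔ ∃ (v x r : Tr) (y : List Bool) (t : ℕ),
    tree w = .node (.node v x) r ∧ t ^ c ≤ r.size ∧
      Halts (.oracle B) (dec v) (.node x (ofWord y)) (truth True) t

end Pool.Agent.H69.Ora
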