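import Mathlib
import Pool.Agent.H69.Ora.Def

/-!
# Oracle computations: basic properties of the machine
-/

namespace Pool.Agent.H69.Ora

set_option linter.unusedSimpArgs false

variable {σ : Mach}

lemma Tr.size_pos (x : Tr) : 1 ≤ x.size := by cases x <;> simp [Tr.size]

lemma truth_true' {p : Prop} (h : p) : truth p = .node .nil .nil := by
  unfold truth; simp [h]

lemma truth_false' {p : Prop} (h : ¬ p) : truth p = .nil := by
  unfold truth; simp [h]

lemma truth_bool (b : Bool) : truth (b = true) = bit b := by
  cases b
  · exact truth_false' (by simp)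
  · exact truth_true' rfl

lemma truth_size_le (p : Prop) : (truth p).size ≤ 3 := by
  by_cases h : p
  · rw [truth_true' h]; simp [Tr.size]
  · rw [truth_false' h]; simp [Tr.size]

lemma truth_eq_true {p : Prop} : truth p = truth True ↔ p := by
  by_cases h : p
  · simp [h]
  · rw [truth_false' h, truth_true' trivial]
    simp [h]

lemma truth_congr {p q : Prop} (h : p ↔ q) : truth p = truth q := by
  rw [propext h]

lemma truth_inj {p q : Prop} (h : truth p = truth q) : p ↔ q := by
  by_cases hp : p <;> by_cases hq : q <;>
    simp_all [truth_true', truth_false']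

/-! ### Words and trees -/

@[simp] lemma word_ofWord (w : List Bool) : (ofWord w).word = w := by
  induction w with
  | nil => rfl
  | cons b w ih => cases b <;> simp [ofWord, bit, Tr.word, ih]

lemma word_length_le (x : Tr) : 2 * x.word.length + 1 ≤ x.size := by
  induction x using Tr.word.induct with
  | case1 => simp [Tr.word, Tr.size]
  | case2 b ih => simp only [Tr.word, Tr.size, List.length_cons]; omega
  | case3 a a' b ih =>
    have := Tr.size_pos a
    simp only [Tr.word, Tr.size, List.length_cons]; omega

lemma bit_size_le (b : Bool) : (bit b).size ≤ 3 := by cases b <;> simp [bit, Tr.size]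

lemma ofWord_size_le (w : List Bool) : (ofWord w).size ≤ 4 * w.length + 1 := by
  induction w with
  | nil => simp [ofWord, Tr.size]
  | cons b w ih =>
    have := bit_size_le b
    simp only [ofWord, Tr.size, List.length_cons]; omega

lemma ofWord_size_ge (w : List Bool) : 2 * w.length + 1 ≤ (ofWord w).size := by
  have := word_length_le (ofWord w)
  rwa [word_ofWord] at this

/-! ### Reach -/

lemma Reach.trans {c c' c'' : Cfg} {t t' : ℕ} (h : Reach σ c c' t) (h' : Reach σ c' c'' t') :
    Reach σ c c'' (t + t') := by
  induction h with
  | refl c => simpa using h'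
  | step h ih =>
    rw [Nat.add_assoc]
    exact Reach.step (ih h')

lemma Reach.cast {c c' : Cfg} {t t' : ℕ} (h : Reach σ c c' t) (e : t = t') : Reach σ c c' t' :=
  e ▸ h

lemma next_append (i : Item) (K K' : List Item) (x : Tr) :
    next σ (i :: (K ++ K'), x) =
      ((next σ (i :: K, x)).1 ++ K', (next σ (i :: K, x)).2) := by
  cases i with
  | run p =>
    cases p with
    | ask => cases σ <;> rfl
    | _ => rfl
  | pairr q y => rfl
  | join a => rfl
  | condc p q y => cases x <;> rfl
  | loopc c p y => cases x <;> rfl

lemma Reach.frame' {c c' : Cfg} {t : ℕ} (h : Reach σ c c' t) (K0 : List Item) :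
    Reach σ (c.1 ++ K0, c.2) (c'.1 ++ K0, c'.2) t := by
  induction h with
  | refl c => exact Reach.refl _
  | @step i K x c' t h ih =>
    have h1 : Reach σ (next σ (i :: (K ++ K0), x)) (c'.1 ++ K0, c'.2) t := by
      rw [next_append]; exact ih
    exact Reach.step h1

lemma Halts.frame {p : Prog} {x y : Tr} {t : ℕ} (h : Halts σ p x y t) (K : List Item) :
    Reach σ (.run p :: K, x) (K, y) t := by
  have := Reach.frame' h K
  simpa using this

/-- The machine is deterministic. -/
lemma Reach.det {c : Cfg} {y y' : Tr} {t t' : ℕ} (h : Reach σ c ([], y) t)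
    (h' : Reach σ c ([], y') t') : y = y' ∧ t = t' := by
  generalize hd : (([], y) : Cfg) = d at h
  induction h generalizing t' with
  | refl c =>
    subst hd
    cases h' with
    | refl => exact ⟨rfl, rfl⟩
  | step h ih =>
    cases h' with
    | step h2 =>
      obtain ⟨rfl, rfl⟩ := ih h2 hd
      exact ⟨rfl, rfl⟩

lemma Halts.det {p : Prog} {x y y' : Tr} {t t' : ℕ} (h : Halts σ p x y t)
    (h' : Halts σ p x y' t') : y = y' ∧ t = t' := Reach.det h h'

lemma cost_run (p : Prog) (K : List Item) (x : Tr) : cost (.run p :: K, x) = x.size + 2 := by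
  simp only [cost, Item.size]; omega

/-! ### Rules -/

lemma Reach.single {i : Item} {K : List Item} {x : Tr} :
    Reach σ (i :: K, x) (next σ (i :: K, x)) (cost (i :: K, x)) := by
  have := Reach.step (σ := σ) (Reach.refl (next σ (i :: K, x)))
  simpa using this

lemma Halts.id (x : Tr) : Halts σ .id x x (x.size + 2) := by
  have := Reach.single (σ := σ) (i := .run .id) (K := []) (x := x)
  rwa [cost_run] at this

lemma Halts.nil (x : Tr) : Halts σ .nil x .nil (x.size + 2) := by
  have := Reach.single (σ := σ) (i := .run .nil) (K := []) (x := x)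
  rwa [cost_run] at this

lemma Halts.hd (x : Tr) : Halts σ .hd x x.hd (x.size + 2) := by
  have := Reach.single (σ := σ) (i := .run .hd) (K := []) (x := x)
  rwa [cost_run] at this

lemma Halts.tl (x : Tr) : Halts σ .tl x x.tl (x.size + 2) := by
  have := Reach.single (σ := σ) (i := .run .tl) (K := []) (x := x)
  rwa [cost_run] at this

lemma Halts.ask_oracle (A : Lang) (x : Tr) :
    Halts (.oracle A) .ask x (truth (x.word ∈ A)) (x.size + 2) := by
  have := Reach.single (σ := .oracle A) (i := .run .ask) (K := []) (x := x)
  rwa [cost_run] at this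

lemma Halts.pair {p q : Prog} {x a b : Tr} {s t : ℕ} (h1 : Halts σ p x a s)
    (h2 : Halts σ q x b t) :
    Halts σ (.pair p q) x (.node a b) (s + t + 2 * x.size + 2 * a.size + b.size + 6) := by
  have e1 : Reach σ ([.run (.pair p q)], x) ([.run p, .pairr q x], x) (x.size + 2) := by
    have := Reach.single (σ := σ) (i := .run (.pair p q)) (K := []) (x := x)
    rwa [cost_run] at this
  have e2 := h1.frame [.pairr q x]
  have e3 : Reach σ ([.pairr q x], a) ([.run q, .join a], x) (cost ([.pairr q x], a)) :=
    Reach.single
  have e4 := h2.frame [.join a]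
  have e5 : Reach σ ([.join a], b) ([], .node a b) (cost ([.join a], b)) := Reach.single
  refine ((((e1.trans e2).trans e3).trans e4).trans e5).cast ?_
  simp only [cost, Item.size]
  omega

lemma Halts.seq {p q : Prog} {x y z : Tr} {s t : ℕ} (h1 : Halts σ p x y s)
    (h2 : Halts σ q y z t) : Halts σ (.seq p q) x z (s + t + x.size + 2) := by
  have e1 : Reach σ ([.run (.seq p q)], x) ([.run p, .run q], x) (x.size + 2) := by
    have := Reach.single (σ := σ) (i := .run (.seq p q)) (K := []) (x := x)
    rwa [cost_run] at this
  refine (((e1.trans (h1.frame [.run q])).trans h2)).cast ?_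
  omega

lemma Halts.cond_true {c p q : Prog} {x a b y : Tr} {s t : ℕ} (h1 : Halts σ c x (.node a b) s)
    (h2 : Halts σ p x y t) :
    Halts σ (.cond c p q) x y (s + t + 2 * x.size + (Tr.node a b).size + 4) := by
  have e1 : Reach σ ([.run (.cond c p q)], x) ([.run c, .condc p q x], x) (x.size + 2) := by
    have := Reach.single (σ := σ) (i := .run (.cond c p q)) (K := []) (x := x)
    rwa [cost_run] at this
  have e2 := h1.frame [.condc p q x]
  have e3 : Reach σ ([.condc p q x], .node a b) ([.run p], x)
      (cost ([.condc p q x], .node a b)) := Reach.single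
  refine (((e1.trans e2).trans e3).trans h2).cast ?_
  simp only [cost, Item.size]
  omega

lemma Halts.cond_false {c p q : Prog} {x y : Tr} {s t : ℕ} (h1 : Halts σ c x .nil s)
    (h2 : Halts σ q x y t) :
    Halts σ (.cond c p q) x y (s + t + 2 * x.size + 5) := by
  have e1 : Reach σ ([.run (.cond c p q)], x) ([.run c, .condc p q x], x) (x.size + 2) := by
    have := Reach.single (σ := σ) (i := .run (.cond c p q)) (K := []) (x := x)
    rwa [cost_run] at this
  have e2 := h1.frame [.condc p q x]
  have e3 : Reach σ ([.condc p q x], .nil) ([.run q], x)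
      (cost ([.condc p q x], .nil)) := Reach.single
  refine (((e1.trans e2).trans e3).trans h2).cast ?_
  simp only [cost, Item.size, Tr.size]
  omega

lemma Halts.loop_stop {c p : Prog} {x : Tr} {s : ℕ} (h1 : Halts σ c x .nil s) :
    Halts σ (.loop c p) x x (s + 2 * x.size + 5) := by
  have e1 : Reach σ ([.run (.loop c p)], x) ([.run c, .loopc c p x], x) (x.size + 2) := by
    have := Reach.single (σ := σ) (i := .run (.loop c p)) (K := []) (x := x)
    rwa [cost_run] at this
  have e2 := h1.frame [.loopc c p x]
  have e3 : Reach σ ([.loopc c p x], .nil) ([], x)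
      (cost ([.loopc c p x], .nil)) := Reach.single
  refine ((e1.trans e2).trans e3).cast ?_
  simp only [cost, Item.size, Tr.size]
  omega

lemma Halts.loop_step {c p : Prog} {x a b y z : Tr} {s t u : ℕ}
    (h1 : Halts σ c x (.node a b) s) (h2 : Halts σ p x y t) (h3 : Halts σ (.loop c p) y z u) :
    Halts σ (.loop c p) x z (s + t + u + 2 * x.size + (Tr.node a b).size + 4) := by
  have e1 : Reach σ ([.run (.loop c p)], x) ([.run c, .loopc c p x], x) (x.size + 2) := by
    have := Reach.single (σ := σ) (i := .run (.loop c p)) (K := []) (x := x)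
    rwa [cost_run] at this
  have e2 := h1.frame [.loopc c p x]
  have e3 : Reach σ ([.loopc c p x], .node a b) ([.run p, .run (.loop c p)], x)
      (cost ([.loopc c p x], .node a b)) := Reach.single
  have e4 := h2.frame [.run (.loop c p)]
  refine ((((e1.trans e2).trans e3).trans e4).trans h3).cast ?_
  simp only [cost, Item.size]
  omega

/-! ### Sizes and costs -/

lemma next_size_le (i : Item) (K : List Item) (x : Tr) :
    (next σ (i :: K, x)).2.size ≤ cost (i :: K, x) := by
  have hx := Tr.size_pos x
  cases i with
  | run p =>
    rw [cost_run]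
    cases p with
    | ask =>
      cases σ with
      | oracle A =>
        have := truth_size_le (x.word ∈ A)
        show (truth (x.word ∈ A)).size ≤ _
        omega
      | recur m => show x.size ≤ _; omega
    | nil => show Tr.nil.size ≤ _; simp only [Tr.size]; omega
    | hd => have := Tr.size_hd_le x; show x.hd.size ≤ _; omega
    | tl => have := Tr.size_tl_le x; show x.tl.size ≤ _; omega
    | _ => show x.size ≤ _; omega
  | pairr q y => simp only [next, cost, Item.size]; omega
  | join a => simp only [next, cost, Item.size, Tr.size]; omega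
  | condc p q y => cases x <;> simp only [next, cost, Item.size] <;> omega
  | loopc c p y => cases x <;> simp only [next, cost, Item.size] <;> omega

lemma Reach.size_le {c c' : Cfg} {t : ℕ} (h : Reach σ c c' t) :
    c'.2.size ≤ max c.2.size t := by
  induction h with
  | refl c => exact le_max_left _ _
  | @step i K x c' t h ih =>
    have h1 := next_size_le (σ := σ) i K x
    refine le_max_of_le_right ?_
    rcases le_max_iff.1 ih with h2 | h2 <;> omega

lemma Halts.size_le {p : Prog} {x y : Tr} {t : ℕ} (h : Halts σ p x y t) : y.size ≤ t := by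
  unfold Halts at h
  cases h with
  | @step i K x c' t h =>
    have h1 := next_size_le (σ := σ) (.run p) [] x
    have h2 := h.size_le
    rcases le_max_iff.1 h2 with h2 | h2 <;> simp only at h2 <;> omega

lemma Halts.in_size_lt {p : Prog} {x y : Tr} {t : ℕ} (h : Halts σ p x y t) : x.size + 2 ≤ t := by
  unfold Halts at h
  cases h with
  | @step i K x c' t h =>
    rw [cost_run]; omega

/-! ### Locality -/

/-- A computation of cost `t` depends only on the words `u` with `2|u|+3 ≤ t` of the oracle. -/
lemma Reach.congr {A A' : Lang} {c c' : Cfg} {t : ℕ} (h : Reach (.oracle A) c c' t)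
    (hA : ∀ u : List Bool, 2 * u.length + 3 ≤ t → (u ∈ A ↔ u ∈ A')) :
    Reach (.oracle A') c c' t := by
  induction h with
  | refl c => exact Reach.refl _
  | @step i K x c' t h ih =>
    have h1 : next (.oracle A) (i :: K, x) = next (.oracle A') (i :: K, x) := by
      cases i with
      | run p =>
        cases p with
        | ask =>
          have h2 : x.word ∈ A ↔ x.word ∈ A' := by
            refine hA _ ?_
            have := word_length_le x
            rw [cost_run]
            omega
          show ((K, truth (x.word ∈ A)) : Cfg) = (K, truth (x.word ∈ A'))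
          rw [truth_congr h2]
        | _ => rfl
      | condc p q y => cases x <;> rfl
      | loopc c p y => cases x <;> rfl
      | _ => rfl
    have h2 := ih (fun u hu => hA u (by omega))
    rw [h1] at h2
    exact Reach.step h2

lemma Halts.congr {A A' : Lang} {p : Prog} {x y : Tr} {t : ℕ} (h : Halts (.oracle A) p x y t)
    (hA : ∀ u : List Bool, 2 * u.length + 3 ≤ t → (u ∈ A ↔ u ∈ A')) :
    Halts (.oracle A') p x y t := Reach.congr h hA

/-! ### Space -/

lemma Cfg.size_mk (K : List Item) (x : Tr) :
    Cfg.size (K, x) = (K.map Item.size).sum + x.size := rfl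

lemma Cfg.size_cons (i : Item) (K : List Item) (x : Tr) :
    Cfg.size (i :: K, x) = i.size + Cfg.size (K, x) := by
  simp only [Cfg.size_mk, List.map_cons, List.sum_cons]; omega

lemma Cfg.size_append (K K' : List Item) (x : Tr) :
    Cfg.size (K ++ K', x) = Cfg.size (K, x) + (K'.map Item.size).sum := by
  simp only [Cfg.size_mk, List.map_append, List.sum_append]; omega

lemma Within.mono {s s' : ℕ} {c c' : Cfg} (h : Within σ s c c') (hs : s ≤ s') :
    Within σ s' c c' := by
  induction h with
  | refl c h => exact Within.refl _ (h.trans hs)
  | step h _ ih => exact Within.step (h.trans hs) ih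

lemma Within.trans {s : ℕ} {c c' c'' : Cfg} (h : Within σ s c c') (h' : Within σ s c' c'') :
    Within σ s c c'' := by
  induction h with
  | refl c h => exact h'
  | step h _ ih => exact Within.step h (ih h')

lemma Within.le_left {s : ℕ} {c c' : Cfg} (h : Within σ s c c') : Cfg.size c ≤ s := by
  cases h <;> assumption

lemma Within.le_right {s : ℕ} {c c' : Cfg} (h : Within σ s c c') : Cfg.size c' ≤ s := by
  induction h with
  | refl c h => exact h
  | step _ _ ih => exact ih

lemma Within.frame' {s : ℕ} {c c' : Cfg} (h : Within σ s c c') (K0 : List Item) :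
    Within σ (s + (K0.map Item.size).sum) (c.1 ++ K0, c.2) (c'.1 ++ K0, c'.2) := by
  induction h with
  | refl c h =>
    refine Within.refl _ ?_
    rw [Cfg.size_append]
    exact Nat.add_le_add_right h _
  | @step i K x c' h h' ih =>
    have h1 : Within σ (s + (K0.map Item.size).sum) (next σ (i :: (K ++ K0), x))
        (c'.1 ++ K0, c'.2) := by
      rw [next_append]; exact ih
    refine Within.step ?_ h1
    have := Cfg.size_append (i :: K) K0 x
    rw [List.cons_append] at this
    show Cfg.size (i :: (K ++ K0), x) ≤ _
    omega

/-- `Space σ p x y s`: started on `x`, the program `p` halts with result `y` in space `s`. -/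
def Space (σ : Mach) (p : Prog) (x y : Tr) (s : ℕ) : Prop := Within σ s ([.run p], x) ([], y)

lemma Space.mono {p : Prog} {x y : Tr} {s s' : ℕ} (h : Space σ p x y s) (hs : s ≤ s') :
    Space σ p x y s' := Within.mono h hs

lemma Space.frame {p : Prog} {x y : Tr} {s : ℕ} (h : Space σ p x y s) (K : List Item) :
    Within σ (s + (K.map Item.size).sum) (.run p :: K, x) (K, y) := by
  have := Within.frame' h K
  simpa using this

lemma Space.le_left {p : Prog} {x y : Tr} {s : ℕ} (h : Space σ p x y s) : x.size + 1 ≤ s := by
  have := Within.le_left h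
  simp only [Cfg.size_mk, List.map_cons, List.sum_cons, Item.size, List.map_nil, List.sum_nil] at this
  omega

lemma Space.le_right {p : Prog} {x y : Tr} {s : ℕ} (h : Space σ p x y s) : y.size ≤ s := by
  have := Within.le_right h
  simpa [Cfg.size_mk] using this

/-- One step increases the size of a configuration at most by its cost. -/
lemma next_cfg_size_le (i : Item) (K : List Item) (x : Tr) :
    Cfg.size (next σ (i :: K, x)) ≤ Cfg.size (i :: K, x) + cost (i :: K, x) := by
  have hx := Tr.size_pos x
  cases i with
  | run p =>
    rw [cost_run]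
    cases p with
    | ask =>
      cases σ with
      | oracle A =>
        have := truth_size_le (x.word ∈ A)
        show Cfg.size (K, truth (x.word ∈ A)) ≤ _
        simp only [Cfg.size_mk, List.map_cons, List.sum_cons, Item.size]
        omega
      | recur m =>
        show Cfg.size (.run m :: K, x) ≤ _
        simp only [Cfg.size_mk, List.map_cons, List.sum_cons, Item.size]
        omega
    | hd => have := Tr.size_hd_le x; simp only [next, Cfg.size_mk, List.map_cons, List.sum_cons, Item.size]; omega
    | tl => have := Tr.size_tl_le x; simp only [next, Cfg.size_mk, List.map_cons, List.sum_cons, Item.size]; omega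
    | _ => simp only [next, Cfg.size_mk, List.map_cons, List.sum_cons, Item.size, Tr.size]; omega
  | pairr q y => simp only [next, cost, Cfg.size_mk, List.map_cons, List.sum_cons, Item.size]; omega
  | join a => simp only [next, cost, Cfg.size_mk, List.map_cons, List.sum_cons, Item.size, Tr.size]; omega
  | condc p q y =>
    cases x <;> simp only [next, cost, Cfg.size_mk, List.map_cons, List.sum_cons, Item.size, Tr.size] <;> omega
  | loopc c p y =>
    cases x <;> simp only [next, cost, Cfg.size_mk, List.map_cons, List.sum_cons, Item.size, Tr.size] <;> omega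

lemma Reach.within {c c' : Cfg} {t : ℕ} (h : Reach σ c c' t) :
    Within σ (Cfg.size c + t) c c' := by
  induction h with
  | refl c => exact Within.refl _ (by omega)
  | @step i K x c' t h ih =>
    have h1 := next_cfg_size_le (σ := σ) i K x
    exact Within.step (by omega) (ih.mono (by omega))

lemma Halts.space {p : Prog} {x y : Tr} {t : ℕ} (h : Halts σ p x y t) :
    Space σ p x y (x.size + 1 + t) := by
  have := Reach.within h
  refine Within.mono this ?_
  simp only [Cfg.size_mk, List.map_cons, List.sum_cons, Item.size, List.map_nil, List.sum_nil]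
  omega

lemma Space.seq {p q : Prog} {x y z : Tr} {s s' : ℕ} (h1 : Space σ p x y s)
    (h2 : Space σ q y z s) (hs : s + 1 ≤ s') : Space σ (.seq p q) x z s' := by
  have e1 := h1.frame [.run q]
  simp only [List.map_cons, List.map_nil, List.sum_cons, List.sum_nil, Item.size] at e1
  refine Within.step ?_ ((Within.mono e1 (by omega)).trans (Within.mono h2 (by omega)))
  have := h1.le_left
  simp only [Cfg.size_mk, List.map_cons, List.sum_cons, Item.size, List.map_nil, List.sum_nil]
  omega

lemma Space.pair {p q : Prog} {x a b : Tr} {s D s' : ℕ} (h1 : Space σ p x a s)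
    (h2 : Space σ q x b s) (hx : x.size ≤ D) (ha : a.size ≤ D) (hs : s + D + 1 ≤ s') :
    Space σ (.pair p q) x (.node a b) s' := by
  have e1 := h1.frame [.pairr q x]
  have e2 := h2.frame [.join a]
  simp only [List.map_cons, List.map_nil, List.sum_cons, List.sum_nil, Item.size] at e1 e2
  have l1 := h1.le_left
  have l2 := h1.le_right
  have l3 := h2.le_right
  have e3 : Within σ s' ([.pairr q x], a) ([.run q, .join a], x) := by
    refine Within.step ?_ (Within.refl _ ?_) <;>
      simp only [next, Cfg.size_mk, List.map_cons, List.sum_cons, Item.size, List.map_nil, List.sum_nil] <;> omega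
  have e4 : Within σ s' ([.join a], b) ([], .node a b) := by
    refine Within.step ?_ (Within.refl _ ?_) <;>
      simp only [next, Cfg.size_mk, List.map_cons, List.sum_cons, Item.size, List.map_nil, List.sum_nil,
        Tr.size] <;> omega
  refine Within.step ?_ ((((Within.mono e1 (by omega)).trans e3).trans
    (Within.mono e2 (by omega))).trans e4)
  simp only [Cfg.size_mk, List.map_cons, List.sum_cons, Item.size, List.map_nil, List.sum_nil]
  omega

lemma Space.cond_true {c p q : Prog} {x a b y : Tr} {s D s' : ℕ}
    (h1 : Space σ c x (.node a b) s) (h2 : Space σ p x y s) (hx : x.size ≤ D)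
    (hs : s + D + 1 ≤ s') : Space σ (.cond c p q) x y s' := by
  have e1 := h1.frame [.condc p q x]
  simp only [List.map_cons, List.map_nil, List.sum_cons, List.sum_nil, Item.size] at e1
  have l1 := h1.le_left
  have l2 := h1.le_right
  have l3 := h2.le_left
  have e3 : Within σ s' ([.condc p q x], .node a b) ([.run p], x) := by
    refine Within.step ?_ (Within.refl _ ?_) <;>
      simp only [next, Cfg.size_mk, List.map_cons, List.sum_cons, Item.size, List.map_nil, List.sum_nil] <;>
      omega
  refine Within.step ?_ (((Within.mono e1 (by omega)).trans e3).trans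
    (Within.mono h2 (by omega)))
  simp only [Cfg.size_mk, List.map_cons, List.sum_cons, Item.size, List.map_nil, List.sum_nil]
  omega

lemma Space.cond_false {c p q : Prog} {x y : Tr} {s D s' : ℕ}
    (h1 : Space σ c x .nil s) (h2 : Space σ q x y s) (hx : x.size ≤ D)
    (hs : s + D + 1 ≤ s') : Space σ (.cond c p q) x y s' := by
  have e1 := h1.frame [.condc p q x]
  simp only [List.map_cons, List.map_nil, List.sum_cons, List.sum_nil, Item.size] at e1
  have l1 := h1.le_left
  have l2 := h1.le_right
  have l3 := h2.le_left
  have e3 : Within σ s' ([.condc p q x], .nil) ([.run q], x) := by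
    refine Within.step ?_ (Within.refl _ ?_) <;>
      simp only [next, Cfg.size_mk, List.map_cons, List.sum_cons, Item.size, List.map_nil, List.sum_nil] <;>
      omega
  refine Within.step ?_ (((Within.mono e1 (by omega)).trans e3).trans
    (Within.mono h2 (by omega)))
  simp only [Cfg.size_mk, List.map_cons, List.sum_cons, Item.size, List.map_nil, List.sum_nil]
  omega

lemma Space.loop_stop {c p : Prog} {x : Tr} {s D s' : ℕ}
    (h1 : Space σ c x .nil s) (hx : x.size ≤ D) (hs : s + D + 1 ≤ s') :
    Space σ (.loop c p) x x s' := by
  have e1 := h1.frame [.loopc c p x]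
  simp only [List.map_cons, List.map_nil, List.sum_cons, List.sum_nil, Item.size] at e1
  have l1 := h1.le_left
  have l2 := h1.le_right
  have e3 : Within σ s' ([.loopc c p x], .nil) ([], x) := by
    refine Within.step ?_ (Within.refl _ ?_) <;>
      simp only [next, Cfg.size_mk, List.map_cons, List.sum_cons, Item.size, List.map_nil, List.sum_nil] <;>
      omega
  refine Within.step ?_ ((Within.mono e1 (by omega)).trans e3)
  simp only [Cfg.size_mk, List.map_cons, List.sum_cons, Item.size, List.map_nil, List.sum_nil]
  omega

lemma Space.loop_step {c p : Prog} {x a b y z : Tr} {s D s' : ℕ}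
    (h1 : Space σ c x (.node a b) s) (h2 : Space σ p x y s) (hx : x.size ≤ D)
    (hs : s + D + 1 ≤ s') (h3 : Space σ (.loop c p) y z s') :
    Space σ (.loop c p) x z s' := by
  have e1 := h1.frame [.loopc c p x]
  have e2 := h2.frame [.run (.loop c p)]
  simp only [List.map_cons, List.map_nil, List.sum_cons, List.sum_nil, Item.size] at e1 e2
  have l1 := h1.le_left
  have l2 := h1.le_right
  have l3 := h2.le_left
  have hD := Tr.size_pos x
  have e3 : Within σ s' ([.loopc c p x], .node a b) ([.run p, .run (.loop c p)], x) := by
    refine Within.step ?_ (Within.refl _ ?_) <;>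
      simp only [next, Cfg.size_mk, List.map_cons, List.sum_cons, Item.size, List.map_nil, List.sum_nil] <;>
      omega
  refine Within.step ?_ ((((Within.mono e1 (by omega)).trans e3).trans
    (Within.mono e2 (by omega))).trans h3)
  simp only [Cfg.size_mk, List.map_cons, List.sum_cons, Item.size, List.map_nil, List.sum_nil]
  omega

/-- A loop which runs through the trees `f 0, ..., f n`. -/
lemma Space.loop {c p : Prog} {f : ℕ → Tr} {n s D s' : ℕ}
    (hc : ∀ i < n, ∃ a b, Space σ c (f i) (.node a b) s) (hc' : Space σ c (f n) .nil s)
    (hp : ∀ i < n, Space σ p (f i) (f (i + 1)) s) (hD : ∀ i ≤ n, (f i).size ≤ D)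
    (hs : s + D + 1 ≤ s') : Space σ (.loop c p) (f 0) (f n) s' := by
  have key : ∀ j ≤ n, Space σ (.loop c p) (f (n - j)) (f n) s' := by
    intro j
    induction j with
    | zero => intro _; simpa using Space.loop_stop hc' (hD n le_rfl) hs
    | succ j ih =>
      intro hj
      obtain ⟨a, b, h1⟩ := hc (n - (j + 1)) (by omega)
      have h2 := hp (n - (j + 1)) (by omega)
      have e : n - (j + 1) + 1 = n - j := by omega
      rw [e] at h2
      exact Space.loop_step h1 h2 (hD _ (by omega)) hs (ih (by omega))
  simpa using key n le_rfl

lemma Space.call {m : Prog} {x y : Tr} {s : ℕ} (h : Space (.recur m) m x y s) :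
    Space (.recur m) .ask x y s := by
  refine Within.step ?_ h
  have := h.le_left
  simp only [Cfg.size_mk, List.map_cons, List.sum_cons, Item.size, List.map_nil, List.sum_nil]
  omega

end Pool.Agent.H69.Ora
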