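import Mathlib
import Pool.Agent.H69.Ora.Basic

/-!
# Oracle computations: functions computable in polynomial time
-/

namespace Pool.Agent.H69.Ora

/-- Types whose elements are encoded as trees. -/
class Enc (α : Type) where
  /-- the encoding -/
  enc : α → Tr

export Enc (enc)

/-- Natural numbers are encoded in unary. -/
def num : ℕ → Tr
  | 0 => .nil
  | n + 1 => .node .nil (num n)

/-- Lists. -/
def encList {α : Type} [Enc α] : List α → Tr
  | [] => .nil
  | a :: l => .node (enc a) (encList l)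

instance : Enc Tr := ⟨fun x => x⟩
instance : Enc ℕ := ⟨num⟩
instance : Enc Bool := ⟨bit⟩
instance {α β : Type} [Enc α] [Enc β] : Enc (α × β) := ⟨fun p => .node (enc p.1) (enc p.2)⟩
instance {α : Type} [Enc α] : Enc (List α) := ⟨encList⟩

lemma enc_tr (x : Tr) : enc x = x := rfl
lemma enc_pair {α β : Type} [Enc α] [Enc β] (a : α) (b : β) :
    enc (a, b) = .node (enc a) (enc b) := rfl
lemma enc_bool (b : Bool) : enc b = bit b := rfl
lemma enc_nil' {α : Type} [Enc α] : enc ([] : List α) = .nil := rfl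
lemma enc_cons {α : Type} [Enc α] (a : α) (l : List α) :
    enc (a :: l) = .node (enc a) (enc l) := rfl

lemma enc_word (w : List Bool) : enc w = ofWord w := by
  induction w with
  | nil => rfl
  | cons b w ih => rw [enc_cons, ih]; rfl

set_option linter.unusedVariables false

variable {α β γ δ : Type} [Enc α] [Enc β] [Enc γ] [Enc δ]

/-- Encoding size. -/
def sz (x : α) : ℕ := (enc x).size

lemma sz_pos (x : α) : 1 ≤ sz x := Tr.size_pos _
lemma sz_pair (a : α) (b : β) : sz (a, b) = sz a + sz b + 1 := rfl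
lemma sz_tr (x : Tr) : sz x = x.size := rfl
lemma sz_nat (n : ℕ) : sz n = 2 * n + 1 := by
  induction n with
  | zero => rfl
  | succ n ih =>
    have : sz (n + 1) = 1 + sz n + 1 := rfl
    omega
lemma num_size (n : ℕ) : (num n).size = 2 * n + 1 := sz_nat n
lemma sz_bool_le (b : Bool) : sz b ≤ 3 := bit_size_le b
lemma sz_nil : sz ([] : List α) = 1 := rfl
lemma sz_cons (a : α) (l : List α) : sz (a :: l) = sz a + sz l + 1 := rfl
lemma sz_tail_le (l : List α) : sz l.tail ≤ sz l := by
  cases l with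
  | nil => exact le_rfl
  | cons a l => rw [List.tail_cons, sz_cons]; omega

/-- Polynomially bounded functions. -/
def PB (f : α → ℕ) : Prop := ∃ c : ℕ, ∀ x, f x ≤ (sz x + 2) ^ c

lemma base_ge (x : α) : 3 ≤ sz x + 2 := by have := sz_pos x; omega

lemma PB.mono {f g : α → ℕ} (hg : PB g) (h : ∀ x, f x ≤ g x) : PB f := by
  obtain ⟨c, hc⟩ := hg
  exact ⟨c, fun x => (h x).trans (hc x)⟩

lemma PB.const (k : ℕ) : PB (fun _ : α => k) := by
  refine ⟨k, fun x => ?_⟩
  calc k ≤ 2 ^ k := Nat.lt_two_pow_self.le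
    _ ≤ (sz x + 2) ^ k := Nat.pow_le_pow_left (by have := base_ge x; omega) k

lemma PB.self : PB (fun x : α => sz x) := ⟨1, fun x => by simp⟩

lemma PB.add {f g : α → ℕ} (hf : PB f) (hg : PB g) : PB (fun x => f x + g x) := by
  obtain ⟨c, hc⟩ := hf
  obtain ⟨d, hd⟩ := hg
  refine ⟨max c d + 1, fun x => ?_⟩
  have h1 : (sz x + 2) ^ c ≤ (sz x + 2) ^ (max c d) :=
    Nat.pow_le_pow_right (by omega) (le_max_left _ _)
  have h2 : (sz x + 2) ^ d ≤ (sz x + 2) ^ (max c d) :=
    Nat.pow_le_pow_right (by omega) (le_max_right _ _)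
  have h3 := base_ge x
  calc f x + g x ≤ (sz x + 2) ^ (max c d) + (sz x + 2) ^ (max c d) :=
        Nat.add_le_add ((hc x).trans h1) ((hd x).trans h2)
    _ = (sz x + 2) ^ (max c d) * 2 := by ring
    _ ≤ (sz x + 2) ^ (max c d) * (sz x + 2) := Nat.mul_le_mul_left _ (by omega)
    _ = _ := by rw [pow_succ]

lemma PB.mul {f g : α → ℕ} (hf : PB f) (hg : PB g) : PB (fun x => f x * g x) := by
  obtain ⟨c, hc⟩ := hf
  obtain ⟨d, hd⟩ := hg
  refine ⟨c + d, fun x => ?_⟩
  rw [pow_add]
  exact Nat.mul_le_mul (hc x) (hd x)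

lemma PB.pow {f : α → ℕ} (hf : PB f) (k : ℕ) : PB (fun x => f x ^ k) := by
  obtain ⟨c, hc⟩ := hf
  refine ⟨c * k, fun x => ?_⟩
  rw [pow_mul]
  exact Nat.pow_le_pow_left (hc x) k

lemma PB.comp {T : β → ℕ} {f : α → β} (hT : PB T) (hf : PB (fun x => sz (f x))) :
    PB (fun x => T (f x)) := by
  obtain ⟨c, hc⟩ := hT
  obtain ⟨d, hd⟩ := hf
  refine ⟨(d + 1) * c, fun x => ?_⟩
  have h3 := base_ge x
  have h4 : 1 ≤ (sz x + 2) ^ d := Nat.one_le_pow _ _ (by omega)
  have h1 : sz (f x) + 2 ≤ (sz x + 2) ^ (d + 1) := by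
    rw [pow_succ]
    have := hd x
    nlinarith
  calc T (f x) ≤ (sz (f x) + 2) ^ c := hc _
    _ ≤ ((sz x + 2) ^ (d + 1)) ^ c := Nat.pow_le_pow_left h1 c
    _ = _ := by rw [pow_mul]

lemma PB.fst : PB (fun p : α × β => sz p.1) :=
  PB.mono PB.self (fun p => by rcases p with ⟨a, b⟩; rw [sz_pair]; simp only; omega)

lemma PB.snd : PB (fun p : α × β => sz p.2) :=
  PB.mono PB.self (fun p => by rcases p with ⟨a, b⟩; rw [sz_pair]; simp only; omega)

lemma PB.pair {f : α → β} {g : α → γ} (hf : PB (fun x => sz (f x)))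
    (hg : PB (fun x => sz (g x))) : PB (fun x => sz (f x, g x)) :=
  PB.mono ((hf.add hg).add (PB.const 1)) (fun x => by rw [sz_pair])

/-- Functions which are computed in polynomial time by one program on all machines of the set `S`,
with polynomially bounded output size. -/
@[fun_prop]
def PT (S : Set Mach) (f : α → β) : Prop :=
  ∃ (p : Prog) (T : α → ℕ), PB T ∧ PB (fun x => sz (f x)) ∧
    ∀ x, ∀ σ ∈ S, ∃ t ≤ T x, Halts σ p (enc x) (enc (f x)) t

variable {S : Set Mach}

lemma PT.size {f : α → β} (hf : PT S f) : PB (fun x => sz (f x)) := by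
  obtain ⟨_, _, _, h, _⟩ := hf
  exact h

lemma PT.mono {S' : Set Mach} {f : α → β} (hf : PT S f) (h : S' ⊆ S) : PT S' f := by
  obtain ⟨p, T, hT, hs, hr⟩ := hf
  exact ⟨p, T, hT, hs, fun x σ hσ => hr x σ (h hσ)⟩

lemma PT.congr {f g : α → β} (hf : PT S f) (h : ∀ x, f x = g x) : PT S g := by
  have : f = g := funext h
  rwa [← this]

@[fun_prop]
lemma PT.id : PT S (fun x : α => x) :=
  ⟨.id, fun x => sz x + 2, PB.self.add (PB.const 2), PB.self,
    fun x σ _ => ⟨_, le_rfl, Halts.id _⟩⟩

@[fun_prop]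
lemma PT.comp {g : β → γ} {f : α → β} (hg : PT S g) (hf : PT S f) : PT S (fun x => g (f x)) := by
  obtain ⟨p, T, hT, hs, hr⟩ := hf
  obtain ⟨q, U, hU, hs', hr'⟩ := hg
  refine ⟨.seq p q, fun x => T x + U (f x) + sz x + 2,
    ((hT.add (hU.comp hs)).add PB.self).add (PB.const 2), hs'.comp hs, fun x σ hσ => ?_⟩
  obtain ⟨t, ht, h1⟩ := hr x σ hσ
  obtain ⟨u, hu, h2⟩ := hr' (f x) σ hσ
  refine ⟨_, ?_, Halts.seq h1 h2⟩
  show _ ≤ T x + U (f x) + sz x + 2
  unfold sz
  omega

@[fun_prop]
lemma PT.prodMk {f : α → β} {g : α → γ} (hf : PT S f) (hg : PT S g) :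
    PT S (fun x => (f x, g x)) := by
  obtain ⟨p, T, hT, hs, hr⟩ := hf
  obtain ⟨q, U, hU, hs', hr'⟩ := hg
  refine ⟨.pair p q, fun x => T x + U x + 2 * sz x + 2 * sz (f x) + sz (g x) + 6,
    ((((hT.add hU).add ((PB.const 2).mul PB.self)).add ((PB.const 2).mul hs)).add hs').add
      (PB.const 6), hs.pair hs', fun x σ hσ => ?_⟩
  obtain ⟨t, ht, h1⟩ := hr x σ hσ
  obtain ⟨u, hu, h2⟩ := hr' x σ hσ
  have h3 : Halts σ (.pair p q) (enc x) (.node (enc (f x)) (enc (g x))) _ := Halts.pair h1 h2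
  refine ⟨_, ?_, h3⟩
  show _ ≤ T x + U x + 2 * sz x + 2 * sz (f x) + sz (g x) + 6
  unfold sz
  omega

lemma PT.fst' : PT S (fun p : α × β => p.1) :=
  ⟨.hd, fun x => sz x + 2, PB.self.add (PB.const 2), PB.fst,
    fun x σ _ => ⟨_, le_rfl, Halts.hd _⟩⟩

lemma PT.snd' : PT S (fun p : α × β => p.2) :=
  ⟨.tl, fun x => sz x + 2, PB.self.add (PB.const 2), PB.snd,
    fun x σ _ => ⟨_, le_rfl, Halts.tl _⟩⟩

@[fun_prop]
lemma PT.fst {f : α → β × γ} (hf : PT S f) : PT S (fun x => (f x).1) := PT.fst'.comp hf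

@[fun_prop]
lemma PT.snd {f : α → β × γ} (hf : PT S f) : PT S (fun x => (f x).2) := PT.snd'.comp hf

/-- A program producing a fixed tree. -/
def Tr.prog : Tr → Prog
  | .nil => .nil
  | .node a b => .pair a.prog b.prog

/-- The running time of this program. -/
def Tr.progTime (n : ℕ) : Tr → ℕ
  | .nil => n + 2
  | .node a b => a.progTime n + b.progTime n + 2 * n + 2 * a.size + b.size + 6

lemma Tr.prog_run (σ : Mach) (t x : Tr) : Halts σ t.prog x t (t.progTime x.size) := by
  induction t with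
  | nil => exact Halts.nil _
  | node a b iha ihb => exact Halts.pair iha ihb

lemma Tr.progTime_pb (t : Tr) : PB (fun x : α => t.progTime (sz x)) := by
  induction t with
  | nil => exact PB.self.add (PB.const 2)
  | node a b iha ihb =>
    exact ((((iha.add ihb).add ((PB.const 2).mul PB.self)).add (PB.const (2 * a.size))).add
      (PB.const b.size)).add (PB.const 6)

@[fun_prop]
lemma PT.const (b : β) : PT S (fun _ : α => b) :=
  ⟨(enc b).prog, fun x => (enc b).progTime (sz x), (enc b).progTime_pb, PB.const _, fun x σ _ =>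
    ⟨_, le_rfl, (enc b).prog_run σ (enc x)⟩⟩

@[fun_prop]
lemma PT.cond {c : α → Bool} {f g : α → β} (hc : PT S c) (hf : PT S f) (hg : PT S g) :
    PT S (fun x => _root_.cond (c x) (f x) (g x)) := by
  obtain ⟨r, V, hV, _, hrr⟩ := hc
  obtain ⟨p, T, hT, hs, hr⟩ := hf
  obtain ⟨q, U, hU, hs', hr'⟩ := hg
  refine ⟨.cond r p q, fun x => V x + (T x + U x) + 2 * sz x + 7,
    ((hV.add (hT.add hU)).add ((PB.const 2).mul PB.self)).add (PB.const 7), ?_,
    fun x σ hσ => ?_⟩
  · refine PB.mono (hs.add hs') (fun x => ?_)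
    show sz (_root_.cond (c x) (f x) (g x)) ≤ sz (f x) + sz (g x)
    cases c x
    · show sz (g x) ≤ sz (f x) + sz (g x)
      omega
    · show sz (f x) ≤ sz (f x) + sz (g x)
      omega
  · obtain ⟨v, hv, h0⟩ := hrr x σ hσ
    rcases hcx : c x with _ | _
    · obtain ⟨u, hu, h2⟩ := hr' x σ hσ
      rw [hcx] at h0
      simp only [hcx, cond_false]
      refine ⟨_, ?_, Halts.cond_false h0 h2⟩
      unfold sz
      omega
    · obtain ⟨t, ht, h1⟩ := hr x σ hσ
      rw [hcx] at h0
      simp only [hcx, cond_true]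
      refine ⟨_, ?_, Halts.cond_true h0 h1⟩
      unfold sz
      simp only [Tr.size]
      omega

@[fun_prop]
lemma PT.succ {f : α → ℕ} (hf : PT S f) : PT S (fun x => f x + 1) := by
  have h : PT S (fun n : ℕ => n + 1) :=
    ⟨.pair .nil .id, fun n => (sz n + 2) + (sz n + 2) + 2 * sz n + 2 * 1 + sz n + 6,
      (((((PB.self.add (PB.const 2)).add (PB.self.add (PB.const 2))).add
        ((PB.const 2).mul PB.self)).add (PB.const (2 * 1))).add PB.self).add (PB.const 6),
      PB.mono (PB.self.add (PB.const 2)) (fun n => by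
        show sz (n + 1) ≤ sz n + 2
        rw [sz_nat, sz_nat]; omega), fun n σ _ => ⟨_, le_rfl, Halts.pair (Halts.nil _)
          (Halts.id _)⟩⟩
  exact h.comp hf

@[fun_prop]
lemma PT.pred {f : α → ℕ} (hf : PT S f) : PT S (fun x => f x - 1) := by
  have h : PT S (fun n : ℕ => n - 1) :=
    ⟨.tl, fun n => sz n + 2, PB.self.add (PB.const 2), PB.mono PB.self (fun n => by
      show sz (n - 1) ≤ sz n
      rw [sz_nat, sz_nat]; omega), fun n σ _ => ⟨_, le_rfl, by
        cases n with
        | zero => exact Halts.tl _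
        | succ n => exact Halts.tl _⟩⟩
  exact h.comp hf

/-- Is the tree a node? -/
def isn : Tr → Bool
  | .nil => false
  | .node _ _ => true

/-- The program which computes `isn`. -/
def isnProg : Prog := .cond .id (.pair .nil .nil) .nil

lemma isnProg_run (σ : Mach) (x : Tr) : ∃ t ≤ 8 * x.size + 20, Halts σ isnProg x (bit (isn x)) t := by
  cases x with
  | nil =>
    refine ⟨_, ?_, Halts.cond_false (Halts.id _) (Halts.nil _)⟩
    simp only [Tr.size]; omega
  | node a b =>
    refine ⟨_, ?_, Halts.cond_true (Halts.id _) (Halts.pair (Halts.nil _) (Halts.nil _))⟩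
    simp only [Tr.size]; omega

lemma PT.ofRun {f : α → β} (p : Prog) (T : α → ℕ) (hT : PB T)
    (h : ∀ x, ∀ σ, ∃ t ≤ T x, Halts σ p (enc x) (enc (f x)) t) : PT S f :=
  ⟨p, T, hT, PB.mono hT (fun x => by
    obtain ⟨t, ht, h1⟩ := h x (.recur .id)
    exact h1.size_le.trans ht), fun x σ _ => h x σ⟩

@[fun_prop]
lemma PT.isn {f : α → Tr} (hf : PT S f) : PT S (fun x => isn (f x)) := by
  have h : PT S (fun x : Tr => Ora.isn x) :=
    PT.ofRun isnProg (fun x => 8 * sz x + 20) (((PB.const 8).mul PB.self).add (PB.const 20))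
      (fun x σ => isnProg_run σ x)
  exact h.comp hf

@[fun_prop]
lemma PT.isPos {f : α → ℕ} (hf : PT S f) : PT S (fun x => decide (0 < f x)) := by
  have h : PT S (fun n : ℕ => decide (0 < n)) := by
    refine PT.ofRun isnProg (fun x => 8 * sz x + 20)
      (((PB.const 8).mul PB.self).add (PB.const 20)) (fun n σ => ?_)
    have := isnProg_run σ (enc n)
    cases n with
    | zero => exact this
    | succ n => exact this
  exact h.comp hf

@[fun_prop]
lemma PT.isEmpty {f : α → List β} (hf : PT S f) : PT S (fun x => (f x).isEmpty) := by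
  have h : PT S (fun l : List β => l.isEmpty) := by
    have h1 : PT S (fun l : List β => !l.isEmpty) := by
      refine PT.ofRun isnProg (fun x => 8 * sz x + 20)
        (((PB.const 8).mul PB.self).add (PB.const 20)) (fun l σ => ?_)
      have := isnProg_run σ (enc l)
      cases l with
      | nil => exact this
      | cons a l => exact this
    have h2 : PT S (fun l : List β => _root_.cond (!l.isEmpty) false true) := by fun_prop
    exact h2.congr (fun l => by cases l.isEmpty <;> rfl)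
  exact h.comp hf

@[fun_prop]
lemma PT.hd {f : α → Tr} (hf : PT S f) : PT S (fun x => (f x).hd) := by
  have h : PT S (fun x : Tr => x.hd) :=
    PT.ofRun .hd (fun x => sz x + 2) (PB.self.add (PB.const 2))
      (fun x σ => ⟨_, le_rfl, Halts.hd _⟩)
  exact h.comp hf

@[fun_prop]
lemma PT.tl {f : α → Tr} (hf : PT S f) : PT S (fun x => (f x).tl) := by
  have h : PT S (fun x : Tr => x.tl) :=
    PT.ofRun .tl (fun x => sz x + 2) (PB.self.add (PB.const 2))
      (fun x σ => ⟨_, le_rfl, Halts.tl _⟩)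
  exact h.comp hf

@[fun_prop]
lemma PT.node {f g : α → Tr} (hf : PT S f) (hg : PT S g) : PT S (fun x => Tr.node (f x) (g x)) := by
  have h : PT S (fun p : Tr × Tr => Tr.node p.1 p.2) :=
    PT.ofRun .id (fun x => sz x + 2) (PB.self.add (PB.const 2))
      (fun x σ => ⟨_, le_rfl, Halts.id _⟩)
  exact h.comp (hf.prodMk hg)

@[fun_prop]
lemma PT.cons {f : α → β} {g : α → List β} (hf : PT S f) (hg : PT S g) :
    PT S (fun x => f x :: g x) := by
  have h : PT S (fun p : β × List β => p.1 :: p.2) :=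
    PT.ofRun .id (fun x => sz x + 2) (PB.self.add (PB.const 2))
      (fun x σ => ⟨_, le_rfl, Halts.id _⟩)
  exact h.comp (hf.prodMk hg)

@[fun_prop]
lemma PT.tail {f : α → List β} (hf : PT S f) : PT S (fun x => (f x).tail) := by
  have h : PT S (fun l : List β => l.tail) :=
    PT.ofRun .tl (fun x => sz x + 2) (PB.self.add (PB.const 2))
      (fun l σ => ⟨_, le_rfl, by cases l <;> exact Halts.tl _⟩)
  exact h.comp hf

@[fun_prop]
lemma PT.headD (d : β) {f : α → List β} (hf : PT S f) : PT S (fun x => (f x).headD d) := by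
  have h : PT S (fun l : List β => l.headD d) := by
    refine PT.ofRun (.cond .id .hd (enc d).prog)
      (fun x => (sz x + 2) + ((sz x + 2) + (enc d).progTime (sz x)) + 3 * sz x + 5)
      ((((PB.self.add (PB.const 2)).add ((PB.self.add (PB.const 2)).add
        (enc d).progTime_pb)).add ((PB.const 3).mul PB.self)).add (PB.const 5)) (fun l σ => ?_)
    cases l with
    | nil =>
      refine ⟨_, ?_, Halts.cond_false (Halts.id _) ((enc d).prog_run σ _)⟩
      simp only [sz, enc_nil', Tr.size]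
      omega
    | cons a l =>
      refine ⟨_, ?_, Halts.cond_true (Halts.id _) (Halts.hd _)⟩
      have e : encList l = enc l := rfl
      simp only [sz, enc_cons, Tr.size, e]
      omega
  exact h.comp hf

example (S : Set Mach) : PT S (fun p : Tr × (List Tr × ℕ) =>
    (cond (isn p.1.hd) (p.2.1.headD .nil) (Tr.node p.1.tl (p.2.1.tail.headD .nil)), p.2.2 + 1)) := by
  fun_prop

end Pool.Agent.H69.Ora
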