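import Mathlib
import Pool.Agent.H69.Ora.PT

/-!
# Oracle computations: loops in polynomial time
-/

namespace Pool.Agent.H69.Ora

variable {α β γ δ : Type} [Enc α] [Enc β] [Enc γ] [Enc δ] {S : Set Mach}

/-- A loop which runs through the trees `f 0, ..., f n`. -/
lemma Halts.loop {σ : Mach} {c p : Prog} {f : ℕ → Tr} {n A B D : ℕ}
    (hc : ∀ i < n, ∃ a b t, t ≤ A ∧ Halts σ c (f i) (.node a b) t)
    (hc' : ∃ t ≤ A, Halts σ c (f n) .nil t)
    (hp : ∀ i < n, ∃ t ≤ B, Halts σ p (f i) (f (i + 1)) t)
    (hD : ∀ i ≤ n, (f i).size ≤ D) :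
    ∃ t ≤ (n + 1) * (2 * A + B + 2 * D + 5), Halts σ (.loop c p) (f 0) (f n) t := by
  have key : ∀ j ≤ n, ∃ t ≤ (j + 1) * (2 * A + B + 2 * D + 5),
      Halts σ (.loop c p) (f (n - j)) (f n) t := by
    intro j
    induction j with
    | zero =>
      intro _
      obtain ⟨t, ht, h1⟩ := hc'
      have h2 := hD n le_rfl
      refine ⟨_, ?_, by simpa using Halts.loop_stop h1⟩
      omega
    | succ j ih =>
      intro hj
      obtain ⟨a, b, s, hs, h1⟩ := hc (n - (j + 1)) (by omega)
      obtain ⟨t, ht, h2⟩ := hp (n - (j + 1)) (by omega)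
      have e : n - (j + 1) + 1 = n - j := by omega
      rw [e] at h2
      obtain ⟨u, hu, h3⟩ := ih (by omega)
      refine ⟨_, ?_, Halts.loop_step h1 h2 h3⟩
      have h4 := h1.size_le
      have h5 := hD (n - (j + 1)) (by omega)
      have h6 : (j + 1 + 1) * (2 * A + B + 2 * D + 5) =
        (j + 1) * (2 * A + B + 2 * D + 5) + (2 * A + B + 2 * D + 5) := by ring
      omega
  simpa using key n le_rfl

lemma PT.while {c : β → Bool} {f : β → β} (hc : PT S c) (hf : PT S f) {s0 : α → β}
    (h0 : PT S s0) {N : α → ℕ} (hN : PB N) {D : α → ℕ} (hD : PB D)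
    (hsz : ∀ x, ∀ i ≤ N x, sz (f^[i] (s0 x)) ≤ D x)
    (h1 : ∀ x, ∀ i < N x, c (f^[i] (s0 x)) = true)
    (h2 : ∀ x, c (f^[N x] (s0 x)) = false) :
    PT S (fun x => f^[N x] (s0 x)) := by
  obtain ⟨pc, Tc, ⟨kc, hkc⟩, -, hrc⟩ := hc
  obtain ⟨pf, Tf, ⟨kf, hkf⟩, -, hrf⟩ := hf
  obtain ⟨p0, T0, hT0, hs0, hr0⟩ := h0
  have hA : PB (fun x => (D x + 2) ^ kc) := (hD.add (PB.const 2)).pow kc
  have hB : PB (fun x => (D x + 2) ^ kf) := (hD.add (PB.const 2)).pow kf
  refine ⟨.seq p0 (.loop pc pf), fun x => T0 x + (N x + 1) * (2 * (D x + 2) ^ kc +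
    (D x + 2) ^ kf + 2 * D x + 5) + sz x + 2,
    ((hT0.add ((hN.add (PB.const 1)).mul (((((PB.const 2).mul hA).add hB).add
      ((PB.const 2).mul hD)).add (PB.const 5)))).add PB.self).add (PB.const 2),
    PB.mono hD (fun x => hsz x _ le_rfl), fun x σ hσ => ?_⟩
  obtain ⟨t0, ht0, g0⟩ := hr0 x σ hσ
  have hc1 : ∀ i < N x, ∃ a b t, t ≤ (D x + 2) ^ kc ∧
      Halts σ pc (enc (f^[i] (s0 x))) (.node a b) t := by
    intro i hi
    obtain ⟨t, ht, g⟩ := hrc (f^[i] (s0 x)) σ hσ
    rw [h1 x i hi] at g
    refine ⟨_, _, t, ht.trans ((hkc _).trans (Nat.pow_le_pow_left ?_ _)), g⟩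
    have := hsz x i hi.le
    omega
  have hc2 : ∃ t ≤ (D x + 2) ^ kc, Halts σ pc (enc (f^[N x] (s0 x))) .nil t := by
    obtain ⟨t, ht, g⟩ := hrc (f^[N x] (s0 x)) σ hσ
    rw [h2 x] at g
    refine ⟨t, ht.trans ((hkc _).trans (Nat.pow_le_pow_left ?_ _)), g⟩
    have := hsz x _ le_rfl
    omega
  have hp1 : ∀ i < N x, ∃ t ≤ (D x + 2) ^ kf,
      Halts σ pf (enc (f^[i] (s0 x))) (enc (f^[i + 1] (s0 x))) t := by
    intro i hi
    obtain ⟨t, ht, g⟩ := hrf (f^[i] (s0 x)) σ hσ
    rw [← Function.iterate_succ_apply' f i (s0 x)] at g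
    refine ⟨t, ht.trans ((hkf _).trans (Nat.pow_le_pow_left ?_ _)), g⟩
    have := hsz x i hi.le
    omega
  obtain ⟨t, ht, g⟩ := Halts.loop (f := fun i => enc (f^[i] (s0 x))) hc1 hc2 hp1
    (fun i hi => hsz x i hi)
  refine ⟨_, ?_, Halts.seq g0 g⟩
  show _ ≤ T0 x + _ + sz x + 2
  have e : sz x = (enc x).size := rfl
  omega

/-- Iteration a given number of times, with an environment. -/
lemma PT.iter {g : γ → β → β} (hg : PT S (fun p : γ × β => g p.1 p.2)) {e : α → γ}
    (he : PT S e) {s0 : α → β} (h0 : PT S s0) {n : α → ℕ} (hn : PT S n) {D : α → ℕ} (hD : PB D)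
    (hsz : ∀ x, ∀ i ≤ n x, sz ((g (e x))^[i] (s0 x)) ≤ D x) :
    PT S (fun x => (g (e x))^[n x] (s0 x)) := by
  let F : ℕ × γ × β → ℕ × γ × β := fun s => (s.1 - 1, s.2.1, g s.2.1 s.2.2)
  have hF : PT S F := by
    have h1 : PT S (fun s : ℕ × γ × β => g s.2.1 s.2.2) :=
      hg.comp (f := fun s : ℕ × γ × β => (s.2.1, s.2.2)) (by fun_prop)
    exact PT.prodMk (by fun_prop) (PT.prodMk (by fun_prop) h1)
  have hF' : ∀ (x : α) (i : ℕ), F^[i] (n x, e x, s0 x) = (n x - i, e x, (g (e x))^[i] (s0 x)) := by
    intro x i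
    induction i with
    | zero => rfl
    | succ i ih =>
      rw [Function.iterate_succ_apply', ih, Function.iterate_succ_apply']
      simp only [F]
      congr 1
  have hnb : PB n := PB.mono hn.size (fun x => by rw [sz_nat]; omega)
  have h1 := PT.while (S := S) (c := fun s : ℕ × γ × β => decide (0 < s.1)) (f := F)
    (by fun_prop) hF (s0 := fun x => (n x, e x, s0 x)) (by fun_prop) (N := n) hnb
    (D := fun x => sz (n x) + (sz (e x) + D x + 1) + 1)
    ((hn.size.add ((he.size.add hD).add (PB.const 1))).add (PB.const 1))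
    (fun x i hi => by
      rw [hF' x i]
      simp only [sz_pair, sz_nat]
      have := hsz x i hi
      omega)
    (fun x i hi => by
      rw [hF' x i]
      simp only [decide_eq_true_eq]
      omega)
    (fun x => by
      rw [hF' x]
      simp)
  have h2 : PT S (fun x => ((F^[n x] (n x, e x, s0 x))).2.2) := by fun_prop
  exact h2.congr (fun x => by rw [hF'])

/-- Folding a list, with an environment. -/
lemma PT.foldl (d : δ) {g : γ → β → δ → β}
    (hg : PT S (fun p : γ × β × δ => g p.1 p.2.1 p.2.2)) {e : α → γ}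
    (he : PT S e) {s0 : α → β} (h0 : PT S s0) {l : α → List δ} (hl : PT S l) {D : α → ℕ}
    (hD : PB D) (hsz : ∀ x, ∀ i, sz (((l x).take i).foldl (g (e x)) (s0 x)) ≤ D x) :
    PT S (fun x => (l x).foldl (g (e x)) (s0 x)) := by
  let F : γ × List δ × β → γ × List δ × β := fun s => (s.1, s.2.1.tail, g s.1 s.2.2 (s.2.1.headD d))
  have hF : PT S F := by
    have h1 : PT S (fun s : γ × List δ × β => g s.1 s.2.2 (s.2.1.headD d)) :=
      hg.comp (f := fun s : γ × List δ × β => (s.1, s.2.2, s.2.1.headD d)) (by fun_prop)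
    exact PT.prodMk (by fun_prop) (PT.prodMk (by fun_prop) h1)
  have hF' : ∀ (x : α) (i : ℕ), i ≤ (l x).length → F^[i] (e x, l x, s0 x) =
      (e x, (l x).drop i, ((l x).take i).foldl (g (e x)) (s0 x)) := by
    intro x i
    induction i with
    | zero => intro _; simp
    | succ i ih =>
      intro hi
      rw [Function.iterate_succ_apply', ih (by omega)]
      simp only [F]
      have e1 : (l x).drop i = (l x)[i] :: (l x).drop (i + 1) := List.drop_eq_getElem_cons (by omega)
      have e2 : (l x).take (i + 1) = (l x).take i ++ [(l x)[i]] :=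
        (List.take_concat_get' (l x) i (by omega)).symm
      rw [e2, List.foldl_append, e1]
      rfl
  have hlen : PB (fun x => (l x).length) := by
    refine PB.mono hl.size (fun x => ?_)
    generalize l x = m
    induction m with
    | nil => simp
    | cons a m ih =>
      rw [sz_cons, List.length_cons]
      omega
  have hdrop : ∀ (m : List δ) (i : ℕ), sz (m.drop i) ≤ sz m := by
    intro m
    induction m with
    | nil => intro i; simp
    | cons a m ih =>
      intro i
      cases i with
      | zero => simp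
      | succ i =>
        rw [List.drop_succ_cons, sz_cons]
        have := ih i
        omega
  have h1 := PT.while (S := S) (c := fun s : γ × List δ × β => _root_.cond s.2.1.isEmpty false true)
    (f := F) (by fun_prop) hF (s0 := fun x => (e x, l x, s0 x)) (by fun_prop)
    (N := fun x => (l x).length) hlen
    (D := fun x => sz (e x) + (sz (l x) + D x + 1) + 1)
    ((he.size.add ((hl.size.add hD).add (PB.const 1))).add (PB.const 1))
    (fun x i hi => by
      rw [hF' x i hi]
      simp only [sz_pair]
      have h3 := hsz x i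
      have h4 := hdrop (l x) i
      omega)
    (fun x i hi => by
      rw [hF' x i hi.le]
      have e1 : (l x).drop i = (l x)[i] :: (l x).drop (i + 1) := List.drop_eq_getElem_cons hi
      simp only [e1]
      rfl)
    (fun x => by
      rw [hF' x _ le_rfl]
      simp)
  have h2 : PT S (fun x => ((F^[(l x).length] (e x, l x, s0 x))).2.2) := by fun_prop
  exact h2.congr (fun x => by rw [hF' x _ le_rfl]; simp)

/-! ### Boolean operations -/

@[fun_prop]
lemma PT.not {f : α → Bool} (hf : PT S f) : PT S (fun x => !(f x)) := by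
  have h : PT S (fun x => _root_.cond (f x) false true) := by fun_prop
  exact h.congr (fun x => by cases f x <;> rfl)

@[fun_prop]
lemma PT.and {f g : α → Bool} (hf : PT S f) (hg : PT S g) : PT S (fun x => f x && g x) := by
  have h : PT S (fun x => _root_.cond (f x) (g x) false) := by fun_prop
  exact h.congr (fun x => by cases f x <;> rfl)

@[fun_prop]
lemma PT.or {f g : α → Bool} (hf : PT S f) (hg : PT S g) : PT S (fun x => f x || g x) := by
  have h : PT S (fun x => _root_.cond (f x) true (g x)) := by fun_prop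
  exact h.congr (fun x => by cases f x <;> rfl)

/-! ### Arithmetic of unary numbers -/

@[fun_prop]
lemma PT.add {f g : α → ℕ} (hf : PT S f) (hg : PT S g) : PT S (fun x => f x + g x) := by
  have hi : ∀ (a i : ℕ), (fun n : ℕ => n + 1)^[i] a = a + i := by
    intro a i
    induction i with
    | zero => rfl
    | succ i ih => rw [Function.iterate_succ_apply', ih]; omega
  have h : PT S (fun x => (fun n : ℕ => n + 1)^[g x] (f x)) :=
    PT.iter (g := fun (_ : Bool) (n : ℕ) => n + 1) (by fun_prop) (e := fun _ => true)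
      (by fun_prop) hf hg
      (D := fun x => sz (f x) + sz (g x)) (hf.size.add hg.size) (fun x i hi' => by
        rw [hi]
        simp only [sz_nat]
        omega)
  exact h.congr (fun x => hi _ _)

@[fun_prop]
lemma PT.sub {f g : α → ℕ} (hf : PT S f) (hg : PT S g) : PT S (fun x => f x - g x) := by
  have hi : ∀ (a i : ℕ), (fun n : ℕ => n - 1)^[i] a = a - i := by
    intro a i
    induction i with
    | zero => rfl
    | succ i ih => rw [Function.iterate_succ_apply', ih]; omega
  have h : PT S (fun x => (fun n : ℕ => n - 1)^[g x] (f x)) :=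
    PT.iter (g := fun (_ : Bool) (n : ℕ) => n - 1) (by fun_prop) (e := fun _ => true)
      (by fun_prop) hf hg
      (D := fun x => sz (f x)) hf.size (fun x i hi' => by
        rw [hi]
        simp only [sz_nat]
        omega)
  exact h.congr (fun x => hi _ _)

@[fun_prop]
lemma PT.mul {f g : α → ℕ} (hf : PT S f) (hg : PT S g) : PT S (fun x => f x * g x) := by
  have hi : ∀ (a i : ℕ), (fun n : ℕ => n + a)^[i] 0 = a * i := by
    intro a i
    induction i with
    | zero => rfl
    | succ i ih => rw [Function.iterate_succ_apply', ih]; ring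
  have h : PT S (fun x => (fun n : ℕ => n + f x)^[g x] 0) :=
    PT.iter (g := fun (a : ℕ) (n : ℕ) => n + a) (by fun_prop) (e := f)
      hf (s0 := fun _ => 0) (by fun_prop) hg
      (D := fun x => 2 * (sz (f x) * sz (g x)) + 1)
      (((PB.const 2).mul (hf.size.mul hg.size)).add (PB.const 1)) (fun x i hi' => by
        rw [hi]
        simp only [sz_nat]
        have : f x * i ≤ f x * g x := Nat.mul_le_mul_left _ hi'
        have h3 : f x * g x ≤ (2 * f x + 1) * (2 * g x + 1) := Nat.mul_le_mul (by omega) (by omega)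
        omega)
  exact h.congr (fun x => hi _ _)

@[fun_prop]
lemma PT.powc {f : α → ℕ} (hf : PT S f) (k : ℕ) : PT S (fun x => f x ^ k) := by
  induction k with
  | zero => exact (PT.const (S := S) (α := α) (1 : ℕ)).congr (fun x => by simp)
  | succ k ih => exact (ih.mul hf).congr (fun x => by rw [pow_succ])

@[fun_prop]
lemma PT.le {f g : α → ℕ} (hf : PT S f) (hg : PT S g) : PT S (fun x => decide (f x ≤ g x)) := by
  have h : PT S (fun x => !(decide (0 < f x - g x))) := by fun_prop
  refine h.congr (fun x => ?_)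
  by_cases hx : f x ≤ g x
  · rw [decide_eq_true hx]
    simp
    omega
  · rw [decide_eq_false hx]
    simp
    omega

/-! ### Lists -/

@[fun_prop]
lemma PT.reverse [Inhabited δ] {l : α → List δ} (hl : PT S l) : PT S (fun x => (l x).reverse) := by
  have key : ∀ (m : List δ) (r : List δ), m.foldl (fun s a => a :: s) r = m.reverse ++ r := by
    intro m
    induction m with
    | nil => intro r; rfl
    | cons a m ih => intro r; rw [List.foldl_cons, ih]; simp
  have szr : ∀ (m r : List δ), sz (m.foldl (fun s a => a :: s) r) + 1 = sz m + sz r := by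
    intro m
    induction m with
    | nil => intro r; rw [List.foldl_nil, sz_nil]; omega
    | cons a m ih => intro r; rw [List.foldl_cons, ih, sz_cons, sz_cons]; omega
  have sztake : ∀ (m : List δ) (i : ℕ), sz (m.take i) ≤ sz m := by
    intro m
    induction m with
    | nil => intro i; simp
    | cons a m ih =>
      intro i
      cases i with
      | zero => rw [List.take_zero, sz_nil]; exact sz_pos _
      | succ i => rw [List.take_succ_cons, sz_cons, sz_cons]; have := ih i; omega
  have h : PT S (fun x => (l x).foldl (fun s a => a :: s) []) :=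
    PT.foldl (default : δ) (g := fun (_ : Bool) (s : List δ) (a : δ) => a :: s) (by fun_prop)
      (e := fun _ => true) (by fun_prop) (s0 := fun _ => []) (by fun_prop) hl
      (D := fun x => sz (l x) + 1) (hl.size.add (PB.const 1)) (fun x i => by
        have h1 := szr ((l x).take i) []
        have h2 := sztake (l x) i
        rw [sz_nil] at h1
        omega)
  exact h.congr (fun x => by rw [key]; simp)

end Pool.Agent.H69.Ora
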