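import Mathlib
import Pool.Agent.H69.Ora.Loop

/-!
# Oracle computations: more functions computable in polynomial time
-/

namespace Pool.Agent.H69.Ora

set_option linter.unusedVariables false
set_option linter.unusedSectionVars false

variable {α β γ δ : Type} [Enc α] [Enc β] [Enc γ] [Enc δ] {S : Set Mach}

@[fun_prop]
lemma PT.enc {f : α → β} (hf : PT S f) : PT S (fun x => Ora.enc (f x)) := by
  obtain ⟨p, T, hT, hs, hr⟩ := hf
  exact ⟨p, T, hT, hs, hr⟩

@[fun_prop]
lemma PT.num {f : α → ℕ} (hf : PT S f) : PT S (fun x => num (f x)) := PT.enc hf

@[fun_prop]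
lemma PT.ofWord {f : α → List Bool} (hf : PT S f) : PT S (fun x => ofWord (f x)) :=
  (PT.enc hf).congr (fun x => enc_word _)

@[fun_prop]
lemma PT.length {f : α → List δ} [Inhabited δ] (hf : PT S f) : PT S (fun x => (f x).length) := by
  have key : ∀ (m : List δ) (n : ℕ), m.foldl (fun s _ => s + 1) n = n + m.length := by
    intro m
    induction m with
    | nil => intro n; rfl
    | cons a m ih => intro n; rw [List.foldl_cons, ih, List.length_cons]; omega
  have hlen : ∀ m : List δ, 2 * m.length + 1 ≤ sz m := by
    intro m
    induction m with
    | nil => exact le_of_eq rfl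
    | cons a m ih =>
      rw [sz_cons, List.length_cons]
      have := sz_pos a
      omega
  have h : PT S (fun x => (f x).foldl (fun s _ => s + 1) 0) :=
    PT.foldl (default : δ) (g := fun (_ : Bool) (s : ℕ) (_ : δ) => s + 1) (by fun_prop)
      (e := fun _ => true) (by fun_prop) (s0 := fun _ => 0) (by fun_prop) hf
      (D := fun x => sz (f x)) hf.size (fun x i => by
        rw [key, sz_nat]
        have h1 := hlen (f x)
        have h2 : ((f x).take i).length ≤ (f x).length := by
          rw [List.length_take]; exact min_le_right _ _
        omega)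
  exact h.congr (fun x => by rw [key]; simp)

lemma iterate_potential {F : β → β} {φ : β → ℕ} (h : ∀ s, φ (F s) ≤ φ s) (i : ℕ) (s : β) :
    φ (F^[i] s) ≤ φ s := by
  induction i with
  | zero => exact le_rfl
  | succ i ih => rw [Function.iterate_succ_apply']; exact (h _).trans ih

/-! ### Words describing trees -/

/-- The preorder description of a tree. -/
def Tr.bits : Tr → List Bool
  | .nil => [false]
  | .node a b => true :: (a.bits ++ b.bits)

lemma Tr.bits_length (x : Tr) : x.bits.length = x.size := by
  induction x with
  | nil => rfl
  | node a b iha ihb => simp only [Tr.bits, List.length_cons, List.length_append, Tr.size]; omega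

lemma foldr_bits (x : Tr) (s : List Tr) : x.bits.foldr push s = x :: s := by
  induction x generalizing s with
  | nil => rfl
  | node a b iha ihb =>
    rw [Tr.bits, List.foldr_cons, List.foldr_append, ihb, iha]
    rfl

@[simp] lemma tree_bits (x : Tr) : tree x.bits = x := by
  unfold tree
  rw [foldr_bits]
  rfl

/-- The total size of the trees of a stack. -/
def msize (l : List Tr) : ℕ := (l.map Tr.size).sum

lemma msize_nil : msize [] = 0 := rfl
lemma msize_cons (x : Tr) (l : List Tr) : msize (x :: l) = x.size + msize l := by
  simp [msize]

lemma length_le_msize (l : List Tr) : l.length ≤ msize l := by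
  induction l with
  | nil => simp
  | cons x l ih =>
    rw [msize_cons, List.length_cons]
    have := x.size_pos
    omega

lemma sz_stack (l : List Tr) : sz l = msize l + l.length + 1 := by
  induction l with
  | nil => rfl
  | cons x l ih =>
    rw [sz_cons, ih, msize_cons, List.length_cons, sz_tr]
    omega

lemma sz_stack_le (l : List Tr) : sz l ≤ 2 * msize l + 1 := by
  have := sz_stack l
  have := length_le_msize l
  omega

/-- One step of the computation of `Tr.bits`. -/
def bitsStep (s : List Tr × List Bool) : List Tr × List Bool :=
  _root_.cond (isn (s.1.headD .nil))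
    ((s.1.headD .nil).hd :: (s.1.headD .nil).tl :: s.1.tail, true :: s.2)
    (s.1.tail, false :: s.2)

lemma bitsStep_PT : PT S bitsStep := by
  unfold bitsStep
  fun_prop

lemma bitsStep_cons (x : Tr) (l : List Tr) (o : List Bool) :
    msize (bitsStep (x :: l, o)).1 + 1 = msize (x :: l) ∧
    (bitsStep (x :: l, o)).2.reverse ++ (bitsStep (x :: l, o)).1.flatMap Tr.bits =
      o.reverse ++ (x :: l).flatMap Tr.bits ∧ (bitsStep (x :: l, o)).2.length = o.length + 1 := by
  cases x with
  | nil =>
    simp [bitsStep, isn, msize_cons, Tr.size, Tr.bits]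
    omega
  | node a b =>
    simp [bitsStep, isn, msize_cons, Tr.size, Tr.bits, Tr.hd, Tr.tl]
    omega

lemma bitsStep_iter (l : List Tr) (o : List Bool) (i : ℕ) (hi : i ≤ msize l) :
    msize (bitsStep^[i] (l, o)).1 + i = msize l ∧
    (bitsStep^[i] (l, o)).2.reverse ++ (bitsStep^[i] (l, o)).1.flatMap Tr.bits =
      o.reverse ++ l.flatMap Tr.bits ∧ (bitsStep^[i] (l, o)).2.length = o.length + i := by
  induction i with
  | zero => simp
  | succ i ih =>
    obtain ⟨h1, h2, h3⟩ := ih (by omega)
    rw [Function.iterate_succ_apply']
    generalize bitsStep^[i] (l, o) = s at h1 h2 h3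
    obtain ⟨l', o'⟩ := s
    cases l' with
    | nil =>
      rw [msize_nil] at h1
      omega
    | cons x l' =>
      obtain ⟨g1, g2, g3⟩ := bitsStep_cons x l' o'
      refine ⟨?_, ?_, ?_⟩
      · simp only at h1; omega
      · rw [g2, h2]
      · rw [g3]; simp only at h3; omega

lemma sz_bools_le (o : List Bool) : sz o ≤ 4 * o.length + 1 := by
  rw [show sz o = (ofWord o).size from congrArg Tr.size (enc_word o)]
  exact ofWord_size_le o

@[fun_prop]
lemma PT.bits {f : α → Tr} (hf : PT S f) : PT S (fun x => (f x).bits) := by
  have h : PT S (fun x : Tr => x.bits) := by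
    have h1 := PT.while (S := S) (c := fun s : List Tr × List Bool => !s.1.isEmpty)
      (f := bitsStep) (by fun_prop) bitsStep_PT (s0 := fun x : Tr => ([x], [])) (by fun_prop)
      (N := fun x => x.size) PB.self
      (D := fun x => (2 * sz x + 1) + (4 * sz x + 1) + 1)
      (((((PB.const 2).mul PB.self).add (PB.const 1)).add
        (((PB.const 4).mul PB.self).add (PB.const 1))).add (PB.const 1))
      (fun x i hi => by
        obtain ⟨g1, -, g3⟩ := bitsStep_iter [x] [] i (by simpa [msize] using hi)
        generalize bitsStep^[i] ([x], []) = s at g1 g3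
        obtain ⟨l', o'⟩ := s
        rw [sz_pair]
        have e1 := sz_stack_le l'
        have e2 := sz_bools_le o'
        simp only [msize_cons, msize_nil, List.length_nil] at g1 g3
        rw [sz_tr]
        omega)
      (fun x i hi => by
        obtain ⟨g1, -, g3⟩ := bitsStep_iter [x] [] i (by
          simp only [msize_cons, msize_nil]; omega)
        generalize bitsStep^[i] ([x], []) = s at g1 g3
        obtain ⟨l', o'⟩ := s
        simp only [msize_cons, msize_nil] at g1
        cases l' with
        | nil => rw [msize_nil] at g1; omega
        | cons y l' => rfl)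
      (fun x => by
        obtain ⟨g1, -, g3⟩ := bitsStep_iter [x] [] x.size (by
          simp only [msize_cons, msize_nil]; omega)
        generalize bitsStep^[x.size] ([x], []) = s at g1 g3
        obtain ⟨l', o'⟩ := s
        simp only [msize_cons, msize_nil] at g1
        cases l' with
        | nil => rfl
        | cons y l' =>
          rw [msize_cons] at g1
          have := y.size_pos
          omega)
    have h2 : PT S (fun x : Tr => (bitsStep^[x.size] ([x], [])).2.reverse) := by
      exact PT.reverse (h1.snd)
    refine h2.congr (fun x => ?_)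
    obtain ⟨g1, g2, g3⟩ := bitsStep_iter [x] [] x.size (by
      simp only [msize_cons, msize_nil]; omega)
    have e1 : (bitsStep^[x.size] ([x], [])).1 = [] := by
      have := length_le_msize (bitsStep^[x.size] ([x], [])).1
      simp only [msize_cons, msize_nil] at g1
      exact List.eq_nil_of_length_eq_zero (by omega)
    rw [e1] at g2
    simpa using g2
  exact h.comp hf

@[fun_prop]
lemma PT.tsize {f : α → Tr} (hf : PT S f) : PT S (fun x => (f x).size) := by
  have h : PT S (fun x => (f x).bits.length) := by fun_prop
  exact h.congr (fun x => Tr.bits_length _)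

/-- One step of the computation of `Tr.word`. -/
def wordStep (s : Tr × List Bool) : Tr × List Bool :=
  _root_.cond (isn s.1) (s.1.tl, isn s.1.hd :: s.2) s

lemma wordStep_PT : PT S wordStep := by
  unfold wordStep
  fun_prop

lemma wordStep_potential (s : Tr × List Bool) :
    4 * (wordStep s).1.size + sz (wordStep s).2 ≤ 4 * s.1.size + sz s.2 := by
  obtain ⟨x, o⟩ := s
  cases x with
  | nil => exact le_rfl
  | node a b =>
    have h1 := sz_bool_le (isn a)
    have h2 := a.size_pos
    have e : wordStep (.node a b, o) = (b, isn a :: o) := rfl
    rw [e]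
    simp only [sz_cons, Tr.size]
    omega

lemma wordStep_iter (x : Tr) (o : List Bool) (n : ℕ) (hn : x.word.length ≤ n) :
    wordStep^[n] (x, o) = (Tr.nil, x.word.reverse ++ o) := by
  induction n generalizing x o with
  | zero =>
    cases x with
    | nil => rfl
    | node a b => cases a <;> simp [Tr.word] at hn
  | succ n ih =>
    rw [Function.iterate_succ_apply]
    cases x with
    | nil => exact ih .nil o (by simp [Tr.word])
    | node a b =>
      have e1 : wordStep (.node a b, o) = (b, isn a :: o) := rfl
      have e2 : (Tr.node a b).word = isn a :: b.word := by cases a <;> rfl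
      rw [e1, ih b _ (by rw [e2, List.length_cons] at hn; omega), e2]
      simp

@[fun_prop]
lemma PT.word {f : α → Tr} (hf : PT S f) : PT S (fun x => (f x).word) := by
  have h : PT S (fun x : Tr => x.word) := by
    have h1 : PT S (fun x : Tr => wordStep^[x.size] (x, [])) :=
      PT.iter (g := fun (_ : Bool) s => wordStep s) (wordStep_PT.comp (PT.snd (by fun_prop)))
        (e := fun _ => true) (by fun_prop) (s0 := fun x : Tr => (x, []))
        (by fun_prop) (n := fun x => x.size) (by fun_prop)
        (D := fun x => 4 * sz x + 2) (((PB.const 4).mul PB.self).add (PB.const 2))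
        (fun x i hi => by
          have h3 := iterate_potential (F := wordStep)
            (φ := fun s => 4 * s.1.size + sz s.2) wordStep_potential i (x, [])
          simp only at h3
          show sz (wordStep^[i] (x, [])) ≤ _
          generalize wordStep^[i] (x, []) = s at h3
          obtain ⟨y, o⟩ := s
          rw [sz_pair, sz_tr]
          simp only [sz_nil] at h3
          rw [sz_tr]
          omega)
    have h2 : PT S (fun x : Tr => (wordStep^[x.size] (x, [])).2.reverse) := PT.reverse h1.snd
    refine h2.congr (fun x => ?_)
    rw [wordStep_iter x [] x.size (by have := word_length_le x; omega)]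
    simp
  exact h.comp hf

lemma push_eq (b : Bool) (s : List Tr) : push b s =
    _root_.cond b (_root_.cond s.tail.isEmpty s
      (Tr.node (s.headD .nil) (s.tail.headD .nil) :: s.tail.tail)) (.nil :: s) := by
  cases b with
  | false => rfl
  | true =>
    match s with
    | [] => rfl
    | [a] => rfl
    | a :: b :: s => rfl

lemma msize_push (b : Bool) (s : List Tr) : msize (push b s) ≤ msize s + 1 := by
  cases b with
  | false => rw [push, msize_cons]; simp only [Tr.size]; omega
  | true =>
    match s with
    | [] => simp [push]
    | [a] => simp [push]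
    | a :: b :: s => simp only [push, msize_cons, Tr.size]; omega

lemma msize_foldr_push (w : List Bool) : msize (w.foldr push []) ≤ w.length := by
  induction w with
  | nil => simp [msize]
  | cons b w ih =>
    rw [List.foldr_cons, List.length_cons]
    have := msize_push b (w.foldr push [])
    omega

lemma tree_size_le (w : List Bool) : (tree w).size ≤ w.length + 1 := by
  have h := msize_foldr_push w
  unfold tree
  cases hs : w.foldr push [] with
  | nil => simp [Tr.size]
  | cons a s =>
    rw [hs, msize_cons] at h
    simp only [List.headD_cons]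
    omega

@[fun_prop]
lemma PT.tree {f : α → List Bool} (hf : PT S f) : PT S (fun x => tree (f x)) := by
  have key : ∀ (m : List Bool) (s : List Tr),
      msize (m.foldl (fun s b => push b s) s) ≤ msize s + m.length := by
    intro m
    induction m with
    | nil => intro s; simp
    | cons a m ih =>
      intro s
      rw [List.foldl_cons, List.length_cons]
      have h1 := ih (push a s)
      have h2 := msize_push a s
      omega
  have hpush : PT S (fun p : Bool × List Tr × Bool => push p.2.2 p.2.1) := by
    simp only [push_eq]
    fun_prop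
  have h : PT S (fun w : List Bool => w.reverse.foldl (fun s b => push b s) []) :=
    PT.foldl false (g := fun (_ : Bool) (s : List Tr) (b : Bool) => push b s) hpush
      (e := fun _ => true) (by fun_prop) (s0 := fun _ => []) (by fun_prop)
      (l := fun w : List Bool => w.reverse) (by fun_prop)
      (D := fun w => 2 * sz w + 1) (((PB.const 2).mul PB.self).add (PB.const 1)) (fun w i => by
        have h1 := key (w.reverse.take i) []
        have h2 : (w.reverse.take i).length ≤ w.length := by
          rw [List.length_take, List.length_reverse]; exact min_le_right _ _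
        have h3 := sz_stack_le ((w.reverse.take i).foldl (fun s b => push b s) [])
        have h4 : 2 * w.length + 1 ≤ sz w := by
          rw [show sz w = (Ora.ofWord w).size from congrArg Tr.size (enc_word w)]
          exact ofWord_size_ge w
        rw [msize_nil] at h1
        omega)
  have h' : PT S (fun w : List Bool => (w.reverse.foldl (fun s b => push b s) []).headD .nil) := by
    fun_prop
  have h'' : PT S (fun w : List Bool => Ora.tree w) := h'.congr (fun w => by
    rw [List.foldl_reverse]
    rfl)
  exact h''.comp hf

/-! ### Roots -/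

/-- One step of the computation of powers with cut-off. -/
lemma powcut_iter (t n c : ℕ) :
    (fun p : ℕ => _root_.cond (decide (p * t ≤ n + 1)) (p * t) (n + 1))^[c] 1 =
      min (t ^ c) (n + 1) := by
  induction c with
  | zero => simp
  | succ c ih =>
    rw [Function.iterate_succ_apply', ih]
    rcases le_total (t ^ c) (n + 1) with h | h
    · rw [min_eq_left h, pow_succ]
      rcases le_total (t ^ c * t) (n + 1) with h' | h'
      · rw [min_eq_left h', decide_eq_true h', cond_true]
      · rcases eq_or_lt_of_le h' with h'' | h''
        · rw [← h'']; simp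
        · rw [decide_eq_false (by omega), cond_false, min_eq_right h']
    · rw [min_eq_right h]
      rcases Nat.eq_zero_or_pos t with rfl | ht
      · rcases Nat.eq_zero_or_pos c with rfl | hc
        · simp at h
          subst h
          simp
        · rw [zero_pow (by omega)] at h
          omega
      · have h1 : n + 1 ≤ t ^ (c + 1) := by
          rw [pow_succ]
          exact h.trans (Nat.le_mul_of_pos_right _ ht)
        rw [min_eq_right h1]
        rcases Nat.lt_or_ge 1 t with h2 | h2
        · have : ¬ ((n + 1) * t ≤ n + 1) := by nlinarith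
          rw [decide_eq_false this, cond_false]
        · have : t = 1 := by omega
          subst this
          simp

@[fun_prop]
lemma PT.powle {f g h : α → ℕ} (hf : PT S f) (hg : PT S g) (hh : PT S h) :
    PT S (fun x => decide ((f x) ^ (g x) ≤ h x)) := by
  have h1 : PT S (fun x => (fun p : ℕ => _root_.cond (decide (p * f x ≤ h x + 1)) (p * f x)
      (h x + 1))^[g x] 1) :=
    PT.iter (g := fun (e : ℕ × ℕ) (p : ℕ) => _root_.cond (decide (p * e.1 ≤ e.2 + 1)) (p * e.1)
        (e.2 + 1)) (by fun_prop)
      (e := fun x => (f x, h x)) (by fun_prop) (s0 := fun _ => 1) (by fun_prop) hg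
      (D := fun x => 2 * (sz (h x) + 1) + 1)
      (((PB.const 2).mul (hh.size.add (PB.const 1))).add (PB.const 1)) (fun x i hi => by
        have h3 := powcut_iter (f x) (h x) i
        simp only at h3 ⊢
        rw [h3, sz_nat, sz_nat]
        have := min_le_right ((f x) ^ i) (h x + 1)
        omega)
  have h2 : PT S (fun x => decide (((fun p : ℕ => _root_.cond (decide (p * f x ≤ h x + 1))
      (p * f x) (h x + 1))^[g x] 1) ≤ h x)) := by fun_prop
  refine h2.congr (fun x => ?_)
  rw [powcut_iter]
  apply decide_eq_decide.2
  constructor
  · intro h4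
    rcases min_le_iff.1 h4 with h5 | h5
    · exact h5
    · omega
  · intro h4
    exact (min_le_left _ _).trans h4

/-- The integral part of the `c`-th root of `n` (for `c ≥ 1`). -/
def rt (c n : ℕ) : ℕ := (fun t : ℕ => _root_.cond (decide ((t + 1) ^ c ≤ n)) (t + 1) t)^[n] 0

lemma rt_aux (c n : ℕ) (hc : 1 ≤ c) (i : ℕ) :
    let r := (fun t : ℕ => _root_.cond (decide ((t + 1) ^ c ≤ n)) (t + 1) t)^[i] 0
    r ≤ i ∧ r ^ c ≤ n ∧ (r = i ∨ n < (r + 1) ^ c) := by
  induction i with
  | zero =>
    refine ⟨le_rfl, ?_, Or.inl rfl⟩
    show 0 ^ c ≤ n
    rw [zero_pow (by omega)]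
    omega
  | succ i ih =>
    simp only at ih ⊢
    rw [Function.iterate_succ_apply']
    generalize (fun t : ℕ => _root_.cond (decide ((t + 1) ^ c ≤ n)) (t + 1) t)^[i] 0 = r at ih
    obtain ⟨h1, h2, h3⟩ := ih
    rcases Nat.lt_or_ge n ((r + 1) ^ c) with h4 | h4
    · rw [decide_eq_false (by omega), cond_false]
      exact ⟨by omega, h2, Or.inr h4⟩
    · rw [decide_eq_true h4, cond_true]
      refine ⟨by omega, h4, Or.inl ?_⟩
      rcases h3 with h3 | h3 <;> omega

lemma le_rt_iff {c n t : ℕ} (hc : 1 ≤ c) : t ≤ rt c n ↔ t ^ c ≤ n := by
  obtain ⟨h1, h2, h3⟩ := rt_aux c n hc n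
  change rt c n ≤ n at h1
  change (rt c n) ^ c ≤ n at h2
  change rt c n = n ∨ n < (rt c n + 1) ^ c at h3
  constructor
  · intro h
    exact (Nat.pow_le_pow_left h c).trans h2
  · intro h
    by_contra h4
    have h5 : (rt c n + 1) ^ c ≤ t ^ c := Nat.pow_le_pow_left (by omega) c
    rcases h3 with h3 | h3
    · have h6 : t ≤ t ^ c := Nat.le_self_pow (by omega) t
      omega
    · omega

@[fun_prop]
lemma PT.rt {f g : α → ℕ} (hf : PT S f) (hg : PT S g) : PT S (fun x => rt (f x) (g x)) := by
  have hb : ∀ (c n i : ℕ),
      (fun t : ℕ => _root_.cond (decide ((t + 1) ^ c ≤ n)) (t + 1) t)^[i] 0 ≤ i := by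
    intro c n i
    induction i with
    | zero => exact le_rfl
    | succ i ih =>
      rw [Function.iterate_succ_apply']
      generalize (fun t : ℕ => _root_.cond (decide ((t + 1) ^ c ≤ n)) (t + 1) t)^[i] 0 = r at ih
      cases decide ((r + 1) ^ c ≤ n) <;> simp only [cond_true, cond_false] <;> omega
  exact PT.iter (g := fun (e : ℕ × ℕ) (t : ℕ) =>
      _root_.cond (decide ((t + 1) ^ e.1 ≤ e.2)) (t + 1) t)
    (by fun_prop) (e := fun x => (f x, g x)) (by fun_prop) (s0 := fun _ => 0) (by fun_prop) hg
    (D := fun x => sz (g x)) hg.size (fun x i hi => by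
      have := hb (f x) (g x) i
      simp only [sz_nat] at this ⊢
      omega)

/-! ### The oracle -/

/-- Membership as a Boolean function. -/
noncomputable def inb (A : Lang) (w : List Bool) : Bool := by
  classical exact decide (w ∈ A)

lemma inb_eq_true {A : Lang} {w : List Bool} : inb A w = true ↔ w ∈ A := by
  simp [inb]

lemma truth_inb (A : Lang) (w : List Bool) : truth (w ∈ A) = bit (inb A w) := by
  rw [← truth_bool]
  exact truth_congr inb_eq_true.symm

lemma PT.oracle (A : Lang) {f : α → List Bool} (hf : PT {Mach.oracle A} f) :
    PT {Mach.oracle A} (fun x => inb A (f x)) := by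
  have h : PT {Mach.oracle A} (fun w : List Bool => inb A w) :=
    ⟨.ask, fun x => sz x + 2, PB.self.add (PB.const 2),
      PB.mono (PB.const 3) (fun x => sz_bool_le _), fun w σ hσ => by
        rw [Set.mem_singleton_iff] at hσ
        subst hσ
        have := Halts.ask_oracle A (Ora.enc w)
        have e : (Ora.enc w).word = w := by rw [enc_word, word_ofWord]
        rw [e, truth_inb] at this
        exact ⟨_, le_rfl, this⟩⟩
  exact h.comp hf

end Pool.Agent.H69.Ora
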