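import Mathlib
import Pool.Agent.H69.Ora.Fun

/-!
# Oracle computations: codes of programs; existence and uniqueness of the self-universal languages
-/

namespace Pool.Agent.H69.Ora

/-- A code of a program. -/
def code : Prog → Tr
  | .id => .nil
  | .nil => .node .nil .nil
  | .hd => .node .nil (.node .nil .nil)
  | .tl => .node .nil (.node .nil (.node .nil .nil))
  | .ask => .node .nil (.node (.node .nil .nil) .nil)
  | .pair p q => .node (.node .nil .nil) (.node (code p) (code q))
  | .seq p q => .node (.node .nil (.node .nil .nil)) (.node (code p) (code q))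
  | .loop c p => .node (.node (.node .nil .nil) .nil) (.node (code c) (code p))
  | .cond c p q =>
    .node (.node (.node .nil .nil) (.node .nil .nil)) (.node (code c) (.node (code p) (code q)))

@[simp] lemma dec_code (p : Prog) : dec (code p) = p := by
  induction p with
  | id => simp [code, dec]
  | nil => simp [code, dec]
  | hd => simp [code, dec]
  | tl => simp [code, dec]
  | ask => simp [code, dec]
  | pair p q ihp ihq => rw [code, dec, Tr.hd, Tr.tl, ihp, ihq]
  | seq p q ihp ihq => rw [code, dec, Tr.hd, Tr.tl, ihp, ihq]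
  | loop p q ihp ihq => rw [code, dec, Tr.hd, Tr.tl, ihp, ihq]
  | cond c p q ihc ihp ihq =>
    rw [code, dec, Tr.hd, Tr.tl, Tr.hd, Tr.tl, ihc, ihp, ihq]

/-- The defining condition of the self-universal languages. -/
def Acc (c : ℕ) (B : Lang) (w : List Bool) : Prop :=
  ∃ (v x r : Tr) (y : List Bool) (t : ℕ),
    tree w = .node (.node v x) r ∧ t ^ c ≤ r.size ∧
      Halts (.oracle B) (dec v) (.node x (ofWord y)) (truth True) t

lemma Acc.congr {c : ℕ} (hc : 1 ≤ c) {B B' : Lang} {w : List Bool} (h : Acc c B w)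
    (hB : ∀ u : List Bool, u.length < w.length → (u ∈ B ↔ u ∈ B')) : Acc c B' w := by
  obtain ⟨v, x, r, y, t, h1, h2, h3⟩ := h
  refine ⟨v, x, r, y, t, h1, h2, h3.congr (fun u hu => hB u ?_)⟩
  have h4 : t ≤ t ^ c := Nat.le_self_pow (by omega) t
  have h5 := tree_size_le w
  rw [h1] at h5
  simp only [Tr.size] at h5
  have := v.size_pos
  have := x.size_pos
  omega

lemma acc_congr {c : ℕ} (hc : 1 ≤ c) {B B' : Lang} {w : List Bool}
    (hB : ∀ u : List Bool, u.length < w.length → (u ∈ B ↔ u ∈ B')) : Acc c B w ↔ Acc c B' w :=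
  ⟨fun h => h.congr hc hB, fun h => h.congr hc (fun u hu => (hB u hu).symm)⟩

/-- The approximations. -/
def lev (c : ℕ) : ℕ → Lang
  | 0 => ∅
  | n + 1 => {w | Acc c (lev c n) w}

lemma lev_agree {c : ℕ} (hc : 1 ≤ c) (n : ℕ) : ∀ (w : List Bool) (m : ℕ), w.length < n →
    n ≤ m → (w ∈ lev c n ↔ w ∈ lev c m) := by
  induction n with
  | zero => intro w m h _; omega
  | succ n ih =>
    intro w m h hm
    obtain ⟨m, rfl⟩ : ∃ k, m = k + 1 := ⟨m - 1, by omega⟩
    exact acc_congr hc (fun u hu => ih u m (by omega) (by omega))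

lemma selfUniversal_exists {c : ℕ} (hc : 1 ≤ c) : ∃ B, SelfUniversal c B := by
  refine ⟨{w | w ∈ lev c (w.length + 1)}, fun w => ?_⟩
  show Acc c (lev c w.length) w ↔ Acc c {w | w ∈ lev c (w.length + 1)} w
  refine acc_congr hc (fun u hu => ?_)
  exact (lev_agree hc (u.length + 1) u w.length (by omega) (by omega)).symm

lemma selfUniversal_unique {c : ℕ} (hc : 1 ≤ c) {B B' : Lang} (hB : SelfUniversal c B)
    (hB' : SelfUniversal c B') : B = B' := by
  have key : ∀ (n : ℕ) (w : List Bool), w.length < n → (w ∈ B ↔ w ∈ B') := by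
    intro n
    induction n with
    | zero => intro w h; omega
    | succ n ih =>
      intro w h
      rw [hB w, hB' w]
      exact acc_congr hc (fun u hu => ih u (by omega))
  ext w
  exact key (w.length + 1) w (by omega)

end Pool.Agent.H69.Ora
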