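import Mathlib
import Pool.Agent.H69.Ora.Fun

/-!
# Oracle computations: an interpreter

The machine with oracle is simulated on codes of configurations (lists of trees and a tree), with a
budget for the time.
-/

namespace Pool.Agent.H69.Ora

set_option linter.unusedVariables false
set_option linter.unusedSectionVars false
set_option linter.unusedSimpArgs false

variable {α β γ δ : Type} [Enc α] [Enc β] [Enc γ] [Enc δ] {S : Set Mach}

/-- The item with the code `i`. -/
def decItem (i : Tr) : Item :=
  _root_.cond (isn i.hd)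
    (_root_.cond (isn i.hd.hd)
      (_root_.cond (isn i.hd.tl) (.loopc (dec i.tl.hd.hd) (dec i.tl.hd.tl) i.tl.tl)
        (.condc (dec i.tl.hd.hd) (dec i.tl.hd.tl) i.tl.tl))
      (_root_.cond (isn i.hd.tl) (.join i.tl) (.pairr (dec i.tl.hd) i.tl.tl)))
    (.run (dec i.tl))

/-- The size of the item with the code `i`. -/
def sizeI (i : Tr) : ℕ :=
  _root_.cond (isn i.hd)
    (_root_.cond (isn i.hd.hd) (i.tl.tl.size + 1)
      (_root_.cond (isn i.hd.tl) (i.tl.size + 1) (i.tl.tl.size + 1)))
    1

/-- A bound for the size of the code in the item with the code `i`. -/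
def codeI (i : Tr) : ℕ :=
  _root_.cond (isn i.hd)
    (_root_.cond (isn i.hd.hd)
      (_root_.cond (isn i.hd.tl) (i.tl.hd.size + 6) i.tl.hd.size)
      (_root_.cond (isn i.hd.tl) 0 i.tl.hd.size))
    i.tl.size

/-- The cost of the next step. -/
def costT (K : List Tr) (x : Tr) : ℕ := sizeI (K.headD .nil) + x.size + 1

/-- One step, on codes; `ans` is the answer of the oracle. -/
def stepT (ans : Bool) (K : List Tr) (x : Tr) : List Tr × Tr :=
  _root_.cond (isn (K.headD .nil).hd)
    (_root_.cond (isn (K.headD .nil).hd.hd)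
      (_root_.cond (isn (K.headD .nil).hd.tl)
        -- loopc
        (_root_.cond (isn x)
          (.node .nil (K.headD .nil).tl.hd.tl ::
            .node .nil (.node (.node (.node .nil .nil) .nil) (K.headD .nil).tl.hd) :: K.tail,
            (K.headD .nil).tl.tl)
          (K.tail, (K.headD .nil).tl.tl))
        -- condc
        (_root_.cond (isn x)
          (.node .nil (K.headD .nil).tl.hd.hd :: K.tail, (K.headD .nil).tl.tl)
          (.node .nil (K.headD .nil).tl.hd.tl :: K.tail, (K.headD .nil).tl.tl)))
      (_root_.cond (isn (K.headD .nil).hd.tl)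
        -- join
        (K.tail, .node (K.headD .nil).tl x)
        -- pairr
        (.node .nil (K.headD .nil).tl.hd :: .node (.node .nil (.node .nil .nil)) x :: K.tail,
          (K.headD .nil).tl.tl)))
    -- run
    (_root_.cond (isn (K.headD .nil).tl)
      (_root_.cond (isn (K.headD .nil).tl.hd)
        (_root_.cond (isn (K.headD .nil).tl.hd.hd)
          (_root_.cond (isn (K.headD .nil).tl.hd.tl)
            -- cond
            (.node .nil (K.headD .nil).tl.tl.hd ::
              .node (.node (.node .nil .nil) .nil) (.node (K.headD .nil).tl.tl.tl x) :: K.tail, x)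
            -- loop
            (.node .nil (K.headD .nil).tl.tl.hd ::
              .node (.node (.node .nil .nil) (.node .nil .nil)) (.node (K.headD .nil).tl.tl x) ::
              K.tail, x))
          (_root_.cond (isn (K.headD .nil).tl.hd.tl)
            -- seq
            (.node .nil (K.headD .nil).tl.tl.hd :: .node .nil (K.headD .nil).tl.tl.tl :: K.tail, x)
            -- pair
            (.node .nil (K.headD .nil).tl.tl.hd ::
              .node (.node .nil .nil) (.node (K.headD .nil).tl.tl.tl x) :: K.tail, x)))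
        (_root_.cond (isn (K.headD .nil).tl.tl)
          (_root_.cond (isn (K.headD .nil).tl.tl.hd)
            -- ask
            (K.tail, bit ans)
            (_root_.cond (isn (K.headD .nil).tl.tl.tl)
              -- tl
              (K.tail, x.tl)
              -- hd
              (K.tail, x.hd)))
          -- nil
          (K.tail, .nil)))
      -- id
      (K.tail, x))

lemma sizeI_eq (i : Tr) : sizeI i = (decItem i).size := by
  unfold sizeI decItem
  cases isn i.hd <;> cases isn i.hd.hd <;> cases isn i.hd.tl <;> rfl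

lemma cost_eq (i : Tr) (K : List Tr) (x : Tr) :
    cost ((i :: K).map decItem, x) = costT (i :: K) x := by
  show (decItem i).size + x.size + 1 = sizeI i + x.size + 1
  rw [sizeI_eq]

lemma isn_nil : isn .nil = false := rfl
lemma isn_node (a b : Tr) : isn (.node a b) = true := rfl
lemma hd_nil : Tr.nil.hd = .nil := rfl
lemma hd_node (a b : Tr) : (Tr.node a b).hd = a := rfl
lemma tl_nil : Tr.nil.tl = .nil := rfl
lemma tl_node (a b : Tr) : (Tr.node a b).tl = b := rfl

lemma stepT_next (A : Lang) (i : Tr) (K : List Tr) (x : Tr) :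
    ((stepT (inb A x.word) (i :: K) x).1.map decItem, (stepT (inb A x.word) (i :: K) x).2) =
      next (.oracle A) ((i :: K).map decItem, x) := by
  rcases i with _ | ⟨_ | ⟨_ | ⟨t1, t2⟩, _ | ⟨t3, t4⟩⟩, y⟩
  · simp [stepT, decItem, isn, Tr.hd, Tr.tl, next, dec]
  · -- run
    rcases y with _ | ⟨_ | ⟨_ | ⟨s1, s2⟩, _ | ⟨s3, s4⟩⟩, a⟩
    · simp [stepT, decItem, isn, Tr.hd, Tr.tl, next, dec]
    · rcases a with _ | ⟨_ | ⟨u1, u2⟩, _ | ⟨u3, u4⟩⟩
      · simp [stepT, decItem, isn, Tr.hd, Tr.tl, next, dec]
      · simp [stepT, decItem, isn, Tr.hd, Tr.tl, next, dec]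
      · simp [stepT, decItem, isn, Tr.hd, Tr.tl, next, dec]
      · simp [stepT, decItem, isn, Tr.hd, Tr.tl, next, dec, Mach.ask, truth_inb]
      · simp [stepT, decItem, isn, Tr.hd, Tr.tl, next, dec, Mach.ask, truth_inb]
    · simp [stepT, decItem, isn, hd_node, tl_node, hd_nil, tl_nil, next, dec]
    · simp [stepT, decItem, isn, hd_node, tl_node, hd_nil, tl_nil, next, dec]
    · simp [stepT, decItem, isn, hd_node, tl_node, hd_nil, tl_nil, next, dec]
    · simp [stepT, decItem, isn, hd_node, tl_node, hd_nil, tl_nil, next, dec]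
  · simp [stepT, decItem, isn, hd_node, tl_node, hd_nil, tl_nil, next]
  · simp [stepT, decItem, isn, hd_node, tl_node, hd_nil, tl_nil, next]
  · rcases x with _ | ⟨x1, x2⟩ <;>
      simp [stepT, decItem, isn, hd_node, tl_node, hd_nil, tl_nil, next]
  · rcases x with _ | ⟨x1, x2⟩ <;>
      simp [stepT, decItem, isn, hd_node, tl_node, hd_nil, tl_nil, next, dec]

/-- Steps do not increase the potential. -/
lemma stepT_potential (V : ℕ) (ans : Bool) (i : Tr) (K : List Tr) (x : Tr)
    (h : ∀ j ∈ i :: K, codeI j ≤ V) :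
    (∀ j ∈ (stepT ans (i :: K) x).1, codeI j ≤ V) ∧
    msize (stepT ans (i :: K) x).1 + (stepT ans (i :: K) x).2.size ≤
      msize (i :: K) + x.size + (2 * V + 20) * costT (i :: K) x := by
  have hi := h i (by simp)
  have hK : ∀ j ∈ K, codeI j ≤ V := fun j hj => h j (by simp [hj])
  have hx := x.size_pos
  have hx1 := x.size_hd_le
  have hx2 := x.size_tl_le
  have hb := bit_size_le ans
  have hc : (2 * V + 20) * costT (i :: K) x ≥ 2 * V + 20 + 20 * x.size + 20 * sizeI i := by
    show (2 * V + 20) * (sizeI i + x.size + 1) ≥ _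
    nlinarith [Nat.zero_le (V * sizeI i), Nat.zero_le (V * x.size)]
  generalize (2 * V + 20) * costT (i :: K) x = C at hc
  rcases i with _ | ⟨_ | ⟨_ | ⟨t1, t2⟩, _ | ⟨t3, t4⟩⟩, y⟩
  · simp only [stepT, isn, hd_nil, tl_nil, cond_false, cond_true, List.headD_cons, List.tail_cons,
      msize_cons, Tr.size]
    exact ⟨hK, by omega⟩
  · -- run
    rcases y with _ | ⟨_ | ⟨_ | ⟨s1, s2⟩, _ | ⟨s3, s4⟩⟩, a⟩
    · simp only [stepT, isn, hd_nil, tl_nil, hd_node, tl_node, cond_false, cond_true,
        List.headD_cons, List.tail_cons, msize_cons, Tr.size]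
      exact ⟨hK, by omega⟩
    · rcases a with _ | ⟨_ | ⟨u1, u2⟩, _ | ⟨u3, u4⟩⟩ <;>
      · simp only [stepT, isn, hd_nil, tl_nil, hd_node, tl_node, cond_false, cond_true,
          List.headD_cons, List.tail_cons, msize_cons, Tr.size]
        exact ⟨hK, by omega⟩
    all_goals
      have ha := a.size_pos
      have ha1 := a.size_hd_le
      have ha2 := a.size_tl_le
      try have hs1 := s1.size_pos
      try have hs2 := s2.size_pos
      simp only [codeI, isn, hd_nil, tl_nil, hd_node, tl_node, cond_false, cond_true, Tr.size] at hi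
      simp only [stepT, isn, hd_nil, tl_nil, hd_node, tl_node, cond_false, cond_true,
        List.headD_cons, List.tail_cons, msize_cons, Tr.size, List.mem_cons, forall_eq_or_imp,
        codeI]
      simp only [sizeI, isn, hd_nil, tl_nil, hd_node, tl_node, cond_false, cond_true] at hc
      refine ⟨⟨by omega, by omega, hK⟩, by omega⟩
  · -- pairr
    have hy1 := y.size_hd_le
    have hy2 := y.size_tl_le
    simp only [codeI, isn, hd_nil, tl_nil, hd_node, tl_node, cond_false, cond_true, Tr.size] at hi
    simp only [stepT, isn, hd_nil, tl_nil, hd_node, tl_node, cond_false, cond_true,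
      List.headD_cons, List.tail_cons, msize_cons, Tr.size, List.mem_cons, forall_eq_or_imp,
      codeI]
    simp only [sizeI, isn, hd_nil, tl_nil, hd_node, tl_node, cond_false, cond_true] at hc
    refine ⟨⟨by omega, by omega, hK⟩, by omega⟩
  · -- join
    simp only [stepT, isn, hd_nil, tl_nil, hd_node, tl_node, cond_false, cond_true,
      List.headD_cons, List.tail_cons, msize_cons, Tr.size, List.mem_cons, forall_eq_or_imp,
      codeI]
    simp only [sizeI, isn, hd_nil, tl_nil, hd_node, tl_node, cond_false, cond_true] at hc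
    refine ⟨hK, by omega⟩
  · -- condc
    have hy1 := y.size_hd_le
    have hy2 := y.size_tl_le
    have hy3 := y.hd.size_hd_le
    have hy4 := y.hd.size_tl_le
    simp only [codeI, isn, hd_nil, tl_nil, hd_node, tl_node, cond_false, cond_true, Tr.size] at hi
    rcases x with _ | ⟨x1, x2⟩ <;>
    · simp only [stepT, isn, hd_nil, tl_nil, hd_node, tl_node, cond_false, cond_true,
        List.headD_cons, List.tail_cons, msize_cons, Tr.size, List.mem_cons, forall_eq_or_imp,
        codeI] at hx hx1 hx2 hc ⊢
      simp only [sizeI, isn, hd_nil, tl_nil, hd_node, tl_node, cond_false, cond_true] at hc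
      refine ⟨⟨by omega, hK⟩, by omega⟩
  · -- loopc
    have hy1 := y.size_hd_le
    have hy2 := y.size_tl_le
    have hy3 := y.hd.size_hd_le
    have hy4 := y.hd.size_tl_le
    simp only [codeI, isn, hd_nil, tl_nil, hd_node, tl_node, cond_false, cond_true, Tr.size] at hi
    rcases x with _ | ⟨x1, x2⟩
    · simp only [stepT, isn, hd_nil, tl_nil, hd_node, tl_node, cond_false, cond_true,
        List.headD_cons, List.tail_cons, msize_cons, Tr.size, List.mem_cons, forall_eq_or_imp,
        codeI] at hx hx1 hx2 hc ⊢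
      simp only [sizeI, isn, hd_nil, tl_nil, hd_node, tl_node, cond_false, cond_true] at hc
      refine ⟨hK, by omega⟩
    · simp only [stepT, isn, hd_nil, tl_nil, hd_node, tl_node, cond_false, cond_true,
        List.headD_cons, List.tail_cons, msize_cons, Tr.size, List.mem_cons, forall_eq_or_imp,
        codeI] at hx hx1 hx2 hc ⊢
      simp only [sizeI, isn, hd_nil, tl_nil, hd_node, tl_node, cond_false, cond_true] at hc
      refine ⟨⟨by omega, by omega, hK⟩, by omega⟩

/-- The state of the interpreter: the stack, the current tree and the remaining time. -/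
abbrev St := List Tr × Tr × ℕ

/-- One step of the interpreter; the answer of the oracle is given. -/
def stepG (ans : Bool) (s : St) : St :=
  _root_.cond s.1.isEmpty s
    (_root_.cond (decide (costT s.1 s.2.1 ≤ s.2.2))
      ((stepT ans s.1 s.2.1).1, (stepT ans s.1 s.2.1).2, s.2.2 - costT s.1 s.2.1)
      ([], .nil, 0))

@[fun_prop]
lemma PT.sizeI {f : α → Tr} (hf : PT S f) : PT S (fun x => sizeI (f x)) := by
  have h : PT S (fun i : Tr => Ora.sizeI i) := by
    unfold Ora.sizeI
    fun_prop
  exact h.comp hf

@[fun_prop]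
lemma PT.costT {f : α → List Tr} {g : α → Tr} (hf : PT S f) (hg : PT S g) :
    PT S (fun x => costT (f x) (g x)) := by
  unfold Ora.costT
  fun_prop

@[fun_prop]
lemma PT.bit {f : α → Bool} (hf : PT S f) : PT S (fun x => bit (f x)) := PT.enc hf

lemma stepT_PT : PT S (fun p : Bool × List Tr × Tr => stepT p.1 p.2.1 p.2.2) := by
  unfold stepT
  fun_prop

@[fun_prop]
lemma PT.stepT {a : α → Bool} {f : α → List Tr} {g : α → Tr} (ha : PT S a) (hf : PT S f)
    (hg : PT S g) : PT S (fun x => stepT (a x) (f x) (g x)) :=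
  stepT_PT.comp (f := fun x => (a x, f x, g x)) (by fun_prop)

@[fun_prop]
lemma PT.stepG {a : α → Bool} {f : α → St} (ha : PT S a) (hf : PT S f) :
    PT S (fun x => stepG (a x) (f x)) := by
  have h : PT S (fun p : Bool × St => Ora.stepG p.1 p.2) := by
    unfold Ora.stepG
    fun_prop
  exact h.comp (f := fun x => (a x, f x)) (by fun_prop)

/-- One step of the interpreter, the answers of the oracle being computed by `h`. -/
def stepH (h : γ × List Bool → Bool) (w : γ) (s : St) : St := stepG (h (w, s.2.1.word)) s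

lemma stepH_nil (h : γ × List Bool → Bool) (w : γ) (x : Tr) (b : ℕ) :
    stepH h w ([], x, b) = ([], x, b) := rfl

lemma stepH_iter_nil (h : γ × List Bool → Bool) (w : γ) (x : Tr) (b n : ℕ) :
    (stepH h w)^[n] ([], x, b) = ([], x, b) := by
  induction n with
  | zero => rfl
  | succ n ih => rw [Function.iterate_succ_apply, stepH_nil, ih]

/-- The oracle computed by `h` with the environment `w`. -/
def orc (h : γ × List Bool → Bool) (w : γ) : Lang := {u | h (w, u) = true}

lemma inb_orc (h : γ × List Bool → Bool) (w : γ) (u : List Bool) : inb (orc h w) u = h (w, u) := by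
  by_cases h1 : h (w, u) = true
  · rw [h1, inb_eq_true]
    exact h1
  · rw [Bool.not_eq_true] at h1
    rw [h1, ← Bool.not_eq_true, inb_eq_true]
    show ¬ (h (w, u) = true)
    simp [h1]

lemma cost_pos (i : Item) (K : List Item) (x : Tr) : 1 ≤ cost (i :: K, x) := by
  simp only [cost]; omega

lemma stepH_cons (h : γ × List Bool → Bool) (w : γ) (i : Tr) (K : List Tr) (x : Tr) (b : ℕ) :
    stepH h w (i :: K, x, b) = _root_.cond (decide (costT (i :: K) x ≤ b))
      ((stepT (inb (orc h w) x.word) (i :: K) x).1, (stepT (inb (orc h w) x.word) (i :: K) x).2,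
        b - costT (i :: K) x) ([], .nil, 0) := by
  rw [inb_orc]
  rfl

lemma stepH_of_reach (h : γ × List Bool → Bool) (w : γ) {c : Cfg} {y : Tr} {t : ℕ}
    (hr : Reach (.oracle (orc h w)) c ([], y) t) :
    ∀ (K : List Tr) (x : Tr) (b n : ℕ), c = (K.map decItem, x) → t ≤ b → t ≤ n →
      (stepH h w)^[n] (K, x, b) = ([], y, b - t) := by
  generalize hd : (([], y) : Cfg) = d at hr
  induction hr with
  | refl c =>
    intro K x b n hc hb hn
    subst hd
    rw [Prod.mk.injEq] at hc
    obtain ⟨h1, rfl⟩ := hc
    cases K with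
    | nil => rw [stepH_iter_nil, Nat.sub_zero]
    | cons i K => simp at h1
  | @step i K' x' c' t h' ih =>
    intro K x b n hc hb hn
    rw [Prod.mk.injEq] at hc
    obtain ⟨h1, rfl⟩ := hc
    cases K with
    | nil => simp at h1
    | cons j K =>
      rw [List.map_cons, List.cons.injEq] at h1
      obtain ⟨rfl, rfl⟩ := h1
      have hc := cost_eq j K x'
      rw [List.map_cons] at hc
      have hp := cost_pos (decItem j) (K.map decItem) x'
      obtain ⟨n, rfl⟩ : ∃ m, n = m + 1 := ⟨n - 1, by omega⟩
      rw [Function.iterate_succ_apply, stepH_cons, decide_eq_true (by omega), cond_true,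
        ih hd _ _ (b - costT (j :: K) x') n (stepT_next (orc h w) j K x').symm (by omega)
          (by omega)]
      congr 2
      omega

lemma reach_of_stepH (h : γ × List Bool → Bool) (w : γ) {y : Tr} (hy : y ≠ .nil) (n : ℕ) :
    ∀ (K : List Tr) (x : Tr) (b b' : ℕ), (stepH h w)^[n] (K, x, b) = ([], y, b') →
      ∃ t ≤ b, Reach (.oracle (orc h w)) (K.map decItem, x) ([], y) t := by
  induction n with
  | zero =>
    intro K x b b' h1
    rw [Function.iterate_zero, id_eq, Prod.mk.injEq, Prod.mk.injEq] at h1
    obtain ⟨rfl, rfl, -⟩ := h1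
    exact ⟨0, Nat.zero_le _, Reach.refl _⟩
  | succ n ih =>
    intro K x b b' h1
    cases K with
    | nil =>
      rw [stepH_iter_nil, Prod.mk.injEq, Prod.mk.injEq] at h1
      obtain ⟨-, rfl, -⟩ := h1
      exact ⟨0, Nat.zero_le _, Reach.refl _⟩
    | cons i K =>
      rw [Function.iterate_succ_apply, stepH_cons] at h1
      rcases Nat.lt_or_ge b (costT (i :: K) x) with h2 | h2
      · rw [decide_eq_false (by omega), cond_false, stepH_iter_nil, Prod.mk.injEq,
          Prod.mk.injEq] at h1
        exact absurd h1.2.1.symm hy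
      · rw [decide_eq_true (by omega), cond_true] at h1
        obtain ⟨t, ht, h3⟩ := ih _ _ _ _ h1
        rw [stepT_next (orc h w) i K x] at h3
        refine ⟨cost ((i :: K).map decItem, x) + t, ?_, Reach.step h3⟩
        rw [cost_eq]
        omega

/-- The interpreter has halted with the result `truth True`. -/
def acc (s : St) : Bool := s.1.isEmpty && (isn s.2.1 && (!isn s.2.1.hd && !isn s.2.1.tl))

lemma acc_iff (s : St) : acc s = true ↔ s.1 = [] ∧ s.2.1 = truth True := by
  rw [truth_true' trivial]
  obtain ⟨K, x, b⟩ := s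
  rcases x with _ | ⟨_ | ⟨a, b⟩, _ | ⟨c, d⟩⟩ <;>
    simp [acc, isn, Tr.hd, Tr.tl, List.isEmpty_iff]

/-- Simulation of the program with code `v` on `x` for the time `T`, with an oracle computed by
`h`. -/
def runs (h : γ × List Bool → Bool) (w : γ) (v x : Tr) (T : ℕ) : Bool :=
  acc ((stepH h w)^[T] ([.node .nil v], x, T))

lemma runs_iff (h : γ × List Bool → Bool) (w : γ) (v x : Tr) (T : ℕ) :
    runs h w v x T = true ↔ ∃ t ≤ T, Halts (.oracle (orc h w)) (dec v) x (truth True) t := by
  unfold runs
  rw [acc_iff]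
  have e : ([Item.run (dec v)], x) = (([Tr.node .nil v].map decItem, x) : Cfg) := rfl
  constructor
  · rintro ⟨h1, h2⟩
    have h3 : (stepH h w)^[T] ([.node .nil v], x, T) =
        ([], truth True, ((stepH h w)^[T] ([.node .nil v], x, T)).2.2) :=
      Prod.ext h1 (Prod.ext h2 rfl)
    obtain ⟨t, ht, h4⟩ := reach_of_stepH h w (by rw [truth_true' trivial]; simp) T _ _ _ _ h3
    exact ⟨t, ht, h4⟩
  · rintro ⟨t, ht, h1⟩
    rw [stepH_of_reach h w h1 [.node .nil v] x T T e ht ht]
    exact ⟨rfl, rfl⟩

/-- The potential. -/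
lemma stepH_inv (h : γ × List Bool → Bool) (w : γ) (V : ℕ) (s : St) (hV : ∀ j ∈ s.1, codeI j ≤ V)
    (n : ℕ) :
    (∀ j ∈ ((stepH h w)^[n] s).1, codeI j ≤ V) ∧
    msize ((stepH h w)^[n] s).1 + ((stepH h w)^[n] s).2.1.size +
      (2 * V + 20) * ((stepH h w)^[n] s).2.2 ≤ msize s.1 + s.2.1.size + (2 * V + 20) * s.2.2 := by
  induction n with
  | zero => exact ⟨hV, le_rfl⟩
  | succ n ih =>
    rw [Function.iterate_succ_apply']
    obtain ⟨ih1, ih2⟩ := ih
    generalize (stepH h w)^[n] s = s' at ih1 ih2
    obtain ⟨K, x, b⟩ := s'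
    cases K with
    | nil => exact ⟨ih1, ih2⟩
    | cons i K =>
      rw [stepH_cons]
      rcases Nat.lt_or_ge b (costT (i :: K) x) with h2 | h2
      · rw [decide_eq_false (by omega), cond_false]
        refine ⟨by simp, ?_⟩
        have := x.size_pos
        simp only [msize_nil, Tr.size]
        simp only at ih2
        omega
      · rw [decide_eq_true (by omega), cond_true]
        obtain ⟨g1, g2⟩ := stepT_potential V (inb (orc h w) x.word) i K x ih1
        refine ⟨g1, ?_⟩
        simp only at ih2 ⊢
        have e : (2 * V + 20) * b = (2 * V + 20) * (b - costT (i :: K) x) +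
            (2 * V + 20) * costT (i :: K) x := by
          rw [← Nat.mul_add]
          congr 1
          omega
        omega

lemma stepH_size (h : γ × List Bool → Bool) (w : γ) (v x : Tr) (T n : ℕ) :
    sz ((stepH h w)^[n] ([.node .nil v], x, T)) ≤
      2 * (v.size + 2 + x.size + (2 * v.size + 20) * T) + 6 := by
  obtain ⟨-, h2⟩ := stepH_inv h w v.size ([.node .nil v], x, T) (by
    intro j hj
    simp only [List.mem_singleton] at hj
    subst hj
    simp [codeI, isn, Tr.hd, Tr.tl]) n
  generalize (stepH h w)^[n] ([.node .nil v], x, T) = s' at h2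
  obtain ⟨K, y, b⟩ := s'
  rw [sz_pair, sz_pair, sz_nat, sz_tr]
  have h3 := sz_stack_le K
  have h4 : 20 * b ≤ (2 * v.size + 20) * b := Nat.mul_le_mul_right _ (by omega)
  simp only [msize_cons, msize_nil, Tr.size] at h2
  omega

lemma PT.stepH {h : γ × List Bool → Bool} (hh : PT S h) :
    PT S (fun p : γ × St => stepH h p.1 p.2) := by
  have h1 : PT S (fun p : γ × St => h (p.1, p.2.2.1.word)) :=
    hh.comp (f := fun p : γ × St => (p.1, p.2.2.1.word)) (by fun_prop)
  exact PT.stepG h1 (by fun_prop)

@[fun_prop]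
lemma PT.acc {f : α → St} (hf : PT S f) : PT S (fun x => acc (f x)) := by
  have h : PT S (fun s : St => Ora.acc s) := by
    unfold Ora.acc
    fun_prop
  exact h.comp hf

/-- Simulations take polynomial time. -/
lemma PT.runs {h : γ × List Bool → Bool} (hh : PT S h) {w : α → γ} (hw : PT S w)
    {v x : α → Tr} (hv : PT S v) (hx : PT S x) {T : α → ℕ} (hT : PT S T) :
    PT S (fun a => runs h (w a) (v a) (x a) (T a)) := by
  have hT' : PB T := PB.mono hT.size (fun x => by rw [sz_nat]; omega)
  have h1 : PT S (fun a => (Ora.stepH h (w a))^[T a] ([.node .nil (v a)], x a, T a)) :=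
    PT.iter (g := Ora.stepH h) (PT.stepH hh) hw
      (s0 := fun a => ([.node .nil (v a)], x a, T a)) (by fun_prop) hT
      (D := fun a => 2 * (sz (v a) + 2 + sz (x a) + (2 * sz (v a) + 20) * T a) + 6)
      (((PB.const 2).mul (((hv.size.add (PB.const 2)).add hx.size).add
        ((((PB.const 2).mul hv.size).add (PB.const 20)).mul hT'))).add (PB.const 6))
      (fun a i _ => stepH_size h (w a) (v a) (x a) (T a) i)
  exact PT.acc h1

end Pool.Agent.H69.Ora
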