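import Mathlib
import Pool.Agent.H69.Ora.Interp
import Pool.Agent.H69.Ora.Exist

/-!
# Oracle computations: the classes `P A` and `NP A`
-/

namespace Pool.Agent.H69.Ora

set_option linter.unusedVariables false
set_option linter.unusedSectionVars false

variable {α β γ δ : Type} [Enc α] [Enc β] [Enc γ] [Enc δ] {S : Set Mach}

instance : Inhabited Tr := ⟨.nil⟩

lemma sz_word_le (w : List Bool) : sz w ≤ 4 * w.length + 1 := sz_bools_le w

lemma sz_word_ge (w : List Bool) : 2 * w.length + 1 ≤ sz w := by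
  rw [show sz w = (ofWord w).size from congrArg Tr.size (enc_word w)]
  exact ofWord_size_ge w

lemma PB.wlen {f : α → List Bool} (hf : PB (fun x => sz (f x))) : PB (fun x => (f x).length) :=
  PB.mono hf (fun x => by have := sz_word_ge (f x); omega)

lemma cube_ge (n : ℕ) : 4 * n + 5 ≤ (n + 2) ^ 3 := by
  nlinarith [Nat.zero_le n, Nat.zero_le (n ^ 2), Nat.zero_le (n ^ 3)]

lemma mem_P_iff {A L : Lang} : L ∈ P A ↔ PT {Mach.oracle A} (fun w : List Bool => inb L w) := by
  constructor
  · rintro ⟨p, k, h⟩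
    refine ⟨p, fun w => (w.length + 2) ^ k, ((PB.wlen PB.self).add (PB.const 2)).pow k,
      PB.mono (PB.const 3) (fun x => sz_bool_le _), fun w σ hσ => ?_⟩
    rw [Set.mem_singleton_iff] at hσ
    subst hσ
    obtain ⟨t, ht, h1⟩ := h w
    rw [truth_inb] at h1
    refine ⟨t, ht, ?_⟩
    rw [enc_word]
    exact h1
  · rintro ⟨p, T, ⟨c, hc⟩, -, h⟩
    refine ⟨p, 3 * c, fun w => ?_⟩
    obtain ⟨t, ht, h1⟩ := h w _ rfl
    rw [enc_word] at h1
    rw [truth_inb]
    refine ⟨t, ?_, h1⟩
    calc t ≤ (sz w + 2) ^ c := ht.trans (hc w)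
      _ ≤ ((w.length + 2) ^ 3) ^ c := Nat.pow_le_pow_left (by
          have := sz_word_le w
          have := cube_ge w.length
          omega) c
      _ = _ := by rw [← pow_mul]

lemma mem_NP_iff {A L : Lang} : L ∈ NP A ↔ ∃ (R : List Bool × List Bool → Bool) (k : ℕ),
    PT {Mach.oracle A} R ∧ ∀ w, w ∈ L ↔ ∃ y : List Bool, y.length ≤ (w.length + 2) ^ k ∧
      R (w, y) = true := by
  classical
  constructor
  · rintro ⟨R, p, k, h, h'⟩
    refine ⟨fun z => decide (R z.1 z.2), k, ⟨p, fun z => (z.1.length + z.2.length + 2) ^ k,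
      (((PB.wlen PB.fst).add (PB.wlen PB.snd)).add (PB.const 2)).pow k,
      PB.mono (PB.const 3) (fun x => sz_bool_le _), fun z σ hσ => ?_⟩, fun w => ?_⟩
    · rw [Set.mem_singleton_iff] at hσ
      subst hσ
      obtain ⟨w, y⟩ := z
      obtain ⟨t, ht, h1⟩ := h w y
      refine ⟨t, ht, ?_⟩
      rw [enc_pair, enc_word, enc_word, enc_bool, ← truth_bool]
      rw [truth_congr (show decide (R w y) = true ↔ R w y by simp)]
      exact h1
    · rw [h' w]
      simp
  · rintro ⟨R, k, hR, h⟩
    have hR' : PT {Mach.oracle A} (fun z : List Bool × List Bool =>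
        R z && decide (z.2.length ≤ (z.1.length + 2) ^ k)) := by
      have h1 : PT {Mach.oracle A} (fun z : List Bool × List Bool =>
        decide (z.2.length ≤ (z.1.length + 2) ^ k)) := by fun_prop
      exact PT.and hR h1
    obtain ⟨p, T, ⟨c, hc⟩, -, hp⟩ := hR'
    refine ⟨fun w y => R (w, y) = true ∧ y.length ≤ (w.length + 2) ^ k, p, max (3 * c) k,
      fun w y => ?_, fun w => ?_⟩
    · obtain ⟨t, ht, h1⟩ := hp (w, y) _ rfl
      rw [enc_pair, enc_word, enc_word] at h1
      refine ⟨t, ?_, ?_⟩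
      · calc t ≤ (sz (w, y) + 2) ^ c := ht.trans (hc _)
          _ ≤ ((w.length + y.length + 2) ^ 3) ^ c := Nat.pow_le_pow_left (by
              have h2 := sz_word_le w
              have h3 := sz_word_le y
              have h4 := cube_ge (w.length + y.length)
              rw [sz_pair]
              omega) c
          _ = (w.length + y.length + 2) ^ (3 * c) := by rw [← pow_mul]
          _ ≤ _ := Nat.pow_le_pow_right (by omega) (le_max_left _ _)
      · rw [enc_bool, ← truth_bool] at h1
        rw [truth_congr (q := (R (w, y) && decide (y.length ≤ (w.length + 2) ^ k)) = true)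
          (by simp)]
        exact h1
    · rw [h w]
      constructor
      · rintro ⟨y, h1, h2⟩
        exact ⟨y, h1.trans (Nat.pow_le_pow_right (by omega) (le_max_right _ _)), h2, h1⟩
      · rintro ⟨y, h1, h2, h3⟩
        exact ⟨y, h3, h2⟩

lemma P_subset_NP (A : Lang) : P A ⊆ NP A := by
  intro L hL
  rw [mem_P_iff] at hL
  rw [mem_NP_iff]
  refine ⟨fun z => inb L z.1, 0, hL.comp (f := fun z : List Bool × List Bool => z.1)
    (by fun_prop), fun w => ?_⟩
  constructor
  · intro h
    exact ⟨[], by simp, inb_eq_true.2 h⟩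
  · rintro ⟨y, -, h⟩
    exact inb_eq_true.1 h

lemma orc_inb (B : Lang) : orc (fun z : Bool × List Bool => inb B z.2) true = B := by
  ext u
  exact inb_eq_true

lemma P_trans {A B : Lang} (h : B ∈ P A) : P B ⊆ P A := by
  rintro L ⟨p, k, hp⟩
  rw [mem_P_iff] at h
  rw [mem_P_iff]
  have h1 : PT {Mach.oracle A} (fun z : Bool × List Bool => inb B z.2) :=
    h.comp (f := fun z : Bool × List Bool => z.2) (by fun_prop)
  have h2 : PT {Mach.oracle A} (fun w : List Bool => runs (fun z : Bool × List Bool => inb B z.2)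
      true (code p) (ofWord w) ((w.length + 2) ^ k)) :=
    PT.runs h1 (by fun_prop) (by fun_prop) (by fun_prop) (by fun_prop)
  refine h2.congr (fun w => ?_)
  rw [Bool.eq_iff_iff, runs_iff, inb_eq_true, orc_inb, dec_code]
  obtain ⟨t, ht, h3⟩ := hp w
  constructor
  · rintro ⟨t', ht', h4⟩
    exact truth_eq_true.1 (h3.det h4).1
  · intro h4
    rw [truth_eq_true.2 h4] at h3
    exact ⟨t, ht, h3⟩

/-- For a self-universal language, `NP B ⊆ P B`. -/
lemma SelfUniversal.NP_subset {c : ℕ} {B : Lang} (hB : SelfUniversal c B) : NP B ⊆ P B := by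
  intro L hL
  rw [mem_NP_iff] at hL
  obtain ⟨R, k, hR, hL⟩ := hL
  have hF : PT {Mach.oracle B} (fun z : List Bool × List Bool =>
      R z && decide (z.2.length ≤ (z.1.length + 2) ^ k)) := by
    have h1 : PT {Mach.oracle B} (fun z : List Bool × List Bool =>
      decide (z.2.length ≤ (z.1.length + 2) ^ k)) := by fun_prop
    exact PT.and hR h1
  obtain ⟨p, T, ⟨d, hd⟩, -, hp⟩ := hF
  -- the query
  let q : List Bool → List Bool := fun w => Tr.bits (.node (.node (code p) (ofWord w))
    (num ((((4 * w.length + 4 * (w.length + 2) ^ k + 5) ^ d)) ^ c)))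
  have hq : PT {Mach.oracle B} q := by
    have h1 : PT {Mach.oracle B} (fun w : List Bool =>
        4 * w.length + 4 * (w.length + 2) ^ k + 5) := by fun_prop
    have h2 : PT {Mach.oracle B} (fun w : List Bool =>
        (((4 * w.length + 4 * (w.length + 2) ^ k + 5) ^ d)) ^ c) := PT.powc (PT.powc h1 d) c
    fun_prop
  rw [mem_P_iff]
  have h0 := PT.oracle B hq
  refine h0.congr (fun w => ?_)
  rw [Bool.eq_iff_iff, inb_eq_true, inb_eq_true, hB (q w), hL w]
  constructor
  · rintro ⟨v, x, r, y, t, h1, h2, h3⟩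
    rw [show tree (q w) = _ from tree_bits _, Tr.node.injEq, Tr.node.injEq] at h1
    obtain ⟨⟨rfl, rfl⟩, rfl⟩ := h1
    obtain ⟨t', -, h4⟩ := hp (w, y) _ rfl
    rw [enc_pair, enc_word, enc_word] at h4
    rw [dec_code] at h3
    have h5 := (h3.det h4).1
    rw [enc_bool, ← truth_bool] at h5
    have h6 := (truth_inj h5).1 trivial
    simp only [Bool.and_eq_true, decide_eq_true_eq] at h6
    exact ⟨y, h6.2, h6.1⟩
  · rintro ⟨y, h1, h2⟩
    obtain ⟨t, ht, h3⟩ := hp (w, y) _ rfl
    rw [enc_pair, enc_word, enc_word] at h3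
    refine ⟨code p, ofWord w, _, y, t, tree_bits _, ?_, ?_⟩
    · have h4 : t ≤ (4 * w.length + 4 * (w.length + 2) ^ k + 5) ^ d := by
        refine (ht.trans (hd _)).trans (Nat.pow_le_pow_left ?_ d)
        rw [sz_pair]
        have := sz_word_le w
        have := sz_word_le y
        omega
      have h5 := Nat.pow_le_pow_left h4 c
      rw [num_size]
      omega
    · rw [dec_code]
      have h6 : enc (R (w, y) && decide ((w, y).2.length ≤ ((w, y).1.length + 2) ^ k)) =
          truth True := by
        rw [enc_bool, ← truth_bool]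
        exact truth_congr (by simp [h1, h2])
      rw [h6] at h3
      exact h3

lemma SelfUniversal.P_eq_NP {c : ℕ} {B : Lang} (hB : SelfUniversal c B) : P B = NP B :=
  Set.Subset.antisymm (P_subset_NP B) hB.NP_subset

end Pool.Agent.H69.Ora
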