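import Mathlib
import Pool.Agent.H69.Ora.Classes

/-!
# Oracle computations: games are decided in polynomial space
-/

namespace Pool.Agent.H69.Ora

set_option linter.unusedVariables false
set_option linter.unusedSectionVars false
set_option linter.unusedSimpArgs false

variable {α β γ δ : Type} [Enc α] [Enc β] [Enc γ] [Enc δ] {S : Set Mach}

/-! ### Programs without oracle questions -/

/-- The program without the instruction `ask`. -/
def purify : Prog → Prog
  | .id => .id
  | .nil => .nil
  | .hd => .hd
  | .tl => .tl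
  | .ask => .nil
  | .pair p q => .pair (purify p) (purify q)
  | .seq p q => .seq (purify p) (purify q)
  | .cond c p q => .cond (purify c) (purify p) (purify q)
  | .loop c p => .loop (purify c) (purify p)

/-- The same for items. -/
def purifyI : Item → Item
  | .run p => .run (purify p)
  | .pairr q x => .pairr (purify q) x
  | .join a => .join a
  | .condc p q x => .condc (purify p) (purify q) x
  | .loopc c p x => .loopc (purify c) (purify p) x

lemma purify_next (σ : Mach) (i : Item) (K : List Item) (x : Tr) :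
    next σ ((i :: K).map purifyI, x) =
      ((next (.oracle ∅) (i :: K, x)).1.map purifyI, (next (.oracle ∅) (i :: K, x)).2) := by
  cases i with
  | run p =>
    cases p with
    | ask =>
      show ((K.map purifyI, Tr.nil) : Cfg) = (K.map purifyI, truth (x.word ∈ (∅ : Lang)))
      rw [truth_false' (by simp)]
    | _ => rfl
  | pairr q y => rfl
  | join a => rfl
  | condc p q y => cases x <;> rfl
  | loopc c p y => cases x <;> rfl

lemma purify_cost (i : Item) (K : List Item) (x : Tr) :
    cost ((i :: K).map purifyI, x) = cost (i :: K, x) := by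
  cases i <;> rfl

lemma purify_reach (σ : Mach) {c c' : Cfg} {t : ℕ} (h : Reach (.oracle ∅) c c' t) :
    Reach σ (c.1.map purifyI, c.2) (c'.1.map purifyI, c'.2) t := by
  induction h with
  | refl c => exact Reach.refl _
  | @step i K x c' t h ih =>
    rw [← purify_next σ i K x] at ih
    have h1 := Reach.step (σ := σ) ih
    have h2 := purify_cost i K x
    rw [List.map_cons] at h2
    rw [h2] at h1
    exact h1

lemma purify_halts (σ : Mach) {p : Prog} {x y : Tr} {t : ℕ} (h : Halts (.oracle ∅) p x y t) :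
    Halts σ (purify p) x y t := purify_reach σ h

lemma PT.pure {f : α → β} (hf : PT {Mach.oracle ∅} f) : PT S f := by
  obtain ⟨p, T, hT, hs, hr⟩ := hf
  refine ⟨purify p, T, hT, hs, fun x σ _ => ?_⟩
  obtain ⟨t, ht, h⟩ := hr x _ rfl
  exact ⟨t, ht, purify_halts σ h⟩

lemma PT.prog_run {f : α → β} (hf : PT Set.univ f) : ∃ (p : Prog) (e : ℕ), ∀ (x : α) (σ : Mach),
    Space σ p (Ora.enc x) (Ora.enc (f x)) ((sz x + 2) ^ e) := by
  obtain ⟨p, T, ⟨e, he⟩, hs, hr⟩ := hf
  refine ⟨p, e + 1, fun x σ => ?_⟩
  obtain ⟨t, ht, h⟩ := hr x σ (Set.mem_univ _)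
  refine h.space.mono ?_
  have h1 := ht.trans (he x)
  have h2 : sz x = (Ora.enc x).size := rfl
  have h3 := base_ge x
  have h4 : 1 ≤ (sz x + 2) ^ e := Nat.one_le_pow _ _ (by omega)
  rw [pow_succ]
  have h5 := h.in_size_lt
  nlinarith

/-! ### The recursive evaluation -/

/-- Existence of a winning move which extends `y`. -/
def Ev (R : List (List Bool) → Prop) (m k : ℕ) (ys : List (List Bool)) (j : ℕ) (y : List Bool) :
    Prop := ∃ z : List Bool, z.length ≤ j ∧ ¬ Game R m k ((z ++ y) :: ys)

lemma Ev_zero {R : List (List Bool) → Prop} {m k : ℕ} {ys : List (List Bool)} {y : List Bool} :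
    Ev R m k ys 0 y ↔ ¬ Game R m k (y :: ys) := by
  constructor
  · rintro ⟨z, hz, h⟩
    have : z = [] := List.eq_nil_of_length_eq_zero (by omega)
    subst this
    exact h
  · intro h
    exact ⟨[], by simp, h⟩

lemma Ev_succ {R : List (List Bool) → Prop} {m k : ℕ} {ys : List (List Bool)} {j : ℕ}
    {y : List Bool} : Ev R m k ys (j + 1) y ↔ ¬ Game R m k (y :: ys) ∨
      (Ev R m k ys j (false :: y) ∨ Ev R m k ys j (true :: y)) := by
  constructor
  · rintro ⟨z, hz, h⟩
    rcases List.eq_nil_or_concat' z with rfl | ⟨z', b, rfl⟩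
    · left; exact h
    · right
      have hz' : z'.length ≤ j := by
        rw [List.length_append, List.length_singleton] at hz
        omega
      rw [List.append_assoc, List.singleton_append] at h
      cases b with
      | false => exact Or.inl ⟨z', hz', h⟩
      | true => exact Or.inr ⟨z', hz', h⟩
  · rintro (h | ⟨z, hz, h⟩ | ⟨z, hz, h⟩)
    · exact ⟨[], by simp, h⟩
    · exact ⟨z ++ [false], by simp; omega, by rwa [List.append_assoc, List.singleton_append]⟩
    · exact ⟨z ++ [true], by simp; omega, by rwa [List.append_assoc, List.singleton_append]⟩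

lemma Game_succ {R : List (List Bool) → Prop} {m k : ℕ} {ys : List (List Bool)} :
    Game R m (k + 1) ys ↔ Ev R m k ys m [] := by
  show (∃ y : List Bool, y.length ≤ m ∧ ¬ Game R m k (y :: ys)) ↔ _
  constructor
  · rintro ⟨y, hy, h⟩
    exact ⟨y, hy, by rwa [List.append_nil]⟩
  · rintro ⟨y, hy, h⟩
    exact ⟨y, hy, by rwa [List.append_nil] at h⟩

/-- The data of the recursive evaluation: `w`, `k`, `ys`, `j`, `y`. -/
abbrev EDat := List Bool × ℕ × List (List Bool) × ℕ × List Bool

/-- The mark. -/
def mark : Tr := .node (.node .nil .nil) .nil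

lemma isn_mark (d : EDat) : isn (enc ((mark, d) : Tr × EDat)).hd.hd = true := rfl

lemma isn_raw (w : List Bool) : isn (enc w).hd.hd = false := by
  rw [enc_word]
  cases w with
  | nil => rfl
  | cons b w => cases b <;> rfl

/-- The invariant. -/
def EInv (w : List Bool) (K M : ℕ) (d : EDat) : Prop :=
  d.1 = w ∧ d.2.2.1.length + d.2.1 ≤ K ∧ (∀ y ∈ d.2.2.1, y.length ≤ M) ∧
    d.2.2.2.2.length + d.2.2.2.1 ≤ M

lemma sz_words_le {ys : List (List Bool)} {K M : ℕ} (h : ys.length ≤ K)
    (h' : ∀ y ∈ ys, y.length ≤ M) : sz ys ≤ K * (4 * M + 2) + 1 := by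
  have key : sz ys ≤ ys.length * (4 * M + 2) + 1 := by
    clear h
    induction ys with
    | nil => rw [sz_nil]; omega
    | cons y ys ih =>
      have h1 := ih (fun y' hy' => h' y' (by simp [hy']))
      have h2 := h' y (by simp)
      have h3 := sz_word_le y
      rw [sz_cons, List.length_cons]
      have e : (ys.length + 1) * (4 * M + 2) = ys.length * (4 * M + 2) + (4 * M + 2) := by ring
      omega
  have : ys.length * (4 * M + 2) ≤ K * (4 * M + 2) := Nat.mul_le_mul_right _ h
  omega

/-- The bound for the data. -/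
def EB (n K M : ℕ) : ℕ := 40 + 4 * n + 2 * K + K * (4 * M + 2) + 6 * M

lemma sz_edat_le {w : List Bool} {K M : ℕ} {d : EDat} (h : EInv w K M d) :
    sz ((mark, d) : Tr × EDat) ≤ EB w.length K M := by
  obtain ⟨w', k, ys, j, y⟩ := d
  obtain ⟨h1, h2, h3, h4⟩ := h
  simp only at h1 h2 h3 h4
  subst h1
  have g1 := sz_word_le w'
  have g2 := sz_words_le (K := K) (by omega) h3
  have g3 := sz_word_le y
  simp only [sz_pair, sz_nat, sz_tr, mark, Tr.size]
  unfold EB
  omega

/-- **Games are decided in polynomial space.** -/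
theorem game_pspace {R : List Bool × List (List Bool) → Bool} (hR : PT Set.univ R)
    {m k : List Bool → ℕ} (hm : PT Set.univ m) (hk : PT Set.univ k) {L : Lang}
    (hL : ∀ w, w ∈ L ↔ Game (fun ys => R (w, ys) = true) (m w) (k w) []) : L ∈ PSPACE := by
  obtain ⟨pT, eT, hT⟩ := PT.prog_run (f := fun x : Tr => isn x.hd.hd) (by fun_prop)
  obtain ⟨pk, ek, hpk⟩ := PT.prog_run (f := fun z : Tr × EDat => decide (0 < z.2.2.1))
    (by fun_prop)
  obtain ⟨pj, ej, hpj⟩ := PT.prog_run (f := fun z : Tr × EDat => decide (0 < z.2.2.2.2.1))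
    (by fun_prop)
  obtain ⟨pR, eR, hpR⟩ := PT.prog_run
    (f := fun z : Tr × EDat => R (z.2.1, z.2.2.2.2.2 :: z.2.2.2.1))
    (hR.comp (f := fun z : Tr × EDat => (z.2.1, z.2.2.2.2.2 :: z.2.2.2.1)) (by fun_prop))
  obtain ⟨p1, e1, hp1⟩ := PT.prog_run
    (f := fun z : Tr × EDat => ((mark, (z.2.1, z.2.2.1 - 1, z.2.2.2.2.2 :: z.2.2.2.1, m z.2.1, [])) :
      Tr × EDat)) (by
        have : PT Set.univ (fun z : Tr × EDat => m z.2.1) := hm.comp (by fun_prop)
        fun_prop)
  obtain ⟨p2, e2, hp2⟩ := PT.prog_run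
    (f := fun z : Tr × EDat => ((mark, (z.2.1, z.2.2.1, z.2.2.2.1, z.2.2.2.2.1 - 1,
      false :: z.2.2.2.2.2)) : Tr × EDat)) (by fun_prop)
  obtain ⟨p3, e3, hp3⟩ := PT.prog_run
    (f := fun z : Tr × EDat => ((mark, (z.2.1, z.2.2.1, z.2.2.2.1, z.2.2.2.2.1 - 1,
      true :: z.2.2.2.2.2)) : Tr × EDat)) (by fun_prop)
  obtain ⟨pO, eO, hpO⟩ := PT.prog_run
    (f := fun z : Bool × Bool × Bool => !z.1 || (z.2.1 || z.2.2)) (by fun_prop)
  obtain ⟨qk, fk, hqk⟩ := PT.prog_run (f := fun w : List Bool => decide (0 < k w)) (by fun_prop)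
  obtain ⟨qR, fR, hqR⟩ := PT.prog_run (f := fun w : List Bool => R (w, []))
    (hR.comp (f := fun w : List Bool => (w, [])) (by fun_prop))
  obtain ⟨q0, f0, hq0⟩ := PT.prog_run
    (f := fun w : List Bool => ((mark, (w, k w - 1, [], m w, [])) : Tr × EDat)) (by fun_prop)
  -- the program
  obtain ⟨I, hI⟩ : ∃ I : Prog, I = .seq (.pair (.cond pk (.seq p1 .ask) pR)
    (.pair (.cond pj (.seq p2 .ask) .nil) (.cond pj (.seq p3 .ask) .nil))) pO := ⟨_, rfl⟩
  obtain ⟨m0, hm0⟩ : ∃ m0 : Prog, m0 = .cond pT I (.cond qk (.seq q0 .ask) qR) := ⟨_, rfl⟩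
  -- the common exponent
  obtain ⟨e, he⟩ : ∃ e, e = eT + ek + ej + eR + e1 + e2 + e3 + eO + fk + fR + f0 + 2 := ⟨_, rfl⟩
  have hpow : ∀ (D x e' : ℕ), x ≤ D → e' ≤ e → (x + 2) ^ e' ≤ (D + 2) ^ e := fun D x e' h1 h2 =>
    (Nat.pow_le_pow_left (by omega) e').trans (Nat.pow_le_pow_right (by omega) h2)
  -- the recursive part
  have step : ∀ (w : List Bool) (K D s0 : ℕ), EB w.length K (m w) ≤ D → (D + 2) ^ e ≤ s0 →
      ∀ d : EDat, EInv w K (m w) d →
      (∀ d' : EDat, EInv w K (m w) d' →
        d'.2.1 * (m w + 1) + d'.2.2.2.1 + 1 ≤ d.2.1 * (m w + 1) + d.2.2.2.1 →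
        Space (.recur m0) m0 (enc ((mark, d') : Tr × EDat))
          (truth (Ev (fun ys => R (w, ys) = true) (m w) d'.2.1 d'.2.2.1 d'.2.2.2.1 d'.2.2.2.2)) s0) →
      Space (.recur m0) m0 (enc ((mark, d) : Tr × EDat))
        (truth (Ev (fun ys => R (w, ys) = true) (m w) d.2.1 d.2.2.1 d.2.2.2.1 d.2.2.2.2))
        (s0 + 5 * (D + 2)) := by
    intro w K D s0 hD hs0 d hd hrec
    have hszd := (sz_edat_le hd).trans hD
    obtain ⟨w', k', ys, j, y⟩ := d
    obtain ⟨h1, h2, h3, h4⟩ := hd
    simp only at h1 h2 h3 h4 hrec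
    subst h1
    have hx : (enc ((mark, (w', k', ys, j, y)) : Tr × EDat)).size ≤ D := hszd
    have hD3 : 40 ≤ D := by
      unfold EB at hD
      omega
    -- the first test
    obtain ⟨b1, hb1⟩ : ∃ b1 : Bool, b1 = true ↔ Game (fun ys => R (w', ys) = true) (m w') k' (y :: ys) :=
      ⟨inb {u | Game (fun ys => R (w', ys) = true) (m w') k' (y :: ys)} [], inb_eq_true⟩
    have s1 : Space (.recur m0) (.cond pk (.seq p1 .ask) pR)
        (enc ((mark, (w', k', ys, j, y)) : Tr × EDat)) (bit b1) (s0 + D + 2) := by
      have g1 := (hpk (mark, (w', k', ys, j, y)) (.recur m0)).mono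
        ((hpow D _ _ hszd (by omega)).trans hs0)
      cases k' with
      | zero =>
        have g2 := (hpR (mark, (w', 0, ys, j, y)) (.recur m0)).mono
          ((hpow D _ _ hszd (by omega)).trans hs0)
        have e1 : R (w', y :: ys) = b1 := by
          rw [Bool.eq_iff_iff, hb1]
          exact Iff.rfl
        simp only at g2
        rw [e1] at g2
        exact Space.cond_false g1 g2 hx (by omega)
      | succ k'' =>
        have g2 := (hp1 (mark, (w', k'' + 1, ys, j, y)) (.recur m0)).mono
          ((hpow D _ _ hszd (by omega)).trans hs0)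
        have g3 := hrec (w', k'', y :: ys, m w', [])
          ⟨rfl, by simp only [List.length_cons]; omega, by
            intro y' hy'
            rcases List.mem_cons.1 hy' with rfl | hy'
            · omega
            · exact h3 y' hy', by simp⟩ (by
            simp only
            have : (k'' + 1) * (m w' + 1) = k'' * (m w' + 1) + (m w' + 1) := by ring
            omega)
        have e1 : truth (Ev (fun ys => R (w', ys) = true) (m w') k'' (y :: ys) (m w') []) =
            bit b1 := by
          rw [← truth_bool]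
          exact truth_congr (Game_succ.symm.trans hb1.symm)
        simp only at g3
        rw [e1] at g3
        have g4 : Space (.recur m0) (.seq p1 .ask)
            (enc ((mark, (w', k'' + 1, ys, j, y)) : Tr × EDat)) (bit b1) (s0 + 1) :=
          Space.seq g2 g3.call le_rfl
        exact Space.cond_true (g1.mono (by omega)) g4 hx (by omega)
    -- the other tests
    have stest : ∀ (b : Bool) (p' : Prog) (e' : ℕ), e' ≤ e →
        (∀ (x : Tr × EDat) (σ : Mach), Space σ p' (enc x) (enc ((mark, (x.2.1, x.2.2.1, x.2.2.2.1,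
          x.2.2.2.2.1 - 1, b :: x.2.2.2.2.2)) : Tr × EDat)) ((sz x + 2) ^ e')) →
        ∃ b' : Bool, (b' = true ↔ 0 < j ∧
          Ev (fun ys => R (w', ys) = true) (m w') k' ys (j - 1) (b :: y)) ∧
          Space (.recur m0) (.cond pj (.seq p' .ask) .nil)
            (enc ((mark, (w', k', ys, j, y)) : Tr × EDat)) (bit b') (s0 + D + 2) := by
      intro b p' e' he' hp'
      have g1 := (hpj (mark, (w', k', ys, j, y)) (.recur m0)).mono
        ((hpow D _ _ hszd (by omega)).trans hs0)
      cases j with
      | zero =>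
        refine ⟨false, by simp, ?_⟩
        have g2 : Space (.recur m0) .nil (enc ((mark, (w', k', ys, 0, y)) : Tr × EDat)) (bit false)
            s0 := by
          refine (Halts.nil _).space.mono (le_trans ?_ hs0)
          have h5 : D + 2 ≤ (D + 2) ^ 1 := by rw [pow_one]
          have h6 : (D + 2) * (D + 2) ≤ (D + 2) ^ e := by
            have : (D + 2) ^ 2 ≤ (D + 2) ^ e := Nat.pow_le_pow_right (by omega) (by omega)
            rwa [pow_two] at this
          nlinarith
        exact Space.cond_false g1 g2 hx (by omega)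
      | succ j' =>
        have g2 := (hp' (mark, (w', k', ys, j' + 1, y)) (.recur m0)).mono
          ((hpow D _ _ hszd he').trans hs0)
        have g3 := hrec (w', k', ys, j', b :: y)
          ⟨rfl, h2, h3, by simp only [List.length_cons]; omega⟩ (by simp only; omega)
        obtain ⟨b', hb'⟩ : ∃ b' : Bool, b' = true ↔
            Ev (fun ys => R (w', ys) = true) (m w') k' ys j' (b :: y) :=
          ⟨inb {u | Ev (fun ys => R (w', ys) = true) (m w') k' ys j' (b :: y)} [], inb_eq_true⟩
        refine ⟨b', by rw [hb']; simp, ?_⟩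
        simp only at g3
        rw [← truth_congr hb', truth_bool] at g3
        have g4 : Space (.recur m0) (.seq p' .ask)
            (enc ((mark, (w', k', ys, j' + 1, y)) : Tr × EDat)) (bit b') (s0 + 1) :=
          Space.seq g2 g3.call le_rfl
        exact Space.cond_true (g1.mono (by omega)) g4 hx (by omega)
    obtain ⟨b2, hb2, s2⟩ := stest false p2 e2 (by omega) hp2
    obtain ⟨b3, hb3, s3⟩ := stest true p3 e3 (by omega) hp3
    have s4 := Space.pair s2 s3 hx (by have := bit_size_le b2; omega)
      (le_refl (s0 + D + 2 + D + 1))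
    have s5 := Space.pair (s1.mono (by omega)) s4 hx (by have := bit_size_le b1; omega)
      (le_refl (s0 + D + 2 + D + 1 + D + 1))
    have s6 := (hpO (b1, b2, b3) (.recur m0)).mono (s' := s0 + D + 2 + D + 1 + D + 1) (by
      have h5 : sz (b1, b2, b3) ≤ D := by
        simp only [sz_pair]
        have := sz_bool_le b1
        have := sz_bool_le b2
        have := sz_bool_le b3
        omega
      exact ((hpow D _ _ h5 (by omega)).trans hs0).trans (by omega))
    have s7 := Space.seq s5 s6 (le_refl (s0 + D + 2 + D + 1 + D + 1 + 1))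
    rw [← hI] at s7
    have hT' := (hT (enc ((mark, (w', k', ys, j, y)) : Tr × EDat)) (.recur m0)).mono
      (s' := s0 + D + 2 + D + 1 + D + 1 + 1) (by
        have := (hpow D _ _ hx (show eT ≤ e by omega)).trans hs0
        exact le_trans this (by omega))
    rw [isn_mark] at hT'
    have s8 := Space.cond_true (q := .cond qk (.seq q0 .ask) qR) hT' s7 hx
      (show s0 + D + 2 + D + 1 + D + 1 + 1 + D + 1 ≤ s0 + 5 * (D + 2) by omega)
    rw [← hm0] at s8
    have e8 : enc (!b1 || (b2 || b3)) = truth (Ev (fun ys => R (w', ys) = true) (m w') k' ys j y) := by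
      rw [enc_bool, ← truth_bool]
      apply truth_congr
      cases j with
      | zero =>
        rw [Ev_zero, ← hb1]
        have h5 : b2 = false := by rw [← Bool.not_eq_true, hb2]; simp
        have h6 : b3 = false := by rw [← Bool.not_eq_true, hb3]; simp
        rw [h5, h6]
        cases b1 <;> simp
      | succ j' =>
        rw [Ev_succ, ← hb1]
        have h5 : b2 = true ↔ Ev (fun ys => R (w', ys) = true) (m w') k' ys j' (false :: y) := by
          rw [hb2]; simp
        have h6 : b3 = true ↔ Ev (fun ys => R (w', ys) = true) (m w') k' ys j' (true :: y) := by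
          rw [hb3]; simp
        rw [← h5, ← h6]
        cases b1 <;> cases b2 <;> cases b3 <;> simp
    simp only at s8 ⊢
    rw [← e8]
    exact s8
  have main : ∀ (w : List Bool) (K D : ℕ), EB w.length K (m w) ≤ D → ∀ (r : ℕ) (d : EDat),
      EInv w K (m w) d → d.2.1 * (m w + 1) + d.2.2.2.1 ≤ r →
      Space (.recur m0) m0 (enc ((mark, d) : Tr × EDat))
        (truth (Ev (fun ys => R (w, ys) = true) (m w) d.2.1 d.2.2.1 d.2.2.2.1 d.2.2.2.2))
        ((D + 2) ^ e + (r + 1) * (5 * (D + 2))) := by
    intro w K D hD r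
    induction r with
    | zero =>
      intro d hd hr
      refine (step w K D ((D + 2) ^ e) hD le_rfl d hd (fun d' _ h => by omega)).mono ?_
      omega
    | succ r ih =>
      intro d hd hr
      refine (step w K D ((D + 2) ^ e + (r + 1) * (5 * (D + 2))) hD (by omega) d hd
        (fun d' hd' h => ih d' hd' (by omega))).mono ?_
      have : (r + 1 + 1) * (5 * (D + 2)) = (r + 1) * (5 * (D + 2)) + 5 * (D + 2) := by ring
      omega
  -- the bound
  have hkb : PB k := PB.mono hk.size (fun x => by rw [sz_nat]; omega)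
  have hmb : PB m := PB.mono hm.size (fun x => by rw [sz_nat]; omega)
  have hlb : PB (fun w : List Bool => w.length) := PB.wlen PB.self
  have hDb : PB (fun w : List Bool => EB w.length (k w) (m w)) :=
    ((((PB.const 40).add ((PB.const 4).mul hlb)).add ((PB.const 2).mul hkb)).add
      (hkb.mul (((PB.const 4).mul hmb).add (PB.const 2)))).add ((PB.const 6).mul hmb)
  have hB : PB (fun w : List Bool => (EB w.length (k w) (m w) + 2) ^ e +
      (k w * (m w + 1) + m w + 1) * (5 * (EB w.length (k w) (m w) + 2)) +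
      5 * (EB w.length (k w) (m w) + 2)) :=
    (((hDb.add (PB.const 2)).pow e).add
      ((((hkb.mul (hmb.add (PB.const 1))).add hmb).add (PB.const 1)).mul
        ((PB.const 5).mul (hDb.add (PB.const 2))))).add ((PB.const 5).mul (hDb.add (PB.const 2)))
  obtain ⟨c, hc⟩ := hB
  refine ⟨m0, 3 * c, fun w => ?_⟩
  obtain ⟨D, hD⟩ : ∃ D, D = EB w.length (k w) (m w) := ⟨_, rfl⟩
  have hc' := hc w
  simp only at hc'
  rw [← hD] at hc'
  have hw : sz w ≤ D := by
    have := sz_word_le w
    rw [hD]
    unfold EB
    omega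
  have hw' : (enc w).size ≤ D := hw
  have hD3 : 40 ≤ D := by
    rw [hD]
    unfold EB
    omega
  have hfin : Space (.recur m0) m0 (enc w) (truth (w ∈ L)) ((D + 2) ^ e +
      (k w * (m w + 1) + m w + 1) * (5 * (D + 2)) + 5 * (D + 2)) := by
    obtain ⟨s0, hs0⟩ : ∃ s0, s0 = (D + 2) ^ e +
      (k w * (m w + 1) + m w + 1) * (5 * (D + 2)) := ⟨_, rfl⟩
    rw [← hs0]
    have h1 : (D + 2) ^ e ≤ s0 := by omega
    have g1 := (hqk w (.recur m0)).mono ((hpow D _ _ hw (show fk ≤ e by omega)).trans h1)
    have g2 : Space (.recur m0) (.cond qk (.seq q0 .ask) qR) (enc w) (truth (w ∈ L))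
        (s0 + D + 2) := by
      rcases hkw : k w with _ | k'
      · rw [hkw] at g1
        have g3 := (hqR w (.recur m0)).mono ((hpow D _ _ hw (show fR ≤ e by omega)).trans h1)
        have e1 : enc (R (w, [])) = truth (w ∈ L) := by
          rw [enc_bool, ← truth_bool]
          refine truth_congr ?_
          rw [hL w, hkw]
          exact Iff.rfl
        rw [e1] at g3
        exact Space.cond_false g1 g3 hw' (by omega)
      · rw [hkw] at g1
        have g3 := (hq0 w (.recur m0)).mono ((hpow D _ _ hw (show f0 ≤ e by omega)).trans h1)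
        have g4 := main w (k w) D (by rw [hD]) (k' * (m w + 1) + m w) (w, k', [], m w, [])
          ⟨rfl, by simp only [List.length_nil]; omega, by simp, by simp⟩ (by simp)
        have e1 : truth (Ev (fun ys => R (w, ys) = true) (m w) k' [] (m w) []) =
            truth (w ∈ L) := by
          refine truth_congr ?_
          rw [hL w, hkw, Game_succ]
        simp only at g4
        rw [e1] at g4
        have g5 := g4.mono (s' := s0) (by
          rw [hs0, hkw]
          have h2 : (k' * (m w + 1) + m w + 1) * (5 * (D + 2)) ≤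
              ((k' + 1) * (m w + 1) + m w + 1) * (5 * (D + 2)) :=
            Nat.mul_le_mul_right _ (by nlinarith)
          omega)
        rw [hkw, Nat.add_sub_cancel] at g3
        have g6 := Space.seq g3 g5.call (le_refl (s0 + 1))
        exact Space.cond_true (g1.mono (by omega)) g6 hw' (by omega)
    have g3 := (hT (enc w) (.recur m0)).mono (s' := s0 + D + 2) (by
      have := (hpow D _ _ hw' (show eT ≤ e by omega)).trans h1
      exact le_trans this (by omega))
    rw [isn_raw] at g3
    have g4 := Space.cond_false (p := I) g3 g2 hw' (show s0 + D + 2 + D + 1 ≤ s0 + 5 * (D + 2) by omega)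
    rw [← hm0] at g4
    exact g4
  rw [enc_word] at hfin
  refine hfin.mono (hc'.trans ?_)
  calc (sz w + 2) ^ c ≤ ((w.length + 2) ^ 3) ^ c := Nat.pow_le_pow_left (by
        have := sz_word_le w
        have := cube_ge w.length
        omega) c
    _ = _ := by rw [← pow_mul]

end Pool.Agent.H69.Ora
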