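import Mathlib
import Pool.Agent.H69.Ora.Space

/-!
# Oracle computations: the game which decides a self-universal language
-/

namespace Pool.Agent.H69.Ora

set_option linter.unusedVariables false
set_option linter.unusedSectionVars false
set_option linter.unusedSimpArgs false

variable {α β γ δ : Type} [Enc α] [Enc β] [Enc γ] [Enc δ] {S : Set Mach}

/-! ### Simulation with prescribed answers -/

/-- The item is an oracle question. -/
def askI (i : Tr) : Bool :=
  !isn i.hd && (isn i.tl && (!isn i.tl.hd && (isn i.tl.tl && isn i.tl.tl.hd)))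

/-- The next step is an oracle question. -/
def isAsk (s : St) : Bool :=
  !s.1.isEmpty && (decide (costT s.1 s.2.1 ≤ s.2.2) && askI (s.1.headD .nil))

lemma stepT_congr {K : List Tr} (h : askI (K.headD .nil) = false) (a b : Bool) (x : Tr) :
    stepT a K x = stepT b K x := by
  unfold stepT
  unfold askI at h
  cases h1 : isn (K.headD .nil).hd
  · cases h2 : isn (K.headD .nil).tl
    · rfl
    · cases h3 : isn (K.headD .nil).tl.hd
      · cases h4 : isn (K.headD .nil).tl.tl
        · rfl
        · cases h5 : isn (K.headD .nil).tl.tl.hd
          · rfl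
          · rw [h1, h2, h3, h4, h5] at h
            simp at h
      · rfl
  · rfl

lemma stepG_congr {s : St} (h : isAsk s = false) (a b : Bool) : stepG a s = stepG b s := by
  unfold stepG
  unfold isAsk at h
  cases h1 : s.1.isEmpty
  · rw [h1] at h
    cases h2 : decide (costT s.1 s.2.1 ≤ s.2.2)
    · rfl
    · rw [h2] at h
      simp only [Bool.not_false, Bool.true_and] at h
      simp only [cond_true, cond_false]
      rw [stepT_congr h a b]
  · rfl

lemma isAsk_size {s : St} (h : isAsk s = true) : s.2.1.size + 2 ≤ s.2.2 := by
  unfold isAsk askI at h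
  simp only [Bool.and_eq_true, Bool.not_eq_true', decide_eq_true_eq] at h
  obtain ⟨-, h1, h2, -⟩ := h
  unfold costT sizeI at h1
  rw [h2] at h1
  simp only [cond_false] at h1
  omega

lemma stepG_budget (a : Bool) (s : St) : (stepG a s).2.2 ≤ s.2.2 := by
  unfold stepG
  cases s.1.isEmpty
  · cases decide (costT s.1 s.2.1 ≤ s.2.2)
    · simp
    · simp
  · exact le_rfl

/-- One step of the simulation with prescribed answers. -/
def simF (s : List Bool × St) : List Bool × St := (s.1.tail, stepG (s.1.headD false) s.2)

lemma simF_budget (i : ℕ) (s : List Bool × St) : (simF^[i] s).2.2.2 ≤ s.2.2.2 :=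
  iterate_potential (F := simF) (φ := fun s => s.2.2.2) (fun s => stepG_budget _ _) i s

/-- The time of the computation described by the word `u`. -/
def tm (c : ℕ) (u : List Bool) : ℕ := rt c (tree u).tl.size

/-- The start of the simulation of the computation described by `u`; the word `μ` consists of the
answers of the oracle and the certificate. -/
def simS (c : ℕ) (u μ : List Bool) : List Bool × St :=
  (μ, [.node .nil (tree u).hd.hd], .node (tree u).hd.tl (ofWord (μ.drop (tm c u))), tm c u)

/-- The simulation accepts. -/
def valid (c : ℕ) (u μ : List Bool) : Bool :=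
  isn (tree u) && (isn (tree u).hd && acc (simF^[tm c u] (simS c u μ)).2)

/-- A step of the true computation. -/
noncomputable def rB (B : Lang) (s : St) : St := stepG (inb B s.2.1.word) s

lemma rB_eq (B : Lang) : rB B = stepH (fun z : Bool × List Bool => inb B z.2) true := rfl

lemma sim_eq (B : Lang) (s : List Bool × St) (n : ℕ)
    (h : ∀ j < n, isAsk (simF^[j] s).2 = true →
      (simF^[j] s).1.headD false = inb B (simF^[j] s).2.2.1.word) :
    (simF^[n] s).2 = (rB B)^[n] s.2 := by
  induction n with
  | zero => rfl
  | succ n ih =>
    rw [Function.iterate_succ_apply', Function.iterate_succ_apply',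
      ← ih (fun j hj => h j (by omega))]
    show stepG ((simF^[n] s).1.headD false) (simF^[n] s).2 =
      stepG (inb B (simF^[n] s).2.2.1.word) (simF^[n] s).2
    cases h1 : isAsk (simF^[n] s).2
    · exact stepG_congr h1 _ _
    · rw [h n (by omega) h1]

lemma tm_le (c : ℕ) (hc : 1 ≤ c) (u : List Bool) : tm c u ≤ u.length + 1 ∧
    (tm c u) ^ c ≤ u.length + 1 := by
  have h1 : (tm c u) ^ c ≤ (tree u).tl.size := (le_rt_iff hc).1 le_rfl
  have h2 : tm c u ≤ (tm c u) ^ c := Nat.le_self_pow (by omega) _
  have h3 := tree_size_le u
  have h4 := (tree u).size_tl_le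
  omega

lemma mem_iff_runs {c : ℕ} (hc : 1 ≤ c) {B : Lang} (hB : SelfUniversal c B) (u : List Bool) :
    u ∈ B ↔ isn (tree u) = true ∧ isn (tree u).hd = true ∧ ∃ y : List Bool,
      runs (fun z : Bool × List Bool => inb B z.2) true (tree u).hd.hd
        (.node (tree u).hd.tl (ofWord y)) (tm c u) = true := by
  rw [hB u]
  constructor
  · rintro ⟨v, x, r, y, t, e, h1, h2⟩
    unfold tm
    rw [e]
    refine ⟨rfl, rfl, y, ?_⟩
    rw [runs_iff, orc_inb]
    exact ⟨t, (le_rt_iff hc).2 h1, h2⟩
  · rintro ⟨h1, h2, y, h3⟩
    unfold tm at h3
    rcases e : tree u with _ | ⟨_ | ⟨v, x⟩, r⟩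
    · rw [e] at h1; simp [isn] at h1
    · rw [e] at h2; simp [isn, hd_node] at h2
    · rw [e, runs_iff, orc_inb] at h3
      obtain ⟨t, ht, h4⟩ := h3
      exact ⟨v, x, r, y, t, rfl, (le_rt_iff hc).1 ht, h4⟩

/-- The winning move on a member. -/
lemma exists_move {c : ℕ} (hc : 1 ≤ c) {B : Lang} (hB : SelfUniversal c B) {u : List Bool}
    (hu : u ∈ B) : ∃ μ : List Bool, μ.length ≤ 2 * u.length + 2 ∧ valid c u μ = true ∧
      ∀ j, isAsk (simF^[j] (simS c u μ)).2 = true → j < tm c u →
        (simF^[j] (simS c u μ)).1.headD false = inb B (simF^[j] (simS c u μ)).2.2.1.word := by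
  obtain ⟨h1, h2, y, h3⟩ := (mem_iff_runs hc hB u).1 hu
  have hT := (tm_le c hc u).1
  have hy : y.length ≤ tm c u := by
    rw [runs_iff] at h3
    obtain ⟨t, ht, h4⟩ := h3
    have h5 := h4.in_size_lt
    have h6 := ofWord_size_ge y
    simp only [Tr.size] at h5
    omega
  set s0 : St := ([.node .nil (tree u).hd.hd], .node (tree u).hd.tl (ofWord y), tm c u) with hs0
  set a : List Bool := (List.range (tm c u)).map (fun i => inb B ((rB B)^[i] s0).2.1.word) with ha
  have hal : a.length = tm c u := by rw [ha, List.length_map, List.length_range]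
  have hdrop : (a ++ y).drop (tm c u) = y := by
    rw [← hal]; exact List.drop_left
  have hS : simS c u (a ++ y) = (a ++ y, s0) := by
    unfold simS
    rw [hdrop]
  have key : ∀ j ≤ tm c u, simF^[j] (a ++ y, s0) = ((a ++ y).drop j, (rB B)^[j] s0) := by
    intro j
    induction j with
    | zero => intro _; rfl
    | succ j ih =>
      intro hj
      rw [Function.iterate_succ_apply', ih (by omega), Function.iterate_succ_apply']
      have e1 : ((a ++ y).drop j).headD false = inb B ((rB B)^[j] s0).2.1.word := by
        have h5 : j < (a ++ y).length := by rw [List.length_append]; omega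
        have h6 : j < a.length := by omega
        rw [List.drop_eq_getElem_cons h5, List.headD_cons, List.getElem_append_left h6]
        simp only [ha, List.getElem_map, List.getElem_range]
      show (((a ++ y).drop j).tail, stepG (((a ++ y).drop j).headD false) ((rB B)^[j] s0)) = _
      rw [e1, List.tail_drop]
      rfl
  refine ⟨a ++ y, by rw [List.length_append]; omega, ?_, ?_⟩
  · unfold valid
    rw [h1, h2, hS, key _ le_rfl]
    simp only [Bool.true_and]
    rw [rB_eq]
    exact h3
  · intro j _ hj
    rw [hS, key j hj.le]
    have h5 : j < (a ++ y).length := by rw [List.length_append]; omega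
    have h6 : j < a.length := by omega
    rw [List.drop_eq_getElem_cons h5, List.headD_cons, List.getElem_append_left h6]
    simp only [ha, List.getElem_map, List.getElem_range]

/-- A valid move whose answers are right proves membership. -/
lemma mem_of_valid {c : ℕ} (hc : 1 ≤ c) {B : Lang} (hB : SelfUniversal c B) {u μ : List Bool}
    (hv : valid c u μ = true) (h : ∀ j < tm c u, isAsk (simF^[j] (simS c u μ)).2 = true →
      (simF^[j] (simS c u μ)).1.headD false = inb B (simF^[j] (simS c u μ)).2.2.1.word) :
    u ∈ B := by
  unfold valid at hv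
  simp only [Bool.and_eq_true] at hv
  obtain ⟨h1, h2, h3⟩ := hv
  rw [mem_iff_runs hc hB]
  refine ⟨h1, h2, μ.drop (tm c u), ?_⟩
  rw [sim_eq B _ _ h] at h3
  exact h3

lemma stepG_small (a : Bool) (v x y : Tr) (b : ℕ) (hb : b < 5) :
    stepG a ([.node .nil v], .node x y, b) = ([], .nil, 0) := by
  have h : ¬ costT [.node .nil v] (.node x y) ≤ b := by
    have h3 := x.size_pos
    have h4 := y.size_pos
    show ¬ (1 + (x.size + y.size + 1) + 1 ≤ b)
    omega
  show _root_.cond (decide (costT [.node .nil v] (.node x y) ≤ b)) _ _ = _
  rw [decide_eq_false h, cond_false]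

/-- Short computations do not accept. -/
lemma valid_short {c : ℕ} {u μ : List Bool} (h : tm c u < 5) : valid c u μ = false := by
  unfold valid
  have key : acc (simF^[tm c u] (simS c u μ)).2 = false := by
    have h1 : ∀ n (l : List Bool), acc (simF^[n] (l, (([], .nil, 0) : St))).2 = false := by
      intro n
      induction n with
      | zero => intro l; rfl
      | succ n ih =>
        intro l
        rw [Function.iterate_succ_apply]
        exact ih l.tail
    rcases hT : tm c u with _ | n
    · rfl
    · rw [Function.iterate_succ_apply]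
      have h2 : simF (simS c u μ) = (μ.tail, (([], .nil, 0) : St)) := by
        show (μ.tail, stepG (μ.headD false) ([.node .nil (tree u).hd.hd],
          .node (tree u).hd.tl (ofWord (μ.drop (tm c u))), tm c u)) = _
        rw [stepG_small _ _ _ _ _ h]
      rw [h2]
      exact h1 n _
  rw [key]
  simp

/-! ### The game -/

/-- The positions of the game: a tag and two words. -/
abbrev Pos := ℕ × List Bool × List Bool

/-- The position after the move `y`.  Tag `0`: the player who has to move has lost; `1`: he has won;
`2`: he claims that `u ∈ B`; `3`: his opponent claims this and has proposed the simulation `μ`;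
`4` (or more): he claims that `u ∉ B`. -/
def mv (c : ℕ) (s : Pos) (y : List Bool) : Pos :=
  _root_.cond (decide (s.1 ≤ 0)) (1, [], [])
    (_root_.cond (decide (s.1 ≤ 1)) (0, [], [])
      (_root_.cond (decide (s.1 ≤ 2)) (3, s.2.1, y)
        (_root_.cond (decide (s.1 ≤ 3))
          (_root_.cond (valid c s.2.1 s.2.2)
            (_root_.cond (isAsk (simF^[y.length] (simS c s.2.1 s.2.2)).2)
              (_root_.cond ((simF^[y.length] (simS c s.2.1 s.2.2)).1.headD false)
                (2, (simF^[y.length] (simS c s.2.1 s.2.2)).2.2.1.word, [])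
                (4, (simF^[y.length] (simS c s.2.1 s.2.2)).2.2.1.word, []))
              (1, [], []))
            (0, [], []))
          (2, s.2.1, []))))

/-- The result of the game for the player who would have to move. -/
def fin (c : ℕ) (s : Pos) : Bool :=
  _root_.cond (decide (s.1 ≤ 0)) false
    (_root_.cond (decide (s.1 ≤ 1)) true
      (_root_.cond (decide (s.1 ≤ 2)) false
        (_root_.cond (decide (s.1 ≤ 3)) (!valid c s.2.1 s.2.2) true)))

/-- The player who has to move wins, `k` moves remain. -/
def GS (c m : ℕ) : ℕ → Pos → Prop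
  | 0, s => fin c s = true
  | k + 1, s => ∃ y : List Bool, y.length ≤ m ∧ ¬ GS c m k (mv c s y)

lemma game_iff_GS (c m : ℕ) (s0 : Pos) (k : ℕ) : ∀ ys : List (List Bool),
    Game (fun ys => fin c (ys.foldr (fun y s => mv c s y) s0) = true) m k ys ↔
      GS c m k (ys.foldr (fun y s => mv c s y) s0) := by
  induction k with
  | zero => intro ys; exact Iff.rfl
  | succ k ih =>
    intro ys
    show (∃ y : List Bool, y.length ≤ m ∧ ¬ Game _ m k (y :: ys)) ↔
      ∃ y : List Bool, y.length ≤ m ∧ ¬ GS c m k (mv c _ y)
    refine exists_congr (fun y => and_congr_right (fun _ => ?_))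
    rw [ih (y :: ys), List.foldr_cons]

lemma GS_over (c m k : ℕ) : ∀ u μ, (¬ GS c m k (0, u, μ)) ∧ GS c m k (1, u, μ) := by
  induction k with
  | zero =>
    intro u μ
    exact ⟨by simp [GS, fin], by simp [GS, fin]⟩
  | succ k ih =>
    intro u μ
    constructor
    · rintro ⟨y, -, h⟩
      exact h (ih [] []).2
    · exact ⟨[], by simp, (ih [] []).1⟩

lemma GS_dummy (c m k : ℕ) (u μ : List Bool) :
    GS c m (k + 1) (4, u, μ) ↔ ¬ GS c m k (2, u, []) := by
  show (∃ y : List Bool, y.length ≤ m ∧ ¬ GS c m k (2, u, [])) ↔ _
  constructor
  · rintro ⟨y, -, h⟩; exact h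
  · intro h; exact ⟨[], by simp, h⟩

lemma GS_invalid (c m k : ℕ) {u μ : List Bool} (h : valid c u μ = false) :
    GS c m k (3, u, μ) := by
  cases k with
  | zero => simp [GS, fin, h]
  | succ k =>
    refine ⟨[], by simp, ?_⟩
    have : mv c (3, u, μ) [] = (0, [], []) := by simp [mv, h]
    rw [this]
    exact (GS_over c m k [] []).1

/-- The two moves of a round. -/
lemma GS_round (c m k : ℕ) (u ν : List Bool) : GS c m (k + 2) (2, u, ν) ↔
    ∃ μ : List Bool, μ.length ≤ m ∧ ∀ y : List Bool, y.length ≤ m → GS c m k (mv c (3, u, μ) y) := by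
  show (∃ μ : List Bool, μ.length ≤ m ∧ ¬ ∃ y : List Bool, y.length ≤ m ∧
    ¬ GS c m k (mv c (3, u, μ) y)) ↔ _
  refine exists_congr (fun μ => and_congr_right (fun _ => ?_))
  push Not
  exact Iff.rfl

lemma mv3 (c : ℕ) {u μ y : List Bool} (hv : valid c u μ = true) :
    mv c (3, u, μ) y = _root_.cond (isAsk (simF^[y.length] (simS c u μ)).2)
              (_root_.cond ((simF^[y.length] (simS c u μ)).1.headD false)
                (2, (simF^[y.length] (simS c u μ)).2.2.1.word, [])
                (4, (simF^[y.length] (simS c u μ)).2.2.1.word, []))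
              (1, [], []) := by
  simp [mv, hv]

/-- **The game decides membership.** -/
theorem GS_correct {c m : ℕ} (hc : 1 ≤ c) {B : Lang} (hB : SelfUniversal c B) (i : ℕ) :
    ∀ (u ν : List Bool) (k : ℕ), tm c u < 5 ^ (c ^ i) → 2 * u.length + 2 ≤ m → 3 * i ≤ k →
      (GS c m k (2, u, ν) ↔ u ∈ B) := by
  induction i with
  | zero =>
    intro u ν k hu hm _
    rw [pow_zero, pow_one] at hu
    constructor
    · intro h
      exfalso
      cases k with
      | zero => simp [GS, fin] at h
      | succ k =>
        obtain ⟨y, -, h⟩ := h
        exact h (GS_invalid c m k (valid_short hu))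
    · intro h
      exfalso
      obtain ⟨μ, -, h1, -⟩ := exists_move hc hB h
      rw [valid_short hu] at h1
      exact Bool.false_ne_true h1
  | succ i ih =>
    intro u ν k hu hm hk
    obtain ⟨k, rfl⟩ : ∃ k', k = k' + 3 := ⟨k - 3, by omega⟩
    have hk' : 3 * i ≤ k := by omega
    rw [GS_round]
    -- the questions are smaller
    have hsmall : ∀ (μ : List Bool) (j : ℕ), isAsk (simF^[j] (simS c u μ)).2 = true →
        tm c (simF^[j] (simS c u μ)).2.2.1.word < 5 ^ (c ^ i) ∧
        2 * (simF^[j] (simS c u μ)).2.2.1.word.length + 2 ≤ m := by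
      intro μ j hj
      have h1 := isAsk_size hj
      have h2 := simF_budget j (simS c u μ)
      have h3 : (simS c u μ).2.2.2 = tm c u := rfl
      have h4 := word_length_le (simF^[j] (simS c u μ)).2.2.1
      have h5 := (tm_le c hc (simF^[j] (simS c u μ)).2.2.1.word).2
      have h6 := (tm_le c hc u).1
      refine ⟨?_, by omega⟩
      have h7 : (tm c (simF^[j] (simS c u μ)).2.2.1.word) ^ c < (5 ^ (c ^ i)) ^ c := by
        rw [← pow_mul, ← pow_succ]
        omega
      exact lt_of_pow_lt_pow_left' c h7
    have hcorr : ∀ (μ y : List Bool), valid c u μ = true → GS c m (k + 1) (mv c (3, u, μ) y) ∨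
        isAsk (simF^[y.length] (simS c u μ)).2 = true := by
      intro μ y hv
      rw [mv3 c hv]
      cases h : isAsk (simF^[y.length] (simS c u μ)).2
      · left
        exact (GS_over c m (k + 1) [] []).2
      · right; rfl
    have hask : ∀ (μ y : List Bool), valid c u μ = true →
        isAsk (simF^[y.length] (simS c u μ)).2 = true →
        (GS c m (k + 1) (mv c (3, u, μ) y) ↔ (simF^[y.length] (simS c u μ)).1.headD false =
          inb B (simF^[y.length] (simS c u μ)).2.2.1.word) := by
      intro μ y hv ha
      obtain ⟨g1, g2⟩ := hsmall μ y.length ha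
      rw [mv3 c hv, ha, cond_true]
      generalize (simF^[y.length] (simS c u μ)).2.2.1.word = u' at g1 g2
      cases (simF^[y.length] (simS c u μ)).1.headD false
      · rw [cond_false, GS_dummy, ih u' [] k g1 g2 hk', ← inb_eq_true]
        cases inb B u' <;> simp
      · rw [cond_true, ih u' [] (k + 1) g1 g2 (by omega), ← inb_eq_true]
        cases inb B u' <;> simp
    constructor
    · rintro ⟨μ, hμ, h⟩
      have hv : valid c u μ = true := by
        by_contra hv
        rw [Bool.not_eq_true] at hv
        have h1 := h [] (by simp)
        have : mv c (3, u, μ) [] = (0, [], []) := by simp [mv, hv]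
        rw [this] at h1
        exact (GS_over c m (k + 1) [] []).1 h1
      refine mem_of_valid hc hB hv (fun j hj ha => ?_)
      have h6 := (tm_le c hc u).1
      have hl : (List.replicate j true).length = j := List.length_replicate
      have h2 := hask μ (List.replicate j true) hv (by rw [hl]; exact ha)
      rw [hl] at h2
      exact h2.1 (h _ (by rw [hl]; omega))
    · intro hu'
      obtain ⟨μ, h1, hv, h2⟩ := exists_move hc hB hu'
      refine ⟨μ, by omega, fun y hy => ?_⟩
      rcases hcorr μ y hv with h3 | h3
      · exact h3
      · rw [hask μ y hv h3]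
        by_cases hj : y.length < tm c u
        · exact h2 _ h3 hj
        · -- the simulation has stopped
          exfalso
          have h4 : acc (simF^[tm c u] (simS c u μ)).2 = true := by
            unfold valid at hv
            simp only [Bool.and_eq_true] at hv
            exact hv.2.2
          have h5 := ((acc_iff _).1 h4).1
          have h6 : ∀ n, (simF^[n] (simF^[tm c u] (simS c u μ))).2.1 = [] := by
            intro n
            generalize simF^[tm c u] (simS c u μ) = s at h5
            induction n generalizing s with
            | zero => exact h5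
            | succ n ihn =>
              rw [Function.iterate_succ_apply]
              apply ihn
              show (stepG _ s.2).1 = []
              unfold stepG
              rw [h5]
              simpa using h5
          have h7 := h6 (y.length - tm c u)
          rw [← Function.iterate_add_apply, Nat.sub_add_cancel (by omega)] at h7
          unfold isAsk at h3
          rw [h7] at h3
          simp at h3

end Pool.Agent.H69.Ora
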