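import Mathlib
import Pool.Agent.H69.Ora.Play

/-!
# Oracle computations: the rules of the game are computable in polynomial time
-/

namespace Pool.Agent.H69.Ora

set_option linter.unusedVariables false
set_option linter.unusedSectionVars false
set_option linter.unusedSimpArgs false

variable {α β γ δ : Type} [Enc α] [Enc β] [Enc γ] [Enc δ] {S : Set Mach}

lemma sz_drop_le (l : List β) (i : ℕ) : sz (l.drop i) ≤ sz l := by
  induction l generalizing i with
  | nil => simp
  | cons a l ih =>
    cases i with
    | zero => simp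
    | succ i =>
      rw [List.drop_succ_cons, sz_cons]
      have := ih i
      omega

@[fun_prop]
lemma PT.drop {f : α → List β} {n : α → ℕ} (hf : PT S f) (hn : PT S n) :
    PT S (fun x => (f x).drop (n x)) := by
  have key : ∀ (i : ℕ) (l : List β), List.tail^[i] l = l.drop i := by
    intro i
    induction i with
    | zero => intro l; rfl
    | succ i ih => intro l; rw [Function.iterate_succ_apply, ih, List.drop_tail]
  have h : PT S (fun x => (fun l : List β => l.tail)^[n x] (f x)) :=
    PT.iter (g := fun (_ : Bool) (l : List β) => l.tail) (by fun_prop) (e := fun _ => true)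
      (by fun_prop) hf hn (D := fun x => sz (f x)) hf.size (fun x i _ => by
        have := key i (f x)
        show sz (List.tail^[i] (f x)) ≤ sz (f x)
        rw [this]
        exact sz_drop_le _ _)
  exact h.congr (fun x => key _ _)

@[fun_prop]
lemma PT.askI {f : α → Tr} (hf : PT S f) : PT S (fun x => askI (f x)) := by
  unfold Ora.askI
  fun_prop

@[fun_prop]
lemma PT.isAsk {f : α → St} (hf : PT S f) : PT S (fun x => isAsk (f x)) := by
  unfold Ora.isAsk
  fun_prop

@[fun_prop]
lemma PT.tm (c : ℕ) {f : α → List Bool} (hf : PT S f) : PT S (fun x => tm c (f x)) := by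
  unfold Ora.tm
  fun_prop

@[fun_prop]
lemma PT.simS (c : ℕ) {f g : α → List Bool} (hf : PT S f) (hg : PT S g) :
    PT S (fun x => simS c (f x) (g x)) := by
  unfold Ora.simS
  fun_prop

@[fun_prop]
lemma PT.simF {f : α → List Bool × St} (hf : PT S f) : PT S (fun x => simF (f x)) := by
  unfold Ora.simF
  fun_prop

lemma simF_inv (V : ℕ) (s : List Bool × St) (hV : ∀ j ∈ s.2.1, codeI j ≤ V) (n : ℕ) :
    (∀ j ∈ (simF^[n] s).2.1, codeI j ≤ V) ∧
    msize (simF^[n] s).2.1 + (simF^[n] s).2.2.1.size + (2 * V + 20) * (simF^[n] s).2.2.2 ≤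
      msize s.2.1 + s.2.2.1.size + (2 * V + 20) * s.2.2.2 ∧
    sz (simF^[n] s).1 ≤ sz s.1 := by
  induction n with
  | zero => exact ⟨hV, le_rfl, le_rfl⟩
  | succ n ih =>
    rw [Function.iterate_succ_apply']
    obtain ⟨ih1, ih2, ih3⟩ := ih
    generalize simF^[n] s = s' at ih1 ih2 ih3
    obtain ⟨l, K, x, b⟩ := s'
    have ih4 : sz l.tail ≤ sz s.1 := (sz_tail_le l).trans ih3
    show (∀ j ∈ (stepG (l.headD false) (K, x, b)).1, codeI j ≤ V) ∧
      msize (stepG (l.headD false) (K, x, b)).1 + (stepG (l.headD false) (K, x, b)).2.1.size +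
        (2 * V + 20) * (stepG (l.headD false) (K, x, b)).2.2 ≤ _ ∧ sz l.tail ≤ _
    generalize l.headD false = ans
    cases K with
    | nil => exact ⟨ih1, ih2, ih4⟩
    | cons i K =>
      have e : stepG ans (i :: K, x, b) = _root_.cond (decide (costT (i :: K) x ≤ b))
        ((stepT ans (i :: K) x).1, (stepT ans (i :: K) x).2, b - costT (i :: K) x)
          ([], .nil, 0) := rfl
      rw [e]
      rcases Nat.lt_or_ge b (costT (i :: K) x) with h2 | h2
      · rw [decide_eq_false (by omega), cond_false]
        refine ⟨by simp, ?_, ih4⟩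
        have := x.size_pos
        simp only [msize_nil, Tr.size]
        simp only at ih2
        omega
      · rw [decide_eq_true (by omega), cond_true]
        obtain ⟨g1, g2⟩ := stepT_potential V ans i K x ih1
        refine ⟨g1, ?_, ih4⟩
        simp only at ih2 ⊢
        have e : (2 * V + 20) * b = (2 * V + 20) * (b - costT (i :: K) x) +
            (2 * V + 20) * costT (i :: K) x := by
          rw [← Nat.mul_add]
          congr 1
          omega
        omega

lemma sz_sim_le (c : ℕ) (u μ : List Bool) (n : ℕ) : sz (simF^[n] (simS c u μ)) ≤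
    sz μ + (2 * ((tree u).hd.hd.size + 2 + (sz (simS c u μ)) +
      (2 * (tree u).hd.hd.size + 20) * tm c u) + 8) := by
  obtain ⟨-, h2, h3⟩ := simF_inv (tree u).hd.hd.size (simS c u μ) (by
    intro j hj
    have : j = .node .nil (tree u).hd.hd := by simpa [simS] using hj
    subst this
    simp [codeI, isn, Tr.hd, Tr.tl]) n
  have h5 : (simS c u μ).2.2.1.size ≤ sz (simS c u μ) := by
    obtain ⟨l, K, x, b⟩ := simS c u μ
    simp only [sz_pair, sz_tr]
    omega
  have h6 : (simS c u μ).1 = μ := rfl
  have h7 : (simS c u μ).2.1 = [.node .nil (tree u).hd.hd] := rfl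
  have h8 : (simS c u μ).2.2.2 = tm c u := rfl
  rw [h6] at h3
  rw [h7, h8] at h2
  generalize simF^[n] (simS c u μ) = s' at h2 h3
  obtain ⟨l, K, y, b⟩ := s'
  rw [sz_pair, sz_pair, sz_pair, sz_nat, sz_tr]
  have h9 := sz_stack_le K
  have h4 : 20 * b ≤ (2 * (tree u).hd.hd.size + 20) * b := Nat.mul_le_mul_right _ (by omega)
  simp only [msize_cons, msize_nil, Tr.size] at h2
  simp only at h3
  omega

@[fun_prop]
lemma PT.sim (c : ℕ) {u μ : α → List Bool} {n : α → ℕ} (hu : PT S u) (hμ : PT S μ) (hn : PT S n) :
    PT S (fun x => Ora.simF^[n x] (Ora.simS c (u x) (μ x))) := by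
  have hV : PT S (fun x => (Ora.tree (u x)).hd.hd) := by fun_prop
  have hS : PT S (fun x => Ora.simS c (u x) (μ x)) := by fun_prop
  have hT : PT S (fun x => Ora.tm c (u x)) := by fun_prop
  have hT' : PB (fun x => Ora.tm c (u x)) := PB.mono hT.size (fun x => by rw [sz_nat]; omega)
  exact PT.iter (g := fun (_ : Bool) (s : List Bool × St) => Ora.simF s) (by fun_prop)
    (e := fun _ => true) (by fun_prop) hS hn
    (D := fun x => sz (μ x) + (2 * (sz (Ora.tree (u x)).hd.hd + 2 + (sz (Ora.simS c (u x) (μ x))) +
      (2 * sz (Ora.tree (u x)).hd.hd + 20) * Ora.tm c (u x)) + 8))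
    (hμ.size.add (((PB.const 2).mul (((hV.size.add (PB.const 2)).add hS.size).add
      ((((PB.const 2).mul hV.size).add (PB.const 20)).mul hT'))).add (PB.const 8)))
    (fun x i _ => sz_sim_le c (u x) (μ x) i)

@[fun_prop]
lemma PT.valid (c : ℕ) {u μ : α → List Bool} (hu : PT S u) (hμ : PT S μ) :
    PT S (fun x => valid c (u x) (μ x)) := by
  unfold Ora.valid
  fun_prop

@[fun_prop]
lemma PT.mv (c : ℕ) {s : α → Pos} {y : α → List Bool} (hs : PT S s) (hy : PT S y) :
    PT S (fun x => mv c (s x) (y x)) := by
  unfold Ora.mv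
  fun_prop

@[fun_prop]
lemma PT.fin (c : ℕ) {s : α → Pos} (hs : PT S s) : PT S (fun x => fin c (s x)) := by
  unfold Ora.fin
  fun_prop

lemma mv_bound {c : ℕ} (hc : 1 ≤ c) (s : Pos) (y : List Bool) :
    (mv c s y).1 ≤ 4 ∧ (mv c s y).2.1.length ≤ s.2.1.length ∧ (mv c s y).2.2.length ≤ y.length := by
  unfold mv
  cases decide (s.1 ≤ 0)
  · cases decide (s.1 ≤ 1)
    · cases decide (s.1 ≤ 2)
      · cases decide (s.1 ≤ 3)
        · simp
        · cases valid c s.2.1 s.2.2
          · simp
          · cases ha : isAsk (simF^[y.length] (simS c s.2.1 s.2.2)).2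
            · simp
            · have h1 := isAsk_size ha
              have h2 := simF_budget y.length (simS c s.2.1 s.2.2)
              have h3 : (simS c s.2.1 s.2.2).2.2.2 = tm c s.2.1 := rfl
              have h4 := word_length_le (simF^[y.length] (simS c s.2.1 s.2.2)).2.2.1
              have h6 := (tm_le c hc s.2.1).1
              cases (simF^[y.length] (simS c s.2.1 s.2.2)).1.headD false
              · simp only [cond_true, cond_false]
                exact ⟨by omega, by omega, by simp⟩
              · simp only [cond_true, cond_false]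
                exact ⟨by omega, by omega, by simp⟩
      · simp
    · simp
  · simp

lemma foldl_mv_bound {c : ℕ} (hc : 1 ≤ c) (l : List (List Bool)) : ∀ s : Pos,
    (l.foldl (fun s y => mv c s y) s).1 ≤ s.1 + 4 ∧
    (l.foldl (fun s y => mv c s y) s).2.1.length ≤ s.2.1.length ∧
    (l.foldl (fun s y => mv c s y) s).2.2.length ≤ s.2.2.length + sz l := by
  induction l with
  | nil => intro s; simp
  | cons y l ih =>
    intro s
    rw [List.foldl_cons, sz_cons]
    obtain ⟨h1, h2, h3⟩ := mv_bound hc s y
    obtain ⟨g1, g2, g3⟩ := ih (mv c s y)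
    have h4 := sz_word_ge y
    cases l with
    | nil =>
      simp only [List.foldl_nil] at g1 g2 g3 ⊢
      exact ⟨by omega, by omega, by omega⟩
    | cons y' l' =>
      refine ⟨?_, by omega, by omega⟩
      rw [List.foldl_cons]
      have key : ∀ (l : List (List Bool)) (s : Pos) (y : List Bool),
          (l.foldl (fun s y => mv c s y) (mv c s y)).1 ≤ 4 := by
        intro l
        induction l with
        | nil => intro s y; exact (mv_bound hc s y).1
        | cons z l ih2 => intro s y; rw [List.foldl_cons]; exact ih2 _ z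
      have := key l' (mv c s y) y'
      omega

lemma sz_take_le (m : List β) (i : ℕ) : sz (m.take i) ≤ sz m := by
  induction m generalizing i with
  | nil => simp
  | cons a m ih =>
    cases i with
    | zero => rw [List.take_zero, sz_nil]; exact sz_pos _
    | succ i => rw [List.take_succ_cons, sz_cons, sz_cons]; have := ih i; omega

lemma PT.play {c : ℕ} (hc : 1 ≤ c) {ys : α → List (List Bool)} {s0 : α → Pos} (hys : PT S ys)
    (hs0 : PT S s0) : PT S (fun x => (ys x).foldr (fun y s => Ora.mv c s y) (s0 x)) := by
  have hrev : PT S (fun x => (ys x).reverse) := by fun_prop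
  have h : PT S (fun x => (ys x).reverse.foldl (fun s y => Ora.mv c s y) (s0 x)) :=
    PT.foldl ([] : List Bool) (g := fun (_ : Bool) (s : Pos) (y : List Bool) => Ora.mv c s y)
      (by fun_prop) (e := fun _ => true) (by fun_prop) hs0 hrev
      (D := fun x => 20 + 8 * sz (s0 x) + 4 * sz (ys x).reverse)
      (((PB.const 20).add ((PB.const 8).mul hs0.size)).add ((PB.const 4).mul hrev.size))
      (fun x i => by
        obtain ⟨h1, h2, h3⟩ := foldl_mv_bound hc ((ys x).reverse.take i) (s0 x)
        have h4 := sz_take_le (ys x).reverse i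
        generalize ((ys x).reverse.take i).foldl (fun s y => Ora.mv c s y) (s0 x) = s at h1 h2 h3
        obtain ⟨t, u, μ⟩ := s
        simp only [sz_pair, sz_nat] at h1 h2 h3 ⊢
        have g1 := sz_word_le u
        have g2 := sz_word_le μ
        have g3 : 2 * (s0 x).1 + 1 + (2 * (s0 x).2.1.length + 1) + (2 * (s0 x).2.2.length + 1) ≤
            sz (s0 x) := by
          obtain ⟨t', u', μ'⟩ := s0 x
          simp only [sz_pair, sz_nat]
          have g1 := sz_word_ge u'
          have g2 := sz_word_ge μ'
          omega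
        omega)
  exact h.congr (fun x => by rw [List.foldl_reverse])

/-! ### Logarithms and quotients -/

lemma count_iter (Q : ℕ → Bool) (N : ℕ) (hQ : ∀ t, Q t = true ↔ t ≤ N) (n : ℕ) :
    (fun t => _root_.cond (Q (t + 1)) (t + 1) t)^[n] 0 = min n N := by
  induction n with
  | zero => simp
  | succ n ih =>
    rw [Function.iterate_succ_apply', ih]
    rcases Nat.lt_or_ge n N with h | h
    · rw [min_eq_left h.le, (hQ (n + 1)).2 (by omega), cond_true, min_eq_left (by omega)]
    · rw [min_eq_right h]
      have : Q (N + 1) = false := by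
        rw [← Bool.not_eq_true, hQ]
        omega
      rw [this, cond_false, min_eq_right (by omega)]

@[fun_prop]
lemma PT.log2 {f : α → ℕ} (hf : PT S f) : PT S (fun x => Nat.log 2 (f x)) := by
  have h : PT S (fun x => (fun t => _root_.cond (decide (2 ^ (t + 1) ≤ f x)) (t + 1) t)^[f x] 0) :=
    PT.iter (g := fun (n : ℕ) (t : ℕ) => _root_.cond (decide (2 ^ (t + 1) ≤ n)) (t + 1) t)
      (by fun_prop) (e := f) hf (s0 := fun _ => 0) (by fun_prop) hf
      (D := fun x => sz (f x)) hf.size (fun x i hi => by
        have key : ∀ (n i : ℕ), (fun t => _root_.cond (decide (2 ^ (t + 1) ≤ n)) (t + 1) t)^[i] 0 ≤ i := by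
          intro n i
          induction i with
          | zero => simp
          | succ i ih =>
            rw [Function.iterate_succ_apply']
            generalize (fun t => _root_.cond (decide (2 ^ (t + 1) ≤ n)) (t + 1) t)^[i] 0 = r at ih
            cases decide (2 ^ (r + 1) ≤ n) <;> simp <;> omega
        have := key (f x) i
        simp only [sz_nat] at this ⊢
        omega)
  refine h.congr (fun x => ?_)
  rcases Nat.eq_zero_or_pos (f x) with h0 | h0
  · rw [h0]; simp
  · rw [count_iter (fun t => decide (2 ^ t ≤ f x)) (Nat.log 2 (f x)) (fun t => by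
      rw [decide_eq_true_eq, Nat.le_log_iff_pow_le (by norm_num) h0.ne'])]
    exact min_eq_right (Nat.log_le_self 2 _)

@[fun_prop]
lemma PT.divc {f : α → ℕ} (hf : PT S f) (d : ℕ) : PT S (fun x => f x / d) := by
  rcases Nat.eq_zero_or_pos d with rfl | hd
  · exact (PT.const (0 : ℕ)).congr (fun x => by simp)
  have h : PT S (fun x => (fun t => _root_.cond (decide ((t + 1) * d ≤ f x)) (t + 1) t)^[f x] 0) :=
    PT.iter (g := fun (n : ℕ) (t : ℕ) => _root_.cond (decide ((t + 1) * d ≤ n)) (t + 1) t)
      (by fun_prop) (e := f) hf (s0 := fun _ => 0) (by fun_prop) hf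
      (D := fun x => sz (f x)) hf.size (fun x i hi => by
        have key : ∀ (n i : ℕ), (fun t => _root_.cond (decide ((t + 1) * d ≤ n)) (t + 1) t)^[i] 0 ≤ i := by
          intro n i
          induction i with
          | zero => simp
          | succ i ih =>
            rw [Function.iterate_succ_apply']
            generalize (fun t => _root_.cond (decide ((t + 1) * d ≤ n)) (t + 1) t)^[i] 0 = r at ih
            cases decide ((r + 1) * d ≤ n) <;> simp <;> omega
        have := key (f x) i
        simp only [sz_nat] at this ⊢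
        omega)
  refine h.congr (fun x => ?_)
  rw [count_iter (fun t => decide (t * d ≤ f x)) (f x / d) (fun t => by
    rw [decide_eq_true_eq, Nat.le_div_iff_mul_le hd])]
  exact min_eq_right (Nat.div_le_self _ _)

end Pool.Agent.H69.Ora
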