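import Mathlib
import Pool.Agent.H69.Ora.PlayPT

/-!
# Oracle computations: upper bounds for the self-universal languages
-/

namespace Pool.Agent.H69.Ora

set_option linter.unusedVariables false
set_option linter.unusedSectionVars false
set_option linter.unusedSimpArgs false

variable {α β γ δ : Type} [Enc α] [Enc β] [Enc γ] [Enc δ] {S : Set Mach}

/-- Reductions to universal languages. -/
lemma exists_query {A L : Lang} (hL : L ∈ NP A) (c : ℕ) : ∃ q : List Bool → List Bool,
    PT Set.univ q ∧ ∀ w, w ∈ L ↔ Acc c A (q w) := by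
  rw [mem_NP_iff] at hL
  obtain ⟨R, k, hR, hL⟩ := hL
  have hF : PT {Mach.oracle A} (fun z : List Bool × List Bool =>
      R z && decide (z.2.length ≤ (z.1.length + 2) ^ k)) := by
    have h1 : PT {Mach.oracle A} (fun z : List Bool × List Bool =>
      decide (z.2.length ≤ (z.1.length + 2) ^ k)) := by fun_prop
    exact PT.and hR h1
  obtain ⟨p, T, ⟨d, hd⟩, -, hp⟩ := hF
  -- the query
  let q : List Bool → List Bool := fun w => Tr.bits (.node (.node (code p) (ofWord w))
    (num ((((4 * w.length + 4 * (w.length + 2) ^ k + 5) ^ d)) ^ c)))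
  have hq : PT Set.univ q := by
    have h1 : PT Set.univ (fun w : List Bool =>
        4 * w.length + 4 * (w.length + 2) ^ k + 5) := by fun_prop
    have h2 : PT Set.univ (fun w : List Bool =>
        (((4 * w.length + 4 * (w.length + 2) ^ k + 5) ^ d)) ^ c) := PT.powc (PT.powc h1 d) c
    fun_prop
  refine ⟨q, hq, fun w => ?_⟩
  rw [hL w]
  constructor
  · rintro ⟨y, h1, h2⟩
    obtain ⟨t, ht, h3⟩ := hp (w, y) _ rfl
    rw [enc_pair, enc_word, enc_word] at h3
    refine ⟨code p, ofWord w, _, y, t, tree_bits _, ?_, ?_⟩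
    · have h4 : t ≤ (4 * w.length + 4 * (w.length + 2) ^ k + 5) ^ d := by
        refine (ht.trans (hd _)).trans (Nat.pow_le_pow_left ?_ d)
        rw [sz_pair]
        have := sz_word_le w
        have := sz_word_le y
        omega
      have h5 := Nat.pow_le_pow_left h4 c
      rw [num_size]
      omega
    · rw [dec_code]
      have h6 : enc (R (w, y) && decide ((w, y).2.length ≤ ((w, y).1.length + 2) ^ k)) =
          truth True := by
        rw [enc_bool, ← truth_bool]
        exact truth_congr (by simp [h1, h2])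
      rw [h6] at h3
      exact h3
  · rintro ⟨v, x, r, y, t, h1, h2, h3⟩
    rw [show tree (q w) = _ from tree_bits _, Tr.node.injEq, Tr.node.injEq] at h1
    obtain ⟨⟨rfl, rfl⟩, rfl⟩ := h1
    obtain ⟨t', -, h4⟩ := hp (w, y) _ rfl
    rw [enc_pair, enc_word, enc_word] at h4
    rw [dec_code] at h3
    have h5 := (h3.det h4).1
    rw [enc_bool, ← truth_bool] at h5
    have h6 := (truth_inj h5).1 trivial
    simp only [Bool.and_eq_true, decide_eq_true_eq] at h6
    exact ⟨y, h6.2, h6.1⟩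

lemma query_length {q : List Bool → List Bool} (hq : PT Set.univ q) :
    ∃ E, ∀ w, (q w).length ≤ (w.length + 2) ^ E := by
  obtain ⟨c, hc⟩ := hq.size
  refine ⟨3 * c, fun w => ?_⟩
  have h1 := sz_word_ge (q w)
  calc (q w).length ≤ sz (q w) := by omega
    _ ≤ (sz w + 2) ^ c := hc w
    _ ≤ ((w.length + 2) ^ 3) ^ c := Nat.pow_le_pow_left (by
        have := sz_word_le w
        have := cube_ge w.length
        omega) c
    _ = _ := by rw [← pow_mul]

/-! ### `Alt` and `PSPACE` -/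

lemma enc_words (ys : List (List Bool)) : enc ys = ofWords ys := by
  induction ys with
  | nil => rfl
  | cons y ys ih => rw [enc_cons, ih, enc_word]; rfl

lemma sz_words_eq_le (ys : List (List Bool)) :
    sz ys ≤ 4 * (ys.map (fun y => y.length + 1)).sum + 1 := by
  induction ys with
  | nil => simp [sz_nil]
  | cons y ys ih =>
    rw [sz_cons, List.map_cons, List.sum_cons]
    have := sz_word_le y
    omega

lemma sz_words_ge (ys : List (List Bool)) : (ys.map (fun y => y.length + 1)).sum ≤ sz ys := by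
  induction ys with
  | nil => simp [sz_nil]
  | cons y ys ih =>
    rw [sz_cons, List.map_cons, List.sum_cons]
    have := sz_word_ge y
    omega

lemma mem_Alt_of {f : ℕ → ℕ} {L : Lang} {R : List Bool × List (List Bool) → Bool}
    (hR : PT {Mach.oracle ∅} R) (E : ℕ)
    (h : ∀ w, ∀ m, (w.length + 2) ^ E ≤ m →
      (w ∈ L ↔ Game (fun ys => R (w, ys) = true) m (f w.length) [])) : L ∈ Alt f := by
  obtain ⟨p, T, ⟨d, hd⟩, -, hp⟩ := hR
  refine ⟨fun w ys => R (w, ys) = true, p, max (3 * d) E, fun w ys => ?_, fun w => ?_⟩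
  · obtain ⟨t, ht, h1⟩ := hp (w, ys) _ rfl
    rw [enc_pair, enc_word, enc_words, enc_bool, ← truth_bool] at h1
    refine ⟨t, ?_, h1⟩
    calc t ≤ (sz (w, ys) + 2) ^ d := ht.trans (hd _)
      _ ≤ ((w.length + (ys.map (fun y => y.length + 1)).sum + 2) ^ 3) ^ d :=
          Nat.pow_le_pow_left (by
          have h2 := sz_word_le w
          have h3 := sz_words_eq_le ys
          have h4 := cube_ge (w.length + (ys.map (fun y => y.length + 1)).sum)
          rw [sz_pair]
          omega) d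
      _ = (w.length + (ys.map (fun y => y.length + 1)).sum + 2) ^ (3 * d) := by rw [← pow_mul]
      _ ≤ _ := Nat.pow_le_pow_right (by omega) (le_max_left _ _)
  · exact h w _ (Nat.pow_le_pow_right (by omega) (le_max_right _ _))

theorem Alt_subset_PSPACE {f : ℕ → ℕ} (hf : PT Set.univ (fun w : List Bool => f w.length)) :
    Alt f ⊆ PSPACE := by
  classical
  rintro L ⟨R, p, e, hp, hL⟩
  have hR : PT {Mach.oracle ∅} (fun z : List Bool × List (List Bool) => decide (R z.1 z.2)) := by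
    refine ⟨p, fun z => (z.1.length + (z.2.map (fun y => y.length + 1)).sum + 2) ^ e,
      (((PB.wlen PB.fst).add (PB.mono PB.snd (fun z => sz_words_ge z.2))).add (PB.const 2)).pow e,
      PB.mono (PB.const 3) (fun x => sz_bool_le _), fun z σ hσ => ?_⟩
    rw [Set.mem_singleton_iff] at hσ
    subst hσ
    obtain ⟨w, ys⟩ := z
    obtain ⟨t, ht, h1⟩ := hp w ys
    refine ⟨t, ht, ?_⟩
    rw [enc_pair, enc_word, enc_words, enc_bool, ← truth_bool]
    rw [truth_congr (show decide (R w ys) = true ↔ R w ys by simp)]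
    exact h1
  have hm : PT Set.univ (fun w : List Bool => (w.length + 2) ^ e) := by fun_prop
  refine game_pspace hR.pure hm hf (fun w => ?_)
  rw [hL w]
  simp

/-! ### The self-universal languages -/

theorem SelfUniversal.mem_PSPACE {c : ℕ} (hc : 2 ≤ c) {B : Lang} (hB : SelfUniversal c B) :
    B ∈ PSPACE := by
  have hR : PT Set.univ (fun z : List Bool × List (List Bool) =>
      fin c (z.2.foldr (fun y s => mv c s y) (2, z.1, []))) :=
    (PT.play (by omega : 1 ≤ c) (ys := fun z : List Bool × List (List Bool) => z.2)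
      (s0 := fun z => (2, z.1, [])) (by fun_prop) (by fun_prop)).fin c
  have hm : PT Set.univ (fun w : List Bool => 2 * w.length + 2) := by fun_prop
  have hk : PT Set.univ (fun w : List Bool => 3 * (w.length + 1)) := by fun_prop
  refine game_pspace hR hm hk (fun w => ?_)
  rw [game_iff_GS c (2 * w.length + 2) (2, w, []) (3 * (w.length + 1)) []]
  refine (GS_correct (by omega) hB (w.length + 1) w [] _ ?_ le_rfl le_rfl).symm
  have h1 := (tm_le c (by omega) w).1
  have h2 : w.length + 1 < 2 ^ (w.length + 1) := Nat.lt_two_pow_self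
  have h3 : 2 ^ (w.length + 1) ≤ c ^ (w.length + 1) := Nat.pow_le_pow_left hc _
  have h4 : c ^ (w.length + 1) < 5 ^ (c ^ (w.length + 1)) := Nat.lt_pow_self (by norm_num)
  omega

lemma level_bound {c d : ℕ} (hd : 1 ≤ d) (hcd : 8 ^ d ≤ c) (E : ℕ) : ∃ e, ∀ n : ℕ,
    (n + 2) ^ E + 1 < 5 ^ (c ^ ((Nat.log 2 (Nat.log 2 n) / d + e) / 3)) := by
  refine ⟨2 * E + 4, fun n => ?_⟩
  obtain ⟨l, hl⟩ : ∃ l, l = Nat.log 2 n := ⟨_, rfl⟩
  obtain ⟨ll, hll⟩ : ∃ ll, ll = Nat.log 2 l := ⟨_, rfl⟩
  rw [← hl, ← hll]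
  obtain ⟨f, hf⟩ : ∃ f, f = ll / d + (2 * E + 4) := ⟨_, rfl⟩
  rw [← hf]
  have h1 : ll + 1 + (2 * E + 1) ≤ 3 * d * (f / 3) := by
    have h2 : f ≤ 3 * (f / 3) + 2 := by omega
    have h3 : ll < d * (ll / d) + d := by
      have := Nat.div_add_mod ll d
      have := Nat.mod_lt ll (show 0 < d by omega)
      omega
    have h4 : d * f ≤ d * (3 * (f / 3) + 2) := Nat.mul_le_mul_left d h2
    have h5 : d * f = d * (ll / d) + d * (2 * E + 1) + d * 3 := by rw [hf]; ring
    have h6 : d * (3 * (f / 3) + 2) = 3 * d * (f / 3) + d * 2 := by ring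
    have h7 : 1 * (2 * E + 1) ≤ d * (2 * E + 1) := Nat.mul_le_mul_right _ hd
    omega
  have h2 : (l + 1) * (2 * E + 1) ≤ c ^ (f / 3) := by
    have h3 : l < 2 ^ (ll + 1) := by rw [hll]; exact Nat.lt_pow_succ_log_self (by norm_num) l
    have h4 : 2 * E + 1 < 2 ^ (2 * E + 1) := Nat.lt_two_pow_self
    calc (l + 1) * (2 * E + 1) ≤ 2 ^ (ll + 1) * 2 ^ (2 * E + 1) := Nat.mul_le_mul (by omega) h4.le
      _ = 2 ^ (ll + 1 + (2 * E + 1)) := (pow_add 2 (ll + 1) (2 * E + 1)).symm
      _ ≤ 2 ^ (3 * d * (f / 3)) := Nat.pow_le_pow_right (by norm_num) h1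
      _ = (8 ^ d) ^ (f / 3) := by rw [pow_mul, pow_mul]; norm_num
      _ ≤ c ^ (f / 3) := Nat.pow_le_pow_left hcd _
  have h3 : n + 2 ≤ 4 ^ (l + 1) := by
    have h4 : n < 2 ^ (l + 1) := by rw [hl]; exact Nat.lt_pow_succ_log_self (by norm_num) n
    have h5 : (4:ℕ) ^ (l + 1) = 2 ^ (l + 1) * 2 ^ (l + 1) := by
      rw [← Nat.mul_pow]
    have h6 : 2 ≤ 2 ^ (l + 1) := by
      calc 2 = 2 ^ 1 := by norm_num
        _ ≤ _ := Nat.pow_le_pow_right (by norm_num) (by omega)
    rw [h5]
    nlinarith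
  have h4 : (n + 2) ^ E ≤ 5 ^ ((l + 1) * E) := by
    calc (n + 2) ^ E ≤ (4 ^ (l + 1)) ^ E := Nat.pow_le_pow_left h3 E
      _ = 4 ^ ((l + 1) * E) := by rw [← pow_mul]
      _ ≤ _ := Nat.pow_le_pow_left (by norm_num) _
  have h5 : 1 ≤ 5 ^ ((l + 1) * E) := Nat.one_le_pow _ _ (by norm_num)
  calc (n + 2) ^ E + 1 < 5 ^ ((l + 1) * E) * 5 := by omega
    _ = 5 ^ ((l + 1) * E + 1) := by rw [pow_succ]
    _ ≤ 5 ^ ((l + 1) * (2 * E + 1)) := Nat.pow_le_pow_right (by norm_num) (by nlinarith)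
    _ ≤ _ := Nat.pow_le_pow_right (by norm_num) h2

/-- **Upper bound**: `P B ⊆ ⋃ e, Alt (log log n / d + e)`, if `8 ^ d ≤ c`. -/
theorem SelfUniversal.P_subset_Alt {c d : ℕ} (hd : 1 ≤ d) (hcd : 8 ^ d ≤ c) {B : Lang}
    (hB : SelfUniversal c B) {L : Lang} (hL : L ∈ P B) :
    ∃ e, L ∈ Alt (fun n => Nat.log 2 (Nat.log 2 n) / d + e) := by
  have hc : 1 ≤ c := (Nat.one_le_pow _ _ (by norm_num)).trans hcd
  obtain ⟨q, hq, hL⟩ := exists_query (P_subset_NP B hL) c
  obtain ⟨E, hE⟩ := query_length hq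
  obtain ⟨e, he⟩ := level_bound hd hcd E
  refine ⟨e, ?_⟩
  have hR : PT Set.univ (fun z : List Bool × List (List Bool) =>
      fin c (z.2.foldr (fun y s => mv c s y) (2, q z.1, []))) :=
    (PT.play hc (ys := fun z : List Bool × List (List Bool) => z.2)
      (s0 := fun z => (2, q z.1, [])) (by fun_prop) (by fun_prop)).fin c
  refine mem_Alt_of (hR.mono (Set.subset_univ _)) (E + 2) (fun w m hm => ?_)
  rw [game_iff_GS c m (2, q w, []) _ [], hL w]
  have hs := hB (q w)
  rw [show Acc c B (q w) ↔ q w ∈ B from hs.symm]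
  refine (GS_correct hc hB ((Nat.log 2 (Nat.log 2 w.length) / d + e) / 3) (q w) [] _ ?_ ?_
    (by omega)).symm
  · have h1 := (tm_le c hc (q w)).1
    have h2 := hE w
    have h3 := he w.length
    omega
  · have h2 := hE w
    have h3 : 2 * (w.length + 2) ^ E + 2 ≤ (w.length + 2) ^ (E + 2) := by
      have h4 : 1 ≤ (w.length + 2) ^ E := Nat.one_le_pow _ _ (by omega)
      have h5 : 4 ≤ (w.length + 2) ^ 2 := by nlinarith [Nat.zero_le w.length]
      rw [pow_add]
      calc 2 * (w.length + 2) ^ E + 2 ≤ (w.length + 2) ^ E * 4 := by omega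
        _ ≤ _ := Nat.mul_le_mul_left _ h5
    omega

end Pool.Agent.H69.Ora
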