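import Pool.Agent.H69.Ora.Def

/-!
# Oracle computations: the class `H` and the polynomial-time hierarchy
-/

namespace Pool.Agent.H69.Ora

/-- The class `H`: the intersection of `P A` over all oracles `A` with `P A = NP A`. -/
def HH : Set Lang := {L | ∀ A : Lang, P A = NP A → L ∈ P A}

/-- The levels `Σ_k` of the polynomial-time hierarchy. -/
def SigmaP : ℕ → Set Lang
  | 0 => P ∅
  | k + 1 => {L | ∃ A ∈ SigmaP k, L ∈ NP A}

/-- The polynomial-time hierarchy. -/
def PH : Set Lang := {L | ∃ k, L ∈ SigmaP k}

end Pool.Agent.H69.Ora
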