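import Mathlib
import Pool.Agent.H69.Ora.Classes

/-!
# Oracle computations: every oracle `A` with `P A = NP A` computes some self-universal language

For an oracle `A` with `P A = NP A` there is an exponent `c ≥ 2` such that the self-universal
language with exponent `c` belongs to `P A`.
-/

namespace Pool.Agent.H69.Ora

set_option linter.unusedVariables false
set_option linter.unusedSectionVars false

variable {α β γ δ : Type} [Enc α] [Enc β] [Enc γ] [Enc δ] {S : Set Mach}

/-- The universal language in `NP A`. -/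
def Univ (A : Lang) : Lang := {w | Acc 1 A w}

lemma Univ_mem_NP (A : Lang) : Univ A ∈ NP A := by
  rw [mem_NP_iff]
  have h0 : PT {Mach.oracle A} (fun z : Bool × List Bool => inb A z.2) :=
    PT.oracle A (by fun_prop)
  have h1 : PT {Mach.oracle A} (fun z : List Bool × List Bool =>
      runs (fun z : Bool × List Bool => inb A z.2) true (tree z.1).hd.hd
        (.node (tree z.1).hd.tl (ofWord z.2)) (tree z.1).tl.size) :=
    PT.runs h0 (by fun_prop) (by fun_prop) (by fun_prop) (by fun_prop)
  refine ⟨fun z => isn (tree z.1) && (isn (tree z.1).hd &&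
    runs (fun z : Bool × List Bool => inb A z.2) true (tree z.1).hd.hd
        (.node (tree z.1).hd.tl (ofWord z.2)) (tree z.1).tl.size), 1,
    PT.and (by fun_prop) (PT.and (by fun_prop) h1), fun w => ?_⟩
  have hw := tree_size_le w
  constructor
  · rintro ⟨v, x, r, y, t, e, h2, h3⟩
    refine ⟨y, ?_, ?_⟩
    · have h4 := h3.in_size_lt
      rw [pow_one] at h2
      rw [e] at hw
      have h5 := ofWord_size_ge y
      simp only [Tr.size] at h4 hw
      rw [pow_one]
      omega
    · simp only [e, isn, hd_node, tl_node, Bool.true_and]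
      rw [runs_iff, orc_inb]
      exact ⟨t, by simpa using h2, h3⟩
  · rintro ⟨y, h2, h3⟩
    simp only [Bool.and_eq_true] at h3
    obtain ⟨h4, h5, h6⟩ := h3
    rcases e : tree w with _ | ⟨_ | ⟨v, x⟩, r⟩
    · rw [e] at h4; simp [isn] at h4
    · rw [e] at h5; simp [isn, hd_node] at h5
    · rw [e, runs_iff, orc_inb] at h6
      obtain ⟨t, ht, h7⟩ := h6
      exact ⟨v, x, r, y, t, e, by rw [pow_one]; exact ht, h7⟩

/-- The data of the recursive simulation: a code of the simulation itself, two exponents `c`, `c'`,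
the code `v` of the simulated program, its input `x`, its time `T` and a parameter `s`. -/
abbrev Dat := Tr × ℕ × ℕ × Tr × Tr × ℕ × ℕ

/-- The answers to the oracle questions in the recursive simulation. -/
noncomputable def ansV (U : Lang) (z : Dat × List Bool) : Bool :=
  isn (tree z.2) && (isn (tree z.2).hd && (decide (5 ≤ rt z.1.2.1 (tree z.2).tl.size) &&
    inb U (Tr.bits (.node (.node z.1.1 (enc ((z.1.1, z.1.2.1, z.1.2.2.1, (tree z.2).hd.hd,
      (tree z.2).hd.tl, rt z.1.2.1 (tree z.2).tl.size, rt z.1.2.2.1 z.1.2.2.2.2.2.2) : Dat)))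
        (num z.1.2.2.2.2.2.2)))))

/-- The recursive simulation. -/
noncomputable def simV (U : Lang) (z : Dat × List Bool) : Bool :=
  runs (ansV U) z.1 z.1.2.2.2.1 (.node z.1.2.2.2.2.1 (ofWord z.2)) z.1.2.2.2.2.2.1

lemma ansV_PT {A U : Lang} (hU : U ∈ P A) : PT {Mach.oracle A} (ansV U) := by
  rw [mem_P_iff] at hU
  have h1 : PT {Mach.oracle A} (fun z : Dat × List Bool =>
      (Tr.bits (.node (.node z.1.1 (enc ((z.1.1, z.1.2.1, z.1.2.2.1, (tree z.2).hd.hd,
      (tree z.2).hd.tl, rt z.1.2.1 (tree z.2).tl.size, rt z.1.2.2.1 z.1.2.2.2.2.2.2) : Dat)))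
        (num z.1.2.2.2.2.2.2)))) := by fun_prop
  have h2 := hU.comp h1
  unfold ansV
  exact PT.and (by fun_prop) (PT.and (by fun_prop) (PT.and (by fun_prop) h2))

lemma simV_PT {A U : Lang} (hU : U ∈ P A) : PT {Mach.oracle A} (simV U) :=
  PT.runs (ansV_PT hU) (by fun_prop) (by fun_prop) (by fun_prop) (by fun_prop)

/-- Questions to the universal language about the recursive simulation. -/
lemma univ_simV {A : Lang} {g : Tr} {a : ℕ}
    (hg : ∀ z : Dat × List Bool, ∃ t ≤ (sz z + 2) ^ a,
      Halts (.oracle A) (dec g) (enc z) (enc (simV (Univ A) z)) t)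
    (d : Dat) (s : ℕ) (hs : ∀ y, simV (Univ A) (d, y) = true → (sz (d, y) + 2) ^ a ≤ 2 * s + 1) :
    Tr.bits (.node (.node g (enc d)) (num s)) ∈ Univ A ↔ ∃ y, simV (Univ A) (d, y) = true := by
  constructor
  · rintro ⟨v, x, r, y, t, e, h2, h3⟩
    rw [tree_bits, Tr.node.injEq, Tr.node.injEq] at e
    obtain ⟨⟨rfl, rfl⟩, rfl⟩ := e
    refine ⟨y, ?_⟩
    obtain ⟨t', ht', h4⟩ := hg (d, y)
    rw [enc_pair, enc_word] at h4
    have h5 := (h4.det h3).1
    rw [enc_bool, ← truth_bool] at h5
    exact truth_eq_true.1 h5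
  · rintro ⟨y, hy⟩
    obtain ⟨t, ht, h1⟩ := hg (d, y)
    rw [enc_pair, enc_word] at h1
    refine ⟨g, enc d, num s, y, t, tree_bits _, ?_, ?_⟩
    · rw [pow_one, num_size]
      exact ht.trans (hs y hy)
    · rw [enc_bool, ← truth_bool, truth_eq_true.2 hy] at h1
      exact h1

lemma simV_correct {A B : Lang} {g : Tr} {a c c' D : ℕ} (hc : 1 ≤ c) (hc' : 3 * a + 1 ≤ c')
    (hB : SelfUniversal c B)
    (hg : ∀ z : Dat × List Bool, ∃ t ≤ (sz z + 2) ^ a,
      Halts (.oracle A) (dec g) (enc z) (enc (simV (Univ A) z)) t)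
    (hD : g.size + 2 * c + 2 * c' + 13 ≤ D)
    (hbig : ∀ T, 5 ≤ T → (10 * T + D) ^ c' ≤ T ^ c) :
    ∀ (T s : ℕ) (v x : Tr) (y : List Bool), (10 * T + D) ^ c' ≤ s →
      (simV (Univ A) ((g, c, c', v, x, T, s), y) = true ↔
        ∃ t ≤ T, Halts (.oracle B) (dec v) (.node x (ofWord y)) (truth True) t) := by
  intro T
  induction T using Nat.strong_induction_on with
  | _ T ih =>
  intro s v x y hs
  -- the answers to short questions are correct
  have key : ∀ u : List Bool, 2 * u.length + 3 ≤ T →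
      (u ∈ orc (ansV (Univ A)) (g, c, c', v, x, T, s) ↔ u ∈ B) := by
    intro u hu
    rw [hB u]
    show ansV (Univ A) ((g, c, c', v, x, T, s), u) = true ↔ _
    unfold ansV
    simp only [Bool.and_eq_true, decide_eq_true_eq]
    have hsu := tree_size_le u
    rcases e : tree u with _ | ⟨_ | ⟨v', x'⟩, r'⟩
    · simp [isn]
    · simp [isn, hd_node]
    · simp only [isn, hd_node, tl_node, true_and]
      rw [e] at hsu
      simp only [Tr.size] at hsu
      have hv' := v'.size_pos
      have hx' := x'.size_pos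
      have hr' := r'.size_pos
      have hrt : ∀ t, t ≤ rt c r'.size ↔ t ^ c ≤ r'.size := fun t => le_rt_iff hc
      generalize rt c r'.size = T' at hrt
      have hT1 : T' ^ c ≤ r'.size := (hrt T').1 le_rfl
      have hT2 : T' ≤ T' ^ c := Nat.le_self_pow (by omega) T'
      have hS : 10 * T + D ≤ rt c' s := (le_rt_iff (by omega)).2 hs
      have hS' : (rt c' s) ^ c' ≤ s := (le_rt_iff (by omega)).1 le_rfl
      generalize rt c' s = s' at hS hS'
      constructor
      · rintro ⟨h5, h6⟩
        have hih := fun y => ih T' (by omega) s' v' x' y (((hbig T' h5).trans hT1).trans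
          (by omega))
        rw [inb_eq_true, univ_simV hg] at h6
        · obtain ⟨y', h7⟩ := h6
          rw [hih] at h7
          obtain ⟨t, ht, h8⟩ := h7
          exact ⟨v', x', r', y', t, rfl, (hrt t).1 ht, h8⟩
        · intro y' h7
          rw [hih] at h7
          obtain ⟨t, ht, h8⟩ := h7
          have h9 := h8.in_size_lt
          simp only [Tr.size] at h9
          have h10 : sz ((g, c, c', v', x', T', s'), y') + 2 ≤ 3 * s' := by
            simp only [sz_pair, sz_nat, sz_tr]
            rw [show sz y' = (ofWord y').size from congrArg Tr.size (enc_word y')]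
            omega
          calc (sz ((g, c, c', v', x', T', s'), y') + 2) ^ a ≤ (3 * s') ^ a :=
                Nat.pow_le_pow_left h10 a
            _ ≤ (s' ^ 3) ^ a := Nat.pow_le_pow_left (by
                have : 3 ≤ s' ^ 2 := by nlinarith
                calc 3 * s' ≤ s' ^ 2 * s' := Nat.mul_le_mul_right _ this
                  _ = s' ^ 3 := by ring) a
            _ = s' ^ (3 * a) := by rw [← pow_mul]
            _ ≤ s' ^ c' := Nat.pow_le_pow_right (by omega) (by omega)
            _ ≤ 2 * s + 1 := by omega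
      · rintro ⟨v1, x1, r1, y', t, e1, h1, h2⟩
        rw [Tr.node.injEq, Tr.node.injEq] at e1
        obtain ⟨⟨rfl, rfl⟩, rfl⟩ := e1
        have ht : t ≤ T' := (hrt t).2 h1
        have h3 := h2.in_size_lt
        simp only [Tr.size] at h3
        have hy1 := (ofWord y').size_pos
        have h5 : 5 ≤ T' := by omega
        have hih := fun y => ih T' (by omega) s' v' x' y (((hbig T' h5).trans hT1).trans
          (by omega))
        refine ⟨h5, ?_⟩
        rw [inb_eq_true, univ_simV hg]
        · exact ⟨y', (hih y').2 ⟨t, ht, h2⟩⟩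
        · intro y' h7
          rw [hih] at h7
          obtain ⟨t, ht, h8⟩ := h7
          have h9 := h8.in_size_lt
          simp only [Tr.size] at h9
          have h10 : sz ((g, c, c', v', x', T', s'), y') + 2 ≤ 3 * s' := by
            simp only [sz_pair, sz_nat, sz_tr]
            rw [show sz y' = (ofWord y').size from congrArg Tr.size (enc_word y')]
            omega
          calc (sz ((g, c, c', v', x', T', s'), y') + 2) ^ a ≤ (3 * s') ^ a :=
                Nat.pow_le_pow_left h10 a
            _ ≤ (s' ^ 3) ^ a := Nat.pow_le_pow_left (by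
                have : 3 ≤ s' ^ 2 := by nlinarith
                calc 3 * s' ≤ s' ^ 2 * s' := Nat.mul_le_mul_right _ this
                  _ = s' ^ 3 := by ring) a
            _ = s' ^ (3 * a) := by rw [← pow_mul]
            _ ≤ s' ^ c' := Nat.pow_le_pow_right (by omega) (by omega)
            _ ≤ 2 * s + 1 := by omega
  show runs (ansV (Univ A)) (g, c, c', v, x, T, s) v (.node x (ofWord y)) T = true ↔ _
  rw [runs_iff]
  constructor
  · rintro ⟨t, ht, h1⟩
    exact ⟨t, ht, h1.congr (fun u hu => key u (by omega))⟩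
  · rintro ⟨t, ht, h1⟩
    exact ⟨t, ht, h1.congr (fun u hu => (key u (by omega)).symm)⟩

/-- The choice of the exponent. -/
lemma exponent (k c' : ℕ) (hc' : 1 ≤ c') : ∃ c0, 2 ≤ c0 ∧ ∀ c, c0 ≤ c →
    ∀ T, 5 ≤ T → (10 * T + (k + 2 * c)) ^ c' ≤ T ^ c := by
  let m0 := 5 * (10 + k + 2 * c') + 10 * c'
  have hm1 : 60 ≤ m0 := by show 60 ≤ 5 * (10 + k + 2 * c') + 10 * c'; omega
  refine ⟨m0 * c', by nlinarith, fun c hc T hT => ?_⟩
  -- quotient
  obtain ⟨m, hm⟩ : ∃ m, m = c / c' := ⟨_, rfl⟩
  have hm0 : m0 ≤ m := by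
    rw [hm, Nat.le_div_iff_mul_le (by omega)]
    exact hc
  have hc1 : m * c' ≤ c := by rw [hm]; exact Nat.div_mul_le_self c c'
  have hc2 : c ≤ (m + 1) * c' := by
    have := Nat.lt_succ_iff.2 (le_refl m)
    have h1 : c / c' < m + 1 := by omega
    rw [Nat.div_lt_iff_lt_mul (by omega)] at h1
    exact h1.le
  have hm2 : 5 * (10 + k + 2 * c') + 10 * c' * m ≤ 5 ^ m := by
    have h1 : m < 2 ^ m := Nat.lt_two_pow_self
    calc 5 * (10 + k + 2 * c') + 10 * c' * m ≤ 5 * (10 + k + 2 * c') * m + 10 * c' * m := by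
          have : 5 * (10 + k + 2 * c') * 1 ≤ 5 * (10 + k + 2 * c') * m :=
            Nat.mul_le_mul_left _ (by omega)
          omega
      _ = m0 * m := by rw [← Nat.add_mul]
      _ ≤ m * m := Nat.mul_le_mul_right _ hm0
      _ ≤ 2 ^ m * 2 ^ m := Nat.mul_le_mul h1.le h1.le
      _ = 4 ^ m := by rw [← Nat.mul_pow]
      _ ≤ 5 ^ m := Nat.pow_le_pow_left (by omega) m
  refine le_trans ?_ (Nat.pow_le_pow_right (by omega) hc1)
  rw [pow_mul]
  refine Nat.pow_le_pow_left ?_ c'
  obtain ⟨n, hn⟩ : ∃ n, m = n + 1 := ⟨m - 1, by omega⟩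
  have h3 : 10 + (k + 2 * c) ≤ 5 ^ n := by
    have h4 : 5 * (10 + k + 2 * c') + 10 * c' * m ≤ 5 ^ n * 5 := by
      rw [← pow_succ, ← hn]; exact hm2
    nlinarith
  calc 10 * T + (k + 2 * c) ≤ T * (10 + (k + 2 * c)) := by
        generalize k + 2 * c = K
        rw [Nat.mul_add]
        have : 1 * K ≤ T * K := Nat.mul_le_mul_right _ (by omega)
        omega
    _ ≤ T * 5 ^ n := Nat.mul_le_mul_left _ h3
    _ ≤ T * T ^ n := Nat.mul_le_mul_left _ (Nat.pow_le_pow_left hT n)
    _ = T ^ m := by rw [hn, pow_succ]; ring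

/-- Every oracle `A` with `P A = NP A` computes some self-universal language. -/
theorem exists_selfUniversal_mem {A : Lang} (hA : P A = NP A) :
    ∃ c0, 2 ≤ c0 ∧ ∀ c, c0 ≤ c → ∀ B, SelfUniversal c B → B ∈ P A := by
  have hU : Univ A ∈ P A := hA ▸ Univ_mem_NP A
  obtain ⟨p, T0, ⟨a, ha⟩, -, hp⟩ := simV_PT hU
  have hg : ∀ z : Dat × List Bool, ∃ t ≤ (sz z + 2) ^ a,
      Halts (.oracle A) (dec (code p)) (enc z) (enc (simV (Univ A) z)) t := by
    intro z
    obtain ⟨t, ht, h⟩ := hp z _ rfl
    rw [dec_code]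
    exact ⟨t, ht.trans (ha z), h⟩
  generalize code p = g at hg
  obtain ⟨c0, hc0, hbig0⟩ := exponent (g.size + 2 * (3 * a + 1) + 13) (3 * a + 1) (by omega)
  refine ⟨c0, hc0, fun c hc00 B hB => ?_⟩
  have hc : 2 ≤ c := by omega
  have hbig := hbig0 c hc00
  obtain ⟨c', hc'⟩ : ∃ c', c' = 3 * a + 1 := ⟨_, rfl⟩
  rw [← hc'] at hbig
  obtain ⟨D, hD⟩ : ∃ D, D = g.size + 2 * c' + 13 + 2 * c := ⟨_, rfl⟩
  rw [← hD] at hbig
  have hcor := simV_correct (D := D) (by omega) (by omega) hB hg (by omega) hbig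
  -- the data
  let d : List Bool → Dat := fun w => (g, c, c', (tree w).hd.hd, (tree w).hd.tl,
    rt c (tree w).tl.size, (10 * rt c (tree w).tl.size + D) ^ c')
  have hd : PT {Mach.oracle A} d := by fun_prop
  have hU' := mem_P_iff.1 hU
  have h1 : PT {Mach.oracle A} (fun w : List Bool => Tr.bits (.node (.node g (enc (d w)))
      (num (((enc (d w)).size + rt c (tree w).tl.size + 3) ^ a)))) := by fun_prop
  have h2 := hU'.comp h1
  have h3 : PT {Mach.oracle A} (fun w : List Bool => isn (tree w) && (isn (tree w).hd &&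
      (decide (5 ≤ rt c (tree w).tl.size) && inb (Univ A) (Tr.bits (.node (.node g (enc (d w)))
      (num (((enc (d w)).size + rt c (tree w).tl.size + 3) ^ a))))))) :=
    PT.and (by fun_prop) (PT.and (by fun_prop) (PT.and (by fun_prop) h2))
  rw [mem_P_iff]
  refine h3.congr (fun w => ?_)
  rw [Bool.eq_iff_iff, inb_eq_true, hB w]
  simp only [Bool.and_eq_true, decide_eq_true_eq, inb_eq_true]
  rw [univ_simV hg]
  · show _ ∧ _ ∧ _ ∧ (∃ y, simV (Univ A) ((g, c, c', (tree w).hd.hd, (tree w).hd.tl,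
      rt c (tree w).tl.size, (10 * rt c (tree w).tl.size + D) ^ c'), y) = true) ↔ _
    rcases e : tree w with _ | ⟨_ | ⟨v, x⟩, r⟩
    · simp [isn]
    · simp [isn, hd_node]
    · simp only [isn, hd_node, tl_node, true_and]
      constructor
      · rintro ⟨h5, y, h6⟩
        rw [hcor _ _ _ _ _ le_rfl] at h6
        obtain ⟨t, ht, h7⟩ := h6
        exact ⟨v, x, r, y, t, rfl, (le_rt_iff (by omega)).1 ht, h7⟩
      · rintro ⟨v1, x1, r1, y, t, e1, h5, h6⟩
        rw [Tr.node.injEq, Tr.node.injEq] at e1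
        obtain ⟨⟨rfl, rfl⟩, rfl⟩ := e1
        have ht : t ≤ rt c r.size := (le_rt_iff (by omega)).2 h5
        have h7 := h6.in_size_lt
        simp only [Tr.size] at h7
        have hy1 := (ofWord y).size_pos
        have hx1 := x.size_pos
        refine ⟨by omega, y, ?_⟩
        rw [hcor _ _ _ _ _ le_rfl]
        exact ⟨t, ht, h6⟩
  · intro y h6
    have h7 := (hcor _ _ _ _ y le_rfl).1 h6
    obtain ⟨t, ht, h8⟩ := h7
    have h9 := h8.in_size_lt
    simp only [Tr.size] at h9
    have h10 : ∀ n : ℕ, n ≤ 2 * n + 1 := fun n => by omega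
    refine le_trans (Nat.pow_le_pow_left ?_ a) (h10 _)
    show sz (d w, y) + 2 ≤ (enc (d w)).size + rt c (tree w).tl.size + 3
    rw [sz_pair, show sz (d w) = (enc (d w)).size from rfl,
      show sz y = (ofWord y).size from congrArg Tr.size (enc_word y)]
    omega

end Pool.Agent.H69.Ora
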