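import Mathlib
import Pool.Agent.H69.Ora.AltC
import Pool.Agent.H69.Ora.Into
import Pool.Agent.H69.Ora.Def2

/-!
# Oracle computations: the class `H` and the polynomial-time hierarchy
-/

namespace Pool.Agent.H69.Ora

set_option linter.unusedVariables false
set_option linter.unusedSectionVars false
set_option linter.unusedSimpArgs false

variable {α β γ δ : Type} [Enc α] [Enc β] [Enc γ] [Enc δ] {S : Set Mach}

/-! ### Transitivity -/

lemma PT.trans_bool {A B : Lang} (h : B ∈ P A) {f : α → Bool} (hf : PT {Mach.oracle B} f) :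
    PT {Mach.oracle A} f := by
  obtain ⟨p, T, ⟨k, hk⟩, -, hp⟩ := hf
  rw [mem_P_iff] at h
  have h1 : PT {Mach.oracle A} (fun z : Bool × List Bool => inb B z.2) :=
    h.comp (f := fun z : Bool × List Bool => z.2) (by fun_prop)
  have h2 : PT {Mach.oracle A} (fun x : α => Ora.runs (fun z : Bool × List Bool => inb B z.2)
      true (code p) (Ora.enc x) (((Ora.enc x).size + 2) ^ k)) :=
    PT.runs h1 (by fun_prop) (by fun_prop) (by fun_prop) (by fun_prop)
  refine h2.congr (fun x => ?_)
  rw [Bool.eq_iff_iff, runs_iff, orc_inb, dec_code]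
  obtain ⟨t, ht, h3⟩ := hp x _ rfl
  rw [enc_bool, ← truth_bool] at h3
  constructor
  · rintro ⟨t', ht', h4⟩
    exact truth_eq_true.1 (h3.det h4).1
  · intro h4
    rw [truth_eq_true.2 h4] at h3
    exact ⟨t, ht.trans (hk x), h3⟩

lemma NP_trans {A B : Lang} (h : B ∈ P A) : NP B ⊆ NP A := by
  intro L hL
  rw [mem_NP_iff] at hL ⊢
  obtain ⟨R, k, hR, hL⟩ := hL
  exact ⟨R, k, hR.trans_bool h, hL⟩

lemma empty_mem_P (A : Lang) : (∅ : Lang) ∈ P A := by
  rw [mem_P_iff]
  refine (PT.const (S := {Mach.oracle A}) (α := List Bool) false).congr (fun w => ?_)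
  symm
  rw [← Bool.not_eq_true, inb_eq_true]
  exact id

lemma mem_P_of_query {A B : Lang} {q : List Bool → List Bool} (hq : PT Set.univ q) {L : Lang}
    (hL : ∀ w, w ∈ L ↔ q w ∈ B) (h : B ∈ P A) : L ∈ P A := by
  rw [mem_P_iff] at h ⊢
  refine (h.comp (hq.mono (Set.subset_univ _))).congr (fun w => ?_)
  rw [Bool.eq_iff_iff, inb_eq_true, inb_eq_true, hL]

lemma self_mem_P (A : Lang) : A ∈ P A := by
  rw [mem_P_iff]
  exact PT.oracle A (by fun_prop)

/-! ### The complete languages of the hierarchy -/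

lemma lev_succ (k : ℕ) (w : List Bool) : w ∈ lev 1 (k + 1) ↔ Acc 1 (lev 1 k) w := Iff.rfl

lemma lev_mem_Sigma (k : ℕ) : lev 1 k ∈ SigmaP k := by
  induction k with
  | zero => exact empty_mem_P ∅
  | succ k ih => exact ⟨lev 1 k, ih, Univ_mem_NP (lev 1 k)⟩

lemma Sigma_subset (k : ℕ) : SigmaP k ⊆ P (lev 1 k) := by
  induction k with
  | zero => exact subset_rfl
  | succ k ih =>
    rintro L ⟨A, hA, hL⟩
    obtain ⟨q, hq, h⟩ := exists_query (NP_trans (ih hA) hL) 1
    exact mem_P_of_query hq h (self_mem_P _)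

lemma NP_lev_subset (k : ℕ) : NP (lev 1 k) ⊆ SigmaP (k + 1) := fun L hL =>
  ⟨lev 1 k, lev_mem_Sigma k, hL⟩

lemma Sigma_subset_P {A : Lang} (hA : P A = NP A) (k : ℕ) : SigmaP k ⊆ P A := by
  induction k with
  | zero => exact P_trans (empty_mem_P A)
  | succ k ih =>
    rintro L ⟨B, hB, hL⟩
    rw [hA]
    exact NP_trans (ih hB) hL

/-! ### The simulation of the levels -/

/-- The answers to the oracle questions in the simulation of the levels; the data are a code of the
simulation itself, an exponent `c'`, the level `k`, the code `v` of the simulated program, its input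
`x`, its time `T` and a parameter `s`. -/
noncomputable def ansL (U : Lang) (z : Dat × List Bool) : Bool :=
  isn (tree z.2) && (isn (tree z.2).hd && (decide (1 ≤ z.1.2.2.1) &&
    inb U (Tr.bits (.node (.node z.1.1 (enc ((z.1.1, z.1.2.1, z.1.2.2.1 - 1, (tree z.2).hd.hd,
      (tree z.2).hd.tl, (tree z.2).tl.size, rt z.1.2.1 z.1.2.2.2.2.2.2) : Dat)))
        (num z.1.2.2.2.2.2.2)))))

/-- The recursive simulation of the levels. -/
noncomputable def simL (U : Lang) (z : Dat × List Bool) : Bool :=
  runs (ansL U) z.1 z.1.2.2.2.1 (.node z.1.2.2.2.2.1 (ofWord z.2)) z.1.2.2.2.2.2.1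

lemma ansL_PT {A U : Lang} (hU : U ∈ P A) : PT {Mach.oracle A} (ansL U) := by
  rw [mem_P_iff] at hU
  have h1 : PT {Mach.oracle A} (fun z : Dat × List Bool =>
      (Tr.bits (.node (.node z.1.1 (enc ((z.1.1, z.1.2.1, z.1.2.2.1 - 1, (tree z.2).hd.hd,
      (tree z.2).hd.tl, (tree z.2).tl.size, rt z.1.2.1 z.1.2.2.2.2.2.2) : Dat)))
        (num z.1.2.2.2.2.2.2)))) := by fun_prop
  have h2 := hU.comp h1
  unfold ansL
  exact PT.and (by fun_prop) (PT.and (by fun_prop) (PT.and (by fun_prop) h2))

lemma simL_PT {A U : Lang} (hU : U ∈ P A) : PT {Mach.oracle A} (simL U) :=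
  PT.runs (ansL_PT hU) (by fun_prop) (by fun_prop) (by fun_prop) (by fun_prop)

/-- Questions to the universal language about the simulation of the levels. -/
lemma univ_simL {A : Lang} {g : Tr} {a : ℕ}
    (hg : ∀ z : Dat × List Bool, ∃ t ≤ (sz z + 2) ^ a,
      Halts (.oracle A) (dec g) (enc z) (enc (simL (Univ A) z)) t)
    (d : Dat) (s : ℕ) (hs : ∀ y, simL (Univ A) (d, y) = true → (sz (d, y) + 2) ^ a ≤ 2 * s + 1) :
    Tr.bits (.node (.node g (enc d)) (num s)) ∈ Univ A ↔ ∃ y, simL (Univ A) (d, y) = true := by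
  constructor
  · rintro ⟨v, x, r, y, t, e, h2, h3⟩
    rw [tree_bits, Tr.node.injEq, Tr.node.injEq] at e
    obtain ⟨⟨rfl, rfl⟩, rfl⟩ := e
    refine ⟨y, ?_⟩
    obtain ⟨t', ht', h4⟩ := hg (d, y)
    rw [enc_pair, enc_word] at h4
    have h5 := (h4.det h3).1
    rw [enc_bool, ← truth_bool] at h5
    exact truth_eq_true.1 h5
  · rintro ⟨y, hy⟩
    obtain ⟨t, ht, h1⟩ := hg (d, y)
    rw [enc_pair, enc_word] at h1
    refine ⟨g, enc d, num s, y, t, tree_bits _, ?_, ?_⟩
    · rw [pow_one, num_size]
      exact ht.trans (hs y hy)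
    · rw [enc_bool, ← truth_bool, truth_eq_true.2 hy] at h1
      exact h1

lemma simL_correct {A : Lang} {g : Tr} {a c' D : ℕ} (hc' : 3 * a + 1 ≤ c')
    (hg : ∀ z : Dat × List Bool, ∃ t ≤ (sz z + 2) ^ a,
      Halts (.oracle A) (dec g) (enc z) (enc (simL (Univ A) z)) t)
    (hD : g.size + 2 * c' + 13 ≤ D) (k : ℕ) :
    ∀ (T s : ℕ) (v x : Tr) (y : List Bool), (10 * T + D + 2 * k) ^ (c' ^ (k + 1)) ≤ s →
      (simL (Univ A) ((g, c', k, v, x, T, s), y) = true ↔
        ∃ t ≤ T, Halts (.oracle (lev 1 k)) (dec v) (.node x (ofWord y)) (truth True) t) := by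
  induction k with
  | zero =>
    intro T s v x y hs
    have key : ∀ u : List Bool,
        (u ∈ orc (ansL (Univ A)) (g, c', 0, v, x, T, s) ↔ u ∈ lev 1 0) := by
      intro u
      show ansL (Univ A) ((g, c', 0, v, x, T, s), u) = true ↔ _
      unfold ansL
      simp [lev]
    show runs (ansL (Univ A)) (g, c', 0, v, x, T, s) v (.node x (ofWord y)) T = true ↔ _
    rw [runs_iff]
    constructor
    · rintro ⟨t, ht, h1⟩
      exact ⟨t, ht, h1.congr (fun u hu => key u)⟩
    · rintro ⟨t, ht, h1⟩
      exact ⟨t, ht, h1.congr (fun u hu => (key u).symm)⟩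
  | succ k ih =>
    intro T s v x y hs
    -- the answers to short questions are correct
    have key : ∀ u : List Bool, 2 * u.length + 3 ≤ T →
        (u ∈ orc (ansL (Univ A)) (g, c', k + 1, v, x, T, s) ↔ u ∈ lev 1 (k + 1)) := by
      intro u hu
      rw [lev_succ]
      show ansL (Univ A) ((g, c', k + 1, v, x, T, s), u) = true ↔ _
      unfold ansL
      simp only [Bool.and_eq_true, decide_eq_true_eq]
      have hsu := tree_size_le u
      rcases e : tree u with _ | ⟨_ | ⟨v', x'⟩, r'⟩
      · constructor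
        · rintro ⟨h, -⟩
          simp [isn] at h
        · rintro ⟨v1, x1, r1, y1, t1, e1, -⟩
          rw [e] at e1
          exact absurd e1 (by simp)
      · constructor
        · rintro ⟨-, h, -⟩
          simp [isn, hd_node] at h
        · rintro ⟨v1, x1, r1, y1, t1, e1, -⟩
          rw [e] at e1
          exact absurd e1 (by simp)
      · simp only [isn, hd_node, tl_node, true_and, Nat.add_sub_cancel]
        rw [e] at hsu
        simp only [Tr.size] at hsu
        have hv' := v'.size_pos
        have hx' := x'.size_pos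
        have hr' := r'.size_pos
        have hacc : Acc 1 (lev 1 k) u ↔ ∃ y, ∃ t ≤ r'.size,
            Halts (.oracle (lev 1 k)) (dec v') (.node x' (ofWord y)) (truth True) t := by
          constructor
          · rintro ⟨v1, x1, r1, y1, t1, e1, h1, h2⟩
            rw [e, Tr.node.injEq, Tr.node.injEq] at e1
            obtain ⟨⟨rfl, rfl⟩, rfl⟩ := e1
            exact ⟨y1, t1, by simpa using h1, h2⟩
          · rintro ⟨y1, t1, h1, h2⟩
            exact ⟨v', x', r', y1, t1, e, by simpa using h1, h2⟩
        rw [hacc]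
        have hT' : r'.size ≤ T := by omega
        generalize r'.size = T' at hT' hr' hsu hacc
        have hS1 : (10 * T + D + 2 * (k + 1)) ^ (c' ^ (k + 1)) ≤ rt c' s := by
          rw [le_rt_iff (by omega), ← pow_mul, ← pow_succ]
          exact hs
        have hS : 10 * T + D + 2 * (k + 1) ≤ rt c' s := by
          refine le_trans ?_ hS1
          exact Nat.le_self_pow (pow_ne_zero _ (by omega)) _
        have hS' : (rt c' s) ^ c' ≤ s := (le_rt_iff (by omega)).1 le_rfl
        generalize rt c' s = s' at hS hS' hS1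
        have hih := fun y => ih T' s' v' x' y
          (le_trans (Nat.pow_le_pow_left (by omega) _) hS1)
        rw [inb_eq_true, univ_simL hg]
        · constructor
          · rintro ⟨-, y', h7⟩
            exact ⟨y', (hih y').1 h7⟩
          · rintro ⟨y', h7⟩
            exact ⟨by omega, y', (hih y').2 h7⟩
        · intro y' h7
          rw [hih] at h7
          obtain ⟨t, ht, h8⟩ := h7
          have h9 := h8.in_size_lt
          simp only [Tr.size] at h9
          have h10 : sz ((g, c', k, v', x', T', s'), y') + 2 ≤ 3 * s' := by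
            simp only [sz_pair, sz_nat, sz_tr]
            rw [show sz y' = (ofWord y').size from congrArg Tr.size (enc_word y')]
            omega
          calc (sz ((g, c', k, v', x', T', s'), y') + 2) ^ a ≤ (3 * s') ^ a :=
                Nat.pow_le_pow_left h10 a
            _ ≤ (s' ^ 3) ^ a := Nat.pow_le_pow_left (by
                have : 3 ≤ s' ^ 2 := by nlinarith
                calc 3 * s' ≤ s' ^ 2 * s' := Nat.mul_le_mul_right _ this
                  _ = s' ^ 3 := by ring) a
            _ = s' ^ (3 * a) := by rw [← pow_mul]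
            _ ≤ s' ^ c' := Nat.pow_le_pow_right (by omega) (by omega)
            _ ≤ 2 * s + 1 := by omega
    show runs (ansL (Univ A)) (g, c', k + 1, v, x, T, s) v (.node x (ofWord y)) T = true ↔ _
    rw [runs_iff]
    constructor
    · rintro ⟨t, ht, h1⟩
      exact ⟨t, ht, h1.congr (fun u hu => key u (by omega))⟩
    · rintro ⟨t, ht, h1⟩
      exact ⟨t, ht, h1.congr (fun u hu => (key u (by omega)).symm)⟩

end Pool.Agent.H69.Ora
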