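import Mathlib
import Pool.Agent.H69.Ora.Hier

/-!
# Oracle computations: a language in `H` which is hard for the polynomial-time hierarchy
-/

namespace Pool.Agent.H69.Ora

set_option linter.unusedVariables false
set_option linter.unusedSectionVars false
set_option linter.unusedSimpArgs false

variable {α β γ δ : Type} [Enc α] [Enc β] [Enc γ] [Enc δ] {S : Set Mach}

@[fun_prop]
lemma PT.powmin {f g h : α → ℕ} (hf : PT S f) (hg : PT S g) (hh : PT S h) :
    PT S (fun x => min ((f x) ^ (g x)) (h x + 1)) := by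
  have h1 : PT S (fun x => (fun p : ℕ => _root_.cond (decide (p * f x ≤ h x + 1)) (p * f x)
      (h x + 1))^[g x] 1) :=
    PT.iter (g := fun (e : ℕ × ℕ) (p : ℕ) => _root_.cond (decide (p * e.1 ≤ e.2 + 1)) (p * e.1)
        (e.2 + 1)) (by fun_prop)
      (e := fun x => (f x, h x)) (by fun_prop) (s0 := fun _ => 1) (by fun_prop) hg
      (D := fun x => 2 * (sz (h x) + 1) + 1)
      (((PB.const 2).mul (hh.size.add (PB.const 1))).add (PB.const 1)) (fun x i hi => by
        have h3 := powcut_iter (f x) (h x) i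
        simp only at h3 ⊢
        rw [h3, sz_nat, sz_nat]
        have := min_le_right ((f x) ^ i) (h x + 1)
        omega)
  exact h1.congr (fun x => powcut_iter _ _ _)

/-- The padded union of the complete languages of the hierarchy. -/
def Hard : Lang := {w | ∃ v u r : Tr, tree w = .node (.node v u) r ∧
  (u.size + v.word.length + 2) ^ (2 ^ (v.word.length * v.word.length)) ≤ r.size ∧
    u.word ∈ lev 1 v.word.length}

lemma num_word (k : ℕ) : (num k).word.length = k := by
  induction k with
  | zero => rfl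
  | succ k ih => rw [num, Tr.word, List.length_cons, ih]

lemma lev_mem_P_Hard (k : ℕ) : lev 1 k ∈ P Hard := by
  let q : List Bool → List Bool := fun w => Tr.bits (.node (.node (num k) (ofWord w))
    (num (((ofWord w).size + k + 2) ^ (2 ^ (k * k)))))
  have hq : PT Set.univ q := by
    have h1 : PT Set.univ (fun w : List Bool => ((ofWord w).size + k + 2)) := by fun_prop
    have h2 := PT.powc h1 (2 ^ (k * k))
    fun_prop
  refine mem_P_of_query hq (fun w => ?_) (self_mem_P Hard)
  constructor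
  · intro h
    refine ⟨_, _, _, tree_bits _, ?_, ?_⟩
    · rw [num_word, num_size]
      omega
    · rw [num_word, word_ofWord]
      exact h
  · rintro ⟨v, u, r, e, h1, h2⟩
    rw [show tree (q w) = _ from tree_bits _, Tr.node.injEq, Tr.node.injEq] at e
    obtain ⟨⟨rfl, rfl⟩, rfl⟩ := e
    rw [num_word, word_ofWord] at h2
    exact h2

lemma pow_cmp (c k : ℕ) (hc : 1 ≤ c) : c ^ k ≤ c ^ c * 2 ^ (k * k) := by
  rcases Nat.lt_or_ge c k with h | h
  · have h1 : c ≤ 2 ^ k := (Nat.lt_two_pow_self (n := c)).le.trans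
      (Nat.pow_le_pow_right (by norm_num) h.le)
    calc c ^ k ≤ (2 ^ k) ^ k := Nat.pow_le_pow_left h1 k
      _ = 1 * 2 ^ (k * k) := by rw [← pow_mul, one_mul]
      _ ≤ _ := Nat.mul_le_mul_right _ (Nat.one_le_pow _ _ hc)
  · calc c ^ k ≤ c ^ c := Nat.pow_le_pow_right hc h
      _ = c ^ c * 1 := (mul_one _).symm
      _ ≤ _ := Nat.mul_le_mul_left _ (Nat.one_le_pow _ _ (by norm_num))

lemma pad_bound {D c' k T b N : ℕ} (hc' : 1 ≤ c') (hT : T ≤ b) (hk : k + 2 ≤ b)
    (h : b ^ (2 ^ ((k + 1) * (k + 1))) ≤ N) :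
    (10 * T + D + 2 * k) ^ (c' ^ (k + 1)) ≤ N ^ ((D + 12) * c' ^ c') := by
  have hb : 2 ≤ b := by omega
  have h1 : 10 * T + D + 2 * k ≤ b ^ (D + 12) := by
    have h2 : 12 + D ≤ b ^ (D + 11) := by
      have h3 : D + 11 < 2 ^ (D + 11) := Nat.lt_two_pow_self
      have h4 : 2 ^ (D + 11) ≤ b ^ (D + 11) := Nat.pow_le_pow_left hb _
      omega
    calc 10 * T + D + 2 * k ≤ (12 + D) * b := by nlinarith
      _ ≤ b ^ (D + 11) * b := Nat.mul_le_mul_right _ h2
      _ = b ^ (D + 12) := by rw [← pow_succ]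
  calc (10 * T + D + 2 * k) ^ (c' ^ (k + 1)) ≤ (b ^ (D + 12)) ^ (c' ^ (k + 1)) :=
        Nat.pow_le_pow_left h1 _
    _ = b ^ ((D + 12) * c' ^ (k + 1)) := by rw [← pow_mul]
    _ ≤ b ^ ((D + 12) * (c' ^ c' * 2 ^ ((k + 1) * (k + 1)))) :=
        Nat.pow_le_pow_right (by omega) (Nat.mul_le_mul_left _ (pow_cmp c' (k + 1) hc'))
    _ = (b ^ (2 ^ ((k + 1) * (k + 1)))) ^ ((D + 12) * c' ^ c') := by
        rw [← pow_mul]; congr 1; ring
    _ ≤ _ := Nat.pow_le_pow_left h _

lemma cut_iff {b k N : ℕ} (hb : 2 ≤ b) :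
    b ^ (min (2 ^ (k * k)) (N + 1)) ≤ N ↔ b ^ (2 ^ (k * k)) ≤ N := by
  rcases Nat.lt_or_ge (N + 1) (2 ^ (k * k)) with h | h
  · rw [min_eq_right h.le]
    have h1 : N + 1 < 2 ^ (N + 1) := Nat.lt_two_pow_self
    have h2 : 2 ^ (N + 1) ≤ b ^ (N + 1) := Nat.pow_le_pow_left hb _
    have h3 : b ^ (N + 1) ≤ b ^ (2 ^ (k * k)) := Nat.pow_le_pow_right (by omega) h.le
    constructor <;> intro h4 <;> omega
  · rw [min_eq_left h]

theorem Hard_mem {A : Lang} (hA : P A = NP A) : Hard ∈ P A := by
  have hU : Univ A ∈ P A := hA ▸ Univ_mem_NP A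
  obtain ⟨p, T0, ⟨a, ha⟩, -, hp⟩ := simL_PT hU
  have hg : ∀ z : Dat × List Bool, ∃ t ≤ (sz z + 2) ^ a,
      Halts (.oracle A) (dec (code p)) (enc z) (enc (simL (Univ A) z)) t := by
    intro z
    obtain ⟨t, ht, h⟩ := hp z _ rfl
    rw [dec_code]
    exact ⟨t, ht.trans (ha z), h⟩
  generalize code p = g at hg
  obtain ⟨c', hc'⟩ : ∃ c', c' = 3 * a + 1 := ⟨_, rfl⟩
  obtain ⟨D, hD⟩ : ∃ D, D = g.size + 2 * c' + 13 := ⟨_, rfl⟩
  have hcor := simL_correct (D := D) (c' := c') (by omega) hg (by omega)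
  obtain ⟨C, hC⟩ : ∃ C, C = (D + 12) * c' ^ c' := ⟨_, rfl⟩
  -- the data
  let W : List Bool → List Bool := fun w => (tree w).hd.tl.word
  let d : List Bool → Dat := fun w => (g, c', (tree w).hd.hd.word.length - 1,
    (tree (W w)).hd.hd, (tree (W w)).hd.tl, (tree (W w)).tl.size, (tree w).tl.size ^ C)
  have hW : PT {Mach.oracle A} W := by fun_prop
  have hd : PT {Mach.oracle A} d := by fun_prop
  have hU' := mem_P_iff.1 hU
  have h1 : PT {Mach.oracle A} (fun w : List Bool => Tr.bits (.node (.node g (enc (d w)))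
      (num (((enc (d w)).size + (tree (W w)).tl.size + 3) ^ a)))) := by fun_prop
  have h2 := hU'.comp h1
  have hcond : PT {Mach.oracle A} (fun w : List Bool => decide (((tree w).hd.tl.size +
      (tree w).hd.hd.word.length + 2) ^ (min (2 ^ ((tree w).hd.hd.word.length *
        (tree w).hd.hd.word.length)) ((tree w).tl.size + 1)) ≤ (tree w).tl.size)) :=
    PT.powle (by fun_prop) (PT.powmin (by fun_prop) (by fun_prop) (by fun_prop)) (by fun_prop)
  have h3 : PT {Mach.oracle A} (fun w : List Bool => isn (tree w) && (isn (tree w).hd &&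
      (decide (((tree w).hd.tl.size +
      (tree w).hd.hd.word.length + 2) ^ (min (2 ^ ((tree w).hd.hd.word.length *
        (tree w).hd.hd.word.length)) ((tree w).tl.size + 1)) ≤ (tree w).tl.size) &&
      (decide (1 ≤ (tree w).hd.hd.word.length) && (isn (tree (W w)) && (isn (tree (W w)).hd &&
        inb (Univ A) (Tr.bits (.node (.node g (enc (d w)))
      (num (((enc (d w)).size + (tree (W w)).tl.size + 3) ^ a)))))))))) :=
    PT.and (by fun_prop) (PT.and (by fun_prop) (PT.and hcond (PT.and (by fun_prop)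
      (PT.and (by fun_prop) (PT.and (by fun_prop) h2)))))
  rw [mem_P_iff]
  refine h3.congr (fun w => ?_)
  rw [Bool.eq_iff_iff, inb_eq_true]
  simp only [Bool.and_eq_true, decide_eq_true_eq, inb_eq_true]
  show _ ↔ ∃ v u r : Tr, tree w = .node (.node v u) r ∧
    (u.size + v.word.length + 2) ^ (2 ^ (v.word.length * v.word.length)) ≤ r.size ∧
    u.word ∈ lev 1 v.word.length
  simp only [d, W]
  rcases e : tree w with _ | ⟨_ | ⟨v, u⟩, r⟩
  · simp [isn]
  · simp [isn, hd_node]
  · simp only [isn, hd_node, tl_node, true_and]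
    rw [cut_iff (by omega)]
    rcases e2 : v.word.length with _ | k
    · constructor
      · rintro ⟨-, h, -⟩
        omega
      · rintro ⟨v1, u1, r1, e1, -, h⟩
        rw [Tr.node.injEq, Tr.node.injEq] at e1
        obtain ⟨⟨rfl, rfl⟩, rfl⟩ := e1
        rw [e2] at h
        exact absurd h id
    · rw [Nat.add_sub_cancel]
      have hstep : (∃ v1 u1 r1 : Tr, ((v.node u).node r) = (v1.node u1).node r1 ∧
          (u1.size + v1.word.length + 2) ^ (2 ^ (v1.word.length * v1.word.length)) ≤ r1.size ∧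
          u1.word ∈ lev 1 v1.word.length) ↔
          ((u.size + (k + 1) + 2) ^ (2 ^ ((k + 1) * (k + 1))) ≤ r.size ∧
            Acc 1 (lev 1 k) u.word) := by
        constructor
        · rintro ⟨v1, u1, r1, e1, h4, h5⟩
          rw [Tr.node.injEq, Tr.node.injEq] at e1
          obtain ⟨⟨rfl, rfl⟩, rfl⟩ := e1
          rw [e2] at h4 h5
          exact ⟨h4, h5⟩
        · rintro ⟨h4, h5⟩
          exact ⟨v, u, r, rfl, by rw [e2]; exact h4, by rw [e2]; exact h5⟩
      rw [hstep]
      refine and_congr_right (fun hpad => ?_)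
      have hu' := tree_size_le u.word
      have hu2 := word_length_le u
      rcases e3 : tree u.word with _ | ⟨_ | ⟨v', x'⟩, r'⟩
      · constructor
        · rintro ⟨-, h, -⟩
          exact absurd h (by simp [isn])
        · rintro ⟨v1, x1, r1, y1, t1, e1, -⟩
          rw [e3] at e1
          exact absurd e1 (by simp)
      · constructor
        · rintro ⟨-, -, h, -⟩
          exact absurd h (by simp [isn, hd_node])
        · rintro ⟨v1, x1, r1, y1, t1, e1, -⟩
          rw [e3] at e1
          exact absurd e1 (by simp)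
      · simp only [isn, hd_node, tl_node, true_and]
        rw [e3] at hu'
        simp only [Tr.size] at hu'
        have hv' := v'.size_pos
        have hx' := x'.size_pos
        have hr' := r'.size_pos
        have hacc : Acc 1 (lev 1 k) u.word ↔ ∃ y, ∃ t ≤ r'.size,
            Halts (.oracle (lev 1 k)) (dec v') (.node x' (ofWord y)) (truth True) t := by
          constructor
          · rintro ⟨v1, x1, r1, y1, t1, e1, g1, g2⟩
            rw [e3, Tr.node.injEq, Tr.node.injEq] at e1
            obtain ⟨⟨rfl, rfl⟩, rfl⟩ := e1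
            exact ⟨y1, t1, by simpa using g1, g2⟩
          · rintro ⟨y1, t1, g1, g2⟩
            exact ⟨v', x', r', y1, t1, e3, by simpa using g1, g2⟩
        rw [hacc]
        have hs : (10 * r'.size + D + 2 * k) ^ (c' ^ (k + 1)) ≤ r.size ^ C := by
          rw [hC]
          exact pad_bound (by omega) (by omega) (by omega) hpad
        have hih := fun y => hcor k r'.size (r.size ^ C) v' x' y hs
        rw [univ_simL hg]
        · constructor
          · rintro ⟨-, y, h6⟩
            exact ⟨y, (hih y).1 h6⟩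
          · rintro ⟨y, h6⟩
            exact ⟨by omega, y, (hih y).2 h6⟩
        · intro y h6
          rw [hih] at h6
          obtain ⟨t, ht, h8⟩ := h6
          have h9 := h8.in_size_lt
          simp only [Tr.size] at h9
          have h10 : ∀ n : ℕ, n ≤ 2 * n + 1 := fun n => by omega
          refine le_trans (Nat.pow_le_pow_left ?_ a) (h10 _)
          rw [sz_pair, show ∀ z : Dat, sz z = (enc z).size from fun _ => rfl,
            show sz y = (ofWord y).size from congrArg Tr.size (enc_word y)]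
          omega

/-! ### The class `H` -/

theorem PH_subset_HH : PH ⊆ HH := by
  rintro L ⟨k, hk⟩ A hA
  exact Sigma_subset_P hA k hk

theorem Hard_mem_HH : Hard ∈ HH := fun A hA => Hard_mem hA

theorem PH_subset_P_Hard : PH ⊆ P Hard := by
  rintro L ⟨k, hk⟩
  exact P_trans (lev_mem_P_Hard k) (Sigma_subset k hk)

/-- `H = PH` if and only if the polynomial-time hierarchy collapses. -/
theorem HH_eq_PH_iff : HH = PH ↔ ∃ k, PH = SigmaP k := by
  constructor
  · intro h
    have h1 : Hard ∈ PH := h ▸ Hard_mem_HH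
    obtain ⟨k, hk⟩ := h1
    refine ⟨k + 1, Set.Subset.antisymm ?_ (fun L hL => ⟨k + 1, hL⟩)⟩
    intro L hL
    exact ⟨Hard, hk, P_subset_NP _ (PH_subset_P_Hard hL)⟩
  · rintro ⟨k, hk⟩
    refine Set.Subset.antisymm ?_ PH_subset_HH
    have h1 : P (lev 1 k) = NP (lev 1 k) := by
      refine Set.Subset.antisymm (P_subset_NP _) ?_
      intro L hL
      have h2 : L ∈ PH := ⟨k + 1, NP_lev_subset k hL⟩
      rw [hk] at h2
      exact Sigma_subset k h2
    intro L hL
    exact ⟨k + 1, NP_lev_subset k (P_subset_NP _ (hL _ h1))⟩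

end Pool.Agent.H69.Ora
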