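import Mathlib
import Pool.Agent.H69.Ora.Hard

/-!
# Oracle computations: main theorems
-/

namespace Pool.Agent.H69.Ora

/-- A cofinal decreasing sequence of oracles in `PSPACE` relative to which `P = NP`. -/
theorem exists_chain : ∃ B : ℕ → Lang,
    (∀ n, B n ∈ PSPACE ∧ P (B n) = NP (B n) ∧ B (n + 1) ∈ P (B n)) ∧
    ∀ A : Lang, P A = NP A → ∃ n0, ∀ n, n0 ≤ n → B n ∈ P A := by
  classical
  choose! X hX using fun (c : ℕ) (hc : 1 ≤ c) => selfUniversal_exists hc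
  have h0 : ∀ A : Lang, P A = NP A → ∃ c0, ∀ c, c0 ≤ c → 1 ≤ c → X c ∈ P A := by
    intro A hA
    obtain ⟨c0, _, h⟩ := exists_selfUniversal_mem hA
    exact ⟨c0, fun c hc hc1 => h c hc _ (hX c hc1)⟩
  have h1 : ∀ c : ℕ, ∃ c', c < c' ∧ (1 ≤ c → ∀ b, c' ≤ b → X b ∈ P (X c)) := by
    intro c
    by_cases hc : 1 ≤ c
    · obtain ⟨c0, h⟩ := h0 (X c) (hX c hc).P_eq_NP
      exact ⟨max c0 (c + 1), by omega, fun _ b hb => h b (by omega) (by omega)⟩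
    · exact ⟨c + 1, by omega, fun h => absurd h hc⟩
  choose s hs1 hs2 using h1
  let f : ℕ → ℕ := fun n => s^[n] 2
  have hf : ∀ n, n + 2 ≤ f n := by
    intro n
    induction n with
    | zero => exact le_rfl
    | succ n ih =>
      show n + 1 + 2 ≤ s^[n + 1] 2
      rw [Function.iterate_succ_apply']
      have := hs1 (s^[n] 2)
      change n + 2 ≤ s^[n] 2 at ih
      omega
  refine ⟨fun n => X (f n), fun n => ?_, fun A hA => ?_⟩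
  · have h2 := hf n
    refine ⟨(hX _ (by omega)).mem_PSPACE (by omega), (hX _ (by omega)).P_eq_NP, ?_⟩
    refine hs2 (f n) (by omega) _ ?_
    show s (s^[n] 2) ≤ s^[n + 1] 2
    rw [Function.iterate_succ_apply']
  · obtain ⟨c0, h⟩ := h0 A hA
    refine ⟨c0, fun n hn => ?_⟩
    have h2 := hf n
    exact h _ (by omega) (by omega)

theorem chain : ∃ B : ℕ → Lang,
    (∀ n, B n ∈ PSPACE ∧ P (B n) = NP (B n) ∧ B (n + 1) ∈ P (B n)) ∧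
    (∀ A : Lang, P A = NP A → ∃ n0, ∀ n, n0 ≤ n → B n ∈ P A) ∧
    (∀ L : Lang, (∀ A : Lang, P A = NP A → L ∈ P A) ↔ ∀ n, L ∈ P (B n)) ∧
    ((∀ A ∈ PSPACE, P A = NP A → PSPACE ⊆ P A) ↔ ∀ n, PSPACE ⊆ P (B n)) ∧
    ((∀ A ∈ PSPACE, P A = NP A → PSPACE ⊆ P A) ↔ ∀ A : Lang, P A = NP A → PSPACE ⊆ P A) := by
  obtain ⟨B, h1, h2⟩ := exists_chain
  have h3 : ∀ L : Lang, (∀ n, L ∈ P (B n)) → ∀ A : Lang, P A = NP A → L ∈ P A := by
    intro L hL A hA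
    obtain ⟨n0, h⟩ := h2 A hA
    exact P_trans (h n0 le_rfl) (hL n0)
  refine ⟨B, h1, h2, fun L => ⟨fun h n => h _ (h1 n).2.1, h3 L⟩,
    ⟨fun h n => h _ (h1 n).1 (h1 n).2.1, fun h A _ hA L hL => h3 L (fun n => h n hL) A hA⟩,
    ⟨fun h A hA L hL => h3 L (fun n => h _ (h1 n).1 (h1 n).2.1 hL) A hA, fun h A _ hA => h A hA⟩⟩

/-- Upper bounds. -/
theorem upper (d : ℕ) (hd : 1 ≤ d) :
    (∃ B ∈ PSPACE, P B = NP B ∧
      ∀ L ∈ P B, ∃ e, L ∈ Alt (fun n => Nat.log 2 (Nat.log 2 n) / d + e)) ∧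
    (∀ L ∈ HH, ∃ e, L ∈ Alt (fun n => Nat.log 2 (Nat.log 2 n) / d + e)) ∧
    (∀ e, Alt (fun n => Nat.log 2 (Nat.log 2 n) / d + e) ⊆ PSPACE) ∧
    ((∀ B ∈ PSPACE, P B = NP B → PSPACE ⊆ P B) →
      ∀ L, L ∈ PSPACE ↔ ∃ e, L ∈ Alt (fun n => Nat.log 2 (Nat.log 2 n) / d + e)) := by
  have hc : 2 ≤ 8 ^ d := by
    calc 2 ≤ 8 ^ 1 := by norm_num
      _ ≤ 8 ^ d := Nat.pow_le_pow_right (by norm_num) hd
  obtain ⟨B, hB⟩ := selfUniversal_exists (c := 8 ^ d) (by omega)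
  have h1 : ∀ L ∈ P B, ∃ e, L ∈ Alt (fun n => Nat.log 2 (Nat.log 2 n) / d + e) :=
    fun L hL => hB.P_subset_Alt hd le_rfl hL
  have h2 : ∀ e, Alt (fun n => Nat.log 2 (Nat.log 2 n) / d + e) ⊆ PSPACE := by
    intro e
    refine Alt_subset_PSPACE ?_
    fun_prop
  refine ⟨⟨B, hB.mem_PSPACE hc, hB.P_eq_NP, h1⟩, fun L hL => h1 L (hL B hB.P_eq_NP), h2, ?_⟩
  intro hQ L
  constructor
  · intro hL
    exact h1 L (hQ B (hB.mem_PSPACE hc) hB.P_eq_NP hL)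
  · rintro ⟨e, he⟩
    exact h2 e he

/-- Lower bounds. -/
theorem lower : (∃ L ∈ HH, PH ⊆ P L) ∧ (HH = PH ↔ ∃ k, PH = SigmaP k) :=
  ⟨⟨Hard, Hard_mem_HH, PH_subset_P_Hard⟩, HH_eq_PH_iff⟩

end Pool.Agent.H69.Ora
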